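import Pool.Agent.H36.LV.Df

/-!
# LOG VERSION, RttL: the product form from the equal height form

Copy of `Pool/Agent/H33/PT/Rtu.lean` (`root_trick_u` with all its private lemmas; `rtt_num` unchanged) for `δ := ε / (2 k^2) ≤ 1`, `M := m^δ ≥ 1`, `c₁ := (δ / C₁)^C₁`, `c₂ := (δ / C₂)^C₂` (both in `(0, 1]`).
The hypotheses of `root_trick_u`: `PtHE L Λ 1 m C₁` at `δ` (`h := absLogHeight₁ (γ 0)`, exponent `1/1 + δ ≤ 2`, `degP ≥ 1`): `c₁ / M ≤ degP^2 h`; `PtHE L Λ k m C₂` at `δ`: `c₂ / M ≤ degP^(1/k + δ) h`.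
The result has the constant `exp ((log c₂ + k δ log c₁) / (1/k + δ) - k log 2) / M^k`. `M^k = m^(k δ) ≤ m^ε` (`k δ ≤ ε`); `log c₁, log c₂ ≤ 0`, `1/(1/k + δ) ≤ k`, `δ ≤ 1`: the exponential is at least `exp (k log c₂ + k^2 log c₁ - k log 2) = c₂^k c₁^(k^2) / 2^k`, which is a constant (of `k, C₁, C₂`) times `ε^(k C₂ + k^2 C₁)`: `pw_ex` (`Df.lean`).
-/

set_option autoImplicit false
set_option linter.unusedSectionVars false

open NumberField

namespace Pool.Agent.H36.LV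

open Pool.Agent.H33.TR Pool.Agent.H72.PB Pool.Agent.H11.TH Pool.Agent.H11.TS

private theorem rtt_one {E Ω : Type} [Field E] [Field Ω] [Algebra E Ω] (x : Ω) (t : ℕ)
    (ht : 1 ≤ t) (y : E) (h : x ^ t = algebraMap E Ω y) :
    IsIntegral E x ∧ Module.finrank E (IntermediateField.adjoin E {x}) ≤ t := by
  have hm : (Polynomial.X ^ t - Polynomial.C y).Monic :=
    Polynomial.monic_X_pow_sub_C y (by omega)
  have h0 : Polynomial.aeval x (Polynomial.X ^ t - Polynomial.C y) = 0 := by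
    simp [h]
  have hi : IsIntegral E x := ⟨_, hm, h0⟩
  refine ⟨hi, ?_⟩
  rw [IntermediateField.adjoin.finrank hi]
  have h1 := Polynomial.natDegree_le_natDegree (minpoly.min E x hm h0)
  rwa [Polynomial.natDegree_X_pow_sub_C] at h1

private theorem rtt_fin {E Ω I : Type} [Field E] [Field Ω] [Algebra E Ω] [DecidableEq I]
    (x : I → Ω) (t : I → ℕ) (ht : ∀ i, 1 ≤ t i) (h : ∀ i, ∃ y : E, x i ^ t i = algebraMap E Ω y)
    (s : Finset I) :
    Module.finrank E (IntermediateField.adjoin E (x '' (s : Set I))) ≤ ∏ i ∈ s, t i := by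
  induction s using Finset.induction_on with
  | empty =>
    rw [Finset.coe_empty, Set.image_empty, IntermediateField.adjoin_empty, Finset.prod_empty,
      IntermediateField.finrank_bot]
  | insert i s hi ih =>
    rw [Finset.coe_insert, Set.image_insert_eq, Set.insert_eq, IntermediateField.adjoin_union,
      Finset.prod_insert hi]
    obtain ⟨y, hy⟩ := h i
    exact (IntermediateField.finrank_sup_le _ _).trans
      (Nat.mul_le_mul (rtt_one (x i) (t i) (ht i) y hy).2 ih)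

private theorem rtt_deg {L Ω : Type} [Field L] [Field Ω] [Algebra L Ω] [Algebra.IsAlgebraic L Ω]
    {k : ℕ} (γ ρ : Fin k → Ω) (t : Fin k → ℕ) (ht : ∀ i, 1 ≤ t i) (h : ∀ i, ρ i ^ t i = γ i) :
    Module.finrank L (IntermediateField.adjoin L (Set.range ρ)) ≤
      Module.finrank L (IntermediateField.adjoin L (Set.range γ)) * ∏ i, t i := by
  classical
  set E := IntermediateField.adjoin L (Set.range γ) with hE
  have hmem : ∀ i, γ i ∈ E := fun i => IntermediateField.subset_adjoin L _ ⟨i, rfl⟩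
  have h1 := rtt_fin (E := E) ρ t ht (fun i => ⟨⟨γ i, hmem i⟩, h i⟩) Finset.univ
  rw [Finset.coe_univ, Set.image_univ] at h1
  set F := IntermediateField.adjoin E (Set.range ρ) with hF
  have hfE : FiniteDimensional L E :=
    IntermediateField.finiteDimensional_adjoin fun x _ => (Algebra.IsAlgebraic.isAlgebraic x).isIntegral
  have hfF : FiniteDimensional E F :=
    IntermediateField.finiteDimensional_adjoin fun x hx => by
      obtain ⟨i, rfl⟩ := hx
      exact (rtt_one (E := E) (ρ i) (t i) (ht i) ⟨γ i, hmem i⟩ (h i)).1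
  have hfL : FiniteDimensional L F := FiniteDimensional.trans L E F
  have hle : IntermediateField.adjoin L (Set.range ρ) ≤ F.restrictScalars L := by
    rw [IntermediateField.adjoin_le_iff]
    intro x hx
    exact IntermediateField.subset_adjoin E _ hx
  have h2 : Module.finrank L (IntermediateField.adjoin L (Set.range ρ)) ≤ Module.finrank L F := by
    have hf' : FiniteDimensional L (F.restrictScalars L) := hfL
    exact LinearMap.finrank_le_finrank_of_injective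
      (f := (IntermediateField.inclusion hle).toLinearMap)
      (IntermediateField.inclusion_injective hle)
  calc _ ≤ Module.finrank L F := h2
    _ = Module.finrank L E * Module.finrank E F := (Module.finrank_mul_finrank L E F).symm
    _ ≤ _ := Nat.mul_le_mul le_rfl h1

private theorem rtt_mono {L Ω : Type} [Field L] [Field Ω] [Algebra L Ω] [Algebra.IsAlgebraic L Ω]
    {k : ℕ} (γ : Fin k → Ω) (i : Fin k) :
    Module.finrank L (IntermediateField.adjoin L (Set.range fun _ : Fin 1 => γ i)) ≤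
      Module.finrank L (IntermediateField.adjoin L (Set.range γ)) := by
  have hfE : FiniteDimensional L (IntermediateField.adjoin L (Set.range γ)) :=
    IntermediateField.finiteDimensional_adjoin fun x _ => (Algebra.IsAlgebraic.isAlgebraic x).isIntegral
  have hle : IntermediateField.adjoin L (Set.range fun _ : Fin 1 => γ i) ≤
      IntermediateField.adjoin L (Set.range γ) := by
    refine IntermediateField.adjoin.mono _ _ _ ?_
    rintro _ ⟨_, rfl⟩
    exact ⟨i, rfl⟩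
  exact LinearMap.finrank_le_finrank_of_injective
    (f := (IntermediateField.inclusion hle).toLinearMap)
    (IntermediateField.inclusion_injective hle)

private theorem rtt_pos {L Ω : Type} [Field L] [Field Ω] [Algebra L Ω] [Algebra.IsAlgebraic L Ω]
    {k : ℕ} (γ : Fin k → Ω) :
    1 ≤ Module.finrank L (IntermediateField.adjoin L (Set.range γ)) := by
  have hfE : FiniteDimensional L (IntermediateField.adjoin L (Set.range γ)) :=
    IntermediateField.finiteDimensional_adjoin fun x _ => (Algebra.IsAlgebraic.isAlgebraic x).isIntegral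
  exact Module.finrank_pos

private theorem rtt_ind {Ω : Type} [Field Ω] (Λ : Subgroup Ωˣ) {k : ℕ} {γ : Fin k → Ωˣ}
    (h : IndM Λ γ) (i : Fin k) : IndM Λ fun _ : Fin 1 => γ i := by
  intro a ha m hm hmem
  have ha0 : a 0 ≠ 0 := by
    intro h0
    apply ha
    funext j
    rw [Subsingleton.elim j 0]
    exact h0
  refine h (Pi.single i (a 0)) ?_ m hm ?_
  · intro h0
    apply ha0
    have h1 := congrFun h0 i
    rwa [Pi.single_eq_same] at h1
  · have h1 : (∏ j, γ j ^ (Pi.single i (a 0) : Fin k → ℤ) j) = γ i ^ a 0 := by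
      rw [Finset.prod_eq_single i]
      · rw [Pi.single_eq_same]
      · intro j _ hj
        rw [Pi.single_eq_of_ne hj, zpow_zero]
      · intro h2
        exact absurd (Finset.mem_univ i) h2
    rw [h1]
    rwa [Fin.prod_univ_one] at hmem

private theorem rtt_root {Ω : Type} [Field Ω] (Λ : Subgroup Ωˣ) {k : ℕ} {γ ρ : Fin k → Ωˣ}
    (h : IndM Λ γ) (t : Fin k → ℕ) (ht : ∀ i, 1 ≤ t i) (hρ : ∀ i, ρ i ^ t i = γ i) :
    IndM Λ ρ := by
  intro a ha m hm hmem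
  refine h (fun i => a i * ∏ j ∈ Finset.univ.erase i, (t j : ℤ)) ?_ m hm ?_
  · intro h0
    apply ha
    funext i
    have h1 := congrFun h0 i
    have h2 : (∏ j ∈ Finset.univ.erase i, (t j : ℤ)) ≠ 0 := by
      refine Finset.prod_ne_zero_iff.2 fun j _ => ?_
      have := ht j
      omega
    exact (mul_eq_zero.1 h1).resolve_right h2
  · have h1 : (∏ i, γ i ^ (a i * ∏ j ∈ Finset.univ.erase i, (t j : ℤ))) =
        (∏ i, ρ i ^ a i) ^ (∏ j, t j) := by
      rw [← Finset.prod_pow]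
      refine Finset.prod_congr rfl fun i _ => ?_
      rw [← hρ i, ← zpow_natCast (ρ i) (t i), ← zpow_mul, ← zpow_natCast (ρ i ^ a i), ← zpow_mul]
      congr 1
      push_cast
      rw [← Finset.mul_prod_erase Finset.univ (fun j => (t j : ℤ)) (Finset.mem_univ i)]
      ring
    rw [h1, ← pow_mul, mul_comm, pow_mul]
    exact pow_mem hmem _

private theorem rtt_num (k : ℕ) (hk : 1 ≤ k) (c c' δ ε : ℝ) (hc0 : 0 < c) (hc'0 : 0 < c')
    (hδ : 0 < δ) (hε : 2 * (k : ℝ) ^ 2 * δ ≤ ε) (A h₀ : ℝ) (hA : 1 ≤ A) (hh₀ : 0 < h₀)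
    (h : Fin k → ℝ) (t : Fin k → ℕ) (hh : ∀ i, 0 < h i) (ht1 : ∀ i, 1 ≤ t i)
    (ht : ∀ i, (t i : ℝ) ≤ 2 * (h i / h₀)) (hc : c ≤ A ^ (2 : ℝ) * h₀)
    (hc' : c' ≤ (A * ∏ i, (t i : ℝ)) ^ (1 / (k : ℝ) + δ) * h₀) :
    Real.exp ((Real.log c' + k * δ * Real.log c) / (1 / (k : ℝ) + δ) - k * Real.log 2) ≤
      A ^ (1 + ε) * ∏ i, h i := by
  have hk0 : (0 : ℝ) < k := by exact_mod_cast hk
  have hA0 : 0 < A := by linarith
  have hH : 0 < ∏ i, h i := Finset.prod_pos fun i _ => hh i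
  have hT : 0 < ∏ i, (t i : ℝ) := Finset.prod_pos fun i _ => by
    have := ht1 i
    exact_mod_cast this
  set s := 1 / (k : ℝ) + δ with hs
  have hs0 : 0 < s := by positivity
  have hs1 : 1 / (k : ℝ) ≤ s := by linarith
  -- logarithms
  have e1 : Real.log (∏ i, (t i : ℝ)) ≤ k * Real.log 2 + Real.log (∏ i, h i) - k * Real.log h₀ := by
    have h1 : ∏ i, (t i : ℝ) ≤ ∏ i, (2 * (h i / h₀)) :=
      Finset.prod_le_prod (fun i _ => Nat.cast_nonneg _) fun i _ => ht i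
    have h2 : ∏ i, (2 * (h i / h₀)) = 2 ^ k * ((∏ i, h i) / h₀ ^ k) := by
      rw [Finset.prod_mul_distrib, Finset.prod_div_distrib, Finset.prod_const, Finset.prod_const,
        Finset.card_univ, Fintype.card_fin]
    have h3 := Real.log_le_log hT h1
    rw [h2, Real.log_mul (by positivity) (by positivity), Real.log_div hH.ne' (by positivity),
      Real.log_pow, Real.log_pow] at h3
    linarith
  have e2 : Real.log c ≤ 2 * Real.log A + Real.log h₀ := by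
    have h1 := Real.log_le_log hc0 hc
    rwa [Real.log_mul (by positivity) hh₀.ne', Real.log_rpow hA0] at h1
  have e3 : Real.log c' ≤ s * (Real.log A + Real.log (∏ i, (t i : ℝ))) + Real.log h₀ := by
    have h1 := Real.log_le_log hc'0 hc'
    rwa [Real.log_mul (by positivity) hh₀.ne', Real.log_rpow (by positivity),
      Real.log_mul hA0.ne' hT.ne'] at h1
  have hlA : 0 ≤ Real.log A := Real.log_nonneg hA
  have hks : (k : ℝ) * s = 1 + k * δ := by
    rw [hs]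
    field_simp
  have e4 : Real.log c' + k * δ * Real.log c ≤
      s * (Real.log A + k * Real.log 2 + Real.log (∏ i, h i)) + 2 * (k * δ) * Real.log A := by
    have h1 := mul_le_mul_of_nonneg_left e1 hs0.le
    have h2 := mul_le_mul_of_nonneg_left e2 (by positivity : 0 ≤ (k : ℝ) * δ)
    have h3 : s * (k * Real.log h₀) = Real.log h₀ + k * δ * Real.log h₀ := by
      rw [← mul_assoc, mul_comm s, hks]
      ring
    nlinarith [h1, h2, h3, e3]
  have e5 : 2 * (k * δ) ≤ s * ε := by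
    have h1 : 2 * (k * δ) = 1 / (k : ℝ) * (2 * (k : ℝ) ^ 2 * δ) := by
      field_simp
    rw [h1]
    exact mul_le_mul hs1 hε (by positivity) hs0.le
  have e6 : (Real.log c' + k * δ * Real.log c) / s - k * Real.log 2 ≤
      (1 + ε) * Real.log A + Real.log (∏ i, h i) := by
    have h1 : (Real.log c' + k * δ * Real.log c) / s ≤
        Real.log A + k * Real.log 2 + Real.log (∏ i, h i) + ε * Real.log A := by
      rw [div_le_iff₀ hs0]
      have h2 := mul_le_mul_of_nonneg_right e5 hlA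
      nlinarith [e4, h2]
    linarith
  have e7 : Real.log (A ^ (1 + ε) * ∏ i, h i) = (1 + ε) * Real.log A + Real.log (∏ i, h i) := by
    rw [Real.log_mul (by positivity) hH.ne', Real.log_rpow hA0]
  rw [← Real.le_log_iff_exp_le (by positivity), e7]
  exact e6

private theorem rtl_main (k : ℕ) (hk1 : 1 ≤ k) (ε : ℝ) (hε : 0 < ε) (c₁ c₂ : ℝ) (hc₁ : 0 < c₁)
    (hc₂ : 0 < c₂) (K Ω : Type) [Field K] [NumberField K] [Field Ω]
    [CharZero Ω] [IsAlgClosed Ω] [Algebra K Ω] [IsGalois K Ω] (L : IntermediateField K Ω)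
    (Λ : Subgroup Ωˣ) (M : ℝ) (hM : 1 ≤ M)
    (hc : ∀ γ : Fin 1 → Ωˣ, IndM Λ γ →
      c₁ / M ≤ (degP L γ : ℝ) ^ (2 : ℝ) * absLogHeight₁ (γ 0 : Ω))
    (hc' : ∀ γ : Fin k → Ωˣ, IndM Λ γ → ∀ h : ℝ, (∀ i, absLogHeight₁ (γ i : Ω) ≤ h) →
      c₂ / M ≤ (degP L γ : ℝ) ^ (1 / (k : ℝ) + ε / (2 * (k : ℝ) ^ 2)) * h) :
    PtB L Λ k (1 + ε) (Real.exp ((Real.log c₂ + k * (ε / (2 * (k : ℝ) ^ 2)) * Real.log c₁) /
      (1 / (k : ℝ) + ε / (2 * (k : ℝ) ^ 2)) - k * Real.log 2) / M ^ k) := by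
  have hk0 : (0 : ℝ) < k := by exact_mod_cast hk1
  have hne : Nonempty (Fin k) := ⟨⟨0, hk1⟩⟩
  set δ : ℝ := ε / (2 * (k : ℝ) ^ 2) with hδ
  have hδ0 : 0 < δ := by positivity
  intro γ hγ
  have halg : Algebra.IsAlgebraic L Ω := Algebra.IsAlgebraic.tower_top (K := K) L
  have hM0 : 0 < M := by linarith
  obtain ⟨c, hcd⟩ : ∃ c : ℝ, c = c₁ / M := ⟨_, rfl⟩
  obtain ⟨c', hcd'⟩ : ∃ c : ℝ, c = c₂ / M := ⟨_, rfl⟩
  have hc0 : 0 < c := by rw [hcd]; positivity
  have hc'0 : 0 < c' := by rw [hcd']; positivity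
  rw [← hcd] at hc
  rw [← hcd'] at hc'
  have hconst : Real.exp ((Real.log c₂ + k * δ * Real.log c₁) / (1 / (k : ℝ) + δ) -
      k * Real.log 2) / M ^ k = Real.exp ((Real.log c' + k * δ * Real.log c) / (1 / (k : ℝ) + δ) -
      k * Real.log 2) := by
    have h1 : M ^ k = Real.exp (k * Real.log M) := by
      rw [← Real.log_pow, Real.exp_log (by positivity)]
    rw [h1, ← Real.exp_sub, hcd, hcd', Real.log_div hc₂.ne' hM0.ne', Real.log_div hc₁.ne' hM0.ne']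
    congr 1
    have h2 : 1 / (k : ℝ) + δ = (1 + k * δ) / k := by
      field_simp
    rw [h2]
    have h3 : (0 : ℝ) < 1 + k * δ := by positivity
    field_simp
    ring
  rw [hconst]
  set A : ℝ := (degP L γ : ℝ) with hA
  have hA1 : 1 ≤ A := by
    have h2 : 1 ≤ degP L γ := rtt_pos fun i => (γ i : Ω)
    exact Nat.one_le_cast.2 h2
  have hlow : ∀ i, c ≤ A ^ (2 : ℝ) * absLogHeight₁ (γ i : Ω) := by
    intro i
    refine (hc (fun _ => γ i) (rtt_ind Λ hγ i)).trans ?_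
    refine mul_le_mul_of_nonneg_right ?_ (ht_nonneg _)
    refine Real.rpow_le_rpow (Nat.cast_nonneg _) ?_ (by norm_num)
    have h2 : degP L (fun _ : Fin 1 => γ i) ≤ degP L γ := rtt_mono (fun i => (γ i : Ω)) i
    exact Nat.cast_le.2 h2
  have hpos : ∀ i, 0 < absLogHeight₁ (γ i : Ω) := by
    intro i
    have h2 := hlow i
    by_contra h3
    have h4 : absLogHeight₁ (γ i : Ω) = 0 := le_antisymm (not_lt.1 h3) (ht_nonneg _)
    rw [h4, mul_zero] at h2
    linarith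
  obtain ⟨j, -, hj⟩ := Finset.exists_min_image Finset.univ
    (fun i => absLogHeight₁ (γ i : Ω)) Finset.univ_nonempty
  set h₀ := absLogHeight₁ (γ j : Ω) with hh₀
  have h₀0 : 0 < h₀ := hpos j
  set t : Fin k → ℕ := fun i => ⌈absLogHeight₁ (γ i : Ω) / h₀⌉₊ with htdef
  have hq : ∀ i, 1 ≤ absLogHeight₁ (γ i : Ω) / h₀ := by
    intro i
    rw [le_div_iff₀ h₀0, one_mul]
    exact hj i (Finset.mem_univ i)
  have ht1 : ∀ i, 1 ≤ t i := by
    intro i
    exact Nat.one_le_iff_ne_zero.2 (Nat.pos_iff_ne_zero.1 (Nat.ceil_pos.2 (by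
      have := hq i
      linarith)))
  have ht2 : ∀ i, (t i : ℝ) ≤ 2 * (absLogHeight₁ (γ i : Ω) / h₀) := by
    intro i
    have h2 := Nat.ceil_lt_add_one (by
      have := hq i
      linarith : 0 ≤ absLogHeight₁ (γ i : Ω) / h₀)
    have h3 := hq i
    have h4 : (t i : ℝ) = (⌈absLogHeight₁ (γ i : Ω) / h₀⌉₊ : ℝ) := rfl
    rw [h4]
    linarith
  have ht3 : ∀ i, absLogHeight₁ (γ i : Ω) ≤ t i * h₀ := by
    intro i
    have h2 := Nat.le_ceil (absLogHeight₁ (γ i : Ω) / h₀)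
    rw [div_le_iff₀ h₀0] at h2
    exact h2
  -- the roots
  have hex : ∀ i, ∃ z : Ωˣ, z ^ t i = γ i := by
    intro i
    obtain ⟨z, hz⟩ := IsAlgClosed.exists_pow_nat_eq (γ i : Ω) (Nat.lt_of_lt_of_le Nat.zero_lt_one (ht1 i))
    have hz0 : z ≠ 0 := by
      rintro rfl
      rw [zero_pow (Nat.one_le_iff_ne_zero.1 (ht1 i))] at hz
      exact (γ i).ne_zero hz.symm
    refine ⟨Units.mk0 z hz0, Units.ext ?_⟩
    rw [Units.val_pow_eq_pow_val, Units.val_mk0, hz]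
  choose ρ hρ using hex
  have hρh : ∀ i, absLogHeight₁ (ρ i : Ω) ≤ h₀ := by
    intro i
    have h2 := Pool.Agent.H4.RR.absLogHeight_pow Ω (ρ i : Ω) (int_all K _) (t i)
    rw [← Units.val_pow_eq_pow_val, hρ i] at h2
    have h3 := ht3 i
    rw [h2] at h3
    have h4 : (0 : ℝ) < t i := by
      have := ht1 i
      exact_mod_cast this
    exact le_of_mul_le_mul_left h3 h4
  have hd : (degP L ρ : ℝ) ≤ A * ∏ i, (t i : ℝ) := by
    have h2 : degP L ρ ≤ degP L γ * ∏ i, t i :=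
      rtt_deg (fun i => (γ i : Ω)) (fun i => (ρ i : Ω)) t ht1 fun i => by
        rw [← Units.val_pow_eq_pow_val, hρ i]
    have h3 : ((degP L γ * ∏ i, t i : ℕ) : ℝ) = A * ∏ i, (t i : ℝ) := by
      push_cast
      rfl
    rw [← h3]
    exact_mod_cast h2
  have hfin := hc' ρ (rtt_root Λ hγ t ht1 hρ) h₀ hρh
  have hs0 : (0 : ℝ) ≤ 1 / (k : ℝ) + δ := by positivity
  have hc'' : c' ≤ (A * ∏ i, (t i : ℝ)) ^ (1 / (k : ℝ) + δ) * h₀ :=
    hfin.trans (mul_le_mul_of_nonneg_right (Real.rpow_le_rpow (Nat.cast_nonneg _) hd hs0) h₀0.le)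
  refine rtt_num k hk1 c c' δ ε hc0 hc'0 hδ0 ?_ A h₀ hA1 h₀0 _ t hpos ht1 ht2 (hlow j) hc''
  rw [hδ]
  field_simp
  exact le_rfl

/-- the constant is polynomial in `ε` -/
private theorem rtl_num (k : ℕ) (hk : 1 ≤ k) (C₁ C₂ : ℕ) (hC₁ : 1 ≤ C₁) (hC₂ : 1 ≤ C₂) :
    ∃ C : ℕ, 1 ≤ C ∧ ∀ ε : ℝ, 0 < ε → ε ≤ 1 →
      (ε / C) ^ C ≤ Real.exp ((Real.log ((ε / (2 * (k : ℝ) ^ 2) / C₂) ^ C₂) +
        k * (ε / (2 * (k : ℝ) ^ 2)) * Real.log ((ε / (2 * (k : ℝ) ^ 2) / C₁) ^ C₁)) /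
        (1 / (k : ℝ) + ε / (2 * (k : ℝ) ^ 2)) - k * Real.log 2) := by
  have hk0 : (1 : ℝ) ≤ k := by exact_mod_cast hk
  have h1 : (1 : ℝ) ≤ C₁ := by exact_mod_cast hC₁
  have h2 : (1 : ℝ) ≤ C₂ := by exact_mod_cast hC₂
  obtain ⟨C, hC, hCb⟩ := pw_ex ((1 / (2 * (k : ℝ) ^ 2 * C₂)) ^ (C₂ * k) *
    (1 / (2 * (k : ℝ) ^ 2 * C₁)) ^ (C₁ * k ^ 2) / 2 ^ k) (by positivity) (C₂ * k + C₁ * k ^ 2)
  refine ⟨C, hC, fun ε hε hε1 => (hCb ε hε.le hε1).trans ?_⟩
  have hk2 : (1 : ℝ) ≤ 2 * (k : ℝ) ^ 2 := by nlinarith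
  set δ : ℝ := ε / (2 * (k : ℝ) ^ 2) with hδ
  have hδ0 : 0 < δ := by positivity
  have hδ1 : δ ≤ 1 := by
    rw [hδ, div_le_one (by linarith)]
    linarith
  have hq : ∀ C' : ℕ, (1 : ℝ) ≤ C' → 0 < δ / C' ∧ δ / C' ≤ 1 := by
    intro C' hC'
    refine ⟨by positivity, ?_⟩
    rw [div_le_one (by linarith)]
    linarith
  obtain ⟨hq1, hq1'⟩ := hq C₁ h1
  obtain ⟨hq2, hq2'⟩ := hq C₂ h2
  have hl1 : Real.log ((δ / C₁) ^ C₁) ≤ 0 :=
    Real.log_nonpos (by positivity) (pow_le_one₀ hq1.le hq1')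
  have hl2 : Real.log ((δ / C₂) ^ C₂) ≤ 0 :=
    Real.log_nonpos (by positivity) (pow_le_one₀ hq2.le hq2')
  have e1 : (1 / (2 * (k : ℝ) ^ 2 * C₂)) ^ (C₂ * k) *
      (1 / (2 * (k : ℝ) ^ 2 * C₁)) ^ (C₁ * k ^ 2) / 2 ^ k * ε ^ (C₂ * k + C₁ * k ^ 2) =
      ((δ / C₂) ^ C₂) ^ k * ((δ / C₁) ^ C₁) ^ (k ^ 2) / 2 ^ k := by
    have h3 : δ / C₂ = 1 / (2 * (k : ℝ) ^ 2 * C₂) * ε := by
      rw [hδ]
      field_simp
    have h4 : δ / C₁ = 1 / (2 * (k : ℝ) ^ 2 * C₁) * ε := by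
      rw [hδ]
      field_simp
    rw [h3, h4, ← pow_mul, ← pow_mul, mul_pow, mul_pow, pow_add]
    ring
  rw [e1, ← Real.log_le_iff_le_exp (by positivity), Real.log_div (by positivity) (by positivity),
    Real.log_mul (by positivity) (by positivity), Real.log_pow _ k, Real.log_pow _ (k ^ 2),
    Real.log_pow (2 : ℝ) k]
  refine sub_le_sub_right ?_ _
  have hs0 : 0 < 1 / (k : ℝ) + δ := by positivity
  rw [le_div_iff₀ hs0]
  obtain ⟨a, ha⟩ : ∃ a, a = Real.log ((δ / C₁) ^ C₁) := ⟨_, rfl⟩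
  obtain ⟨b, hb⟩ : ∃ b, b = Real.log ((δ / C₂) ^ C₂) := ⟨_, rfl⟩
  rw [← ha] at hl1 ⊢
  rw [← hb] at hl2 ⊢
  have h5 : (k : ℝ) * b * (1 / (k : ℝ) + δ) = b + k * δ * b := by
    field_simp
  have h6 : (k : ℝ) ^ 2 * a * (1 / (k : ℝ) + δ) = k * a + k ^ 2 * δ * a := by
    field_simp
  have h7 : (k : ℝ) * δ * b ≤ 0 := mul_nonpos_of_nonneg_of_nonpos (by positivity) hl2
  have h8 : (k : ℝ) ^ 2 * δ * a ≤ 0 := mul_nonpos_of_nonneg_of_nonpos (by positivity) hl1
  have h9 : (k : ℝ) * a ≤ k * δ * a := by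
    have : (k : ℝ) * a * (1 - δ) ≤ 0 := mul_nonpos_of_nonpos_of_nonneg
      (mul_nonpos_of_nonneg_of_nonpos (by positivity) hl1) (by linarith)
    linarith
  push_cast
  rw [add_mul, h5, h6]
  linarith

theorem root_trickL (k : ℕ) (hk : 1 ≤ k) (C₁ C₂ : ℕ) (hC₁ : 1 ≤ C₁) (hC₂ : 1 ≤ C₂) :
    ∃ C : ℕ, 1 ≤ C ∧
    ∀ (K Ω : Type) [Field K] [NumberField K] [Field Ω] [CharZero Ω] [IsAlgClosed Ω] [Algebra K Ω]
      [IsGalois K Ω] (L : IntermediateField K Ω) (Λ : Subgroup Ωˣ) (m : ℕ) (_ : 1 ≤ m)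
      (_ : PtHE L Λ 1 m C₁) (_ : PtHE L Λ k m C₂), PtPE L Λ k m C := by
  obtain ⟨C, hC, hCb⟩ := rtl_num k hk C₁ C₂ hC₁ hC₂
  refine ⟨C, hC, ?_⟩
  intro K Ω _ _ _ _ _ _ _ L Λ m hm hP1 hPk ε hε hε1
  have halg : Algebra.IsAlgebraic L Ω := Algebra.IsAlgebraic.tower_top (K := K) L
  have hk0 : (1 : ℝ) ≤ k := by exact_mod_cast hk
  have h1 : (1 : ℝ) ≤ C₁ := by exact_mod_cast hC₁
  have h2 : (1 : ℝ) ≤ C₂ := by exact_mod_cast hC₂
  have hm1 : (1 : ℝ) ≤ m := by exact_mod_cast hm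
  have hk2 : (1 : ℝ) ≤ 2 * (k : ℝ) ^ 2 := by nlinarith
  obtain ⟨δ, hδ⟩ : ∃ δ : ℝ, δ = ε / (2 * (k : ℝ) ^ 2) := ⟨_, rfl⟩
  have hδ0 : 0 < δ := by rw [hδ]; positivity
  have hδ1 : δ ≤ 1 := by
    rw [hδ, div_le_one (by linarith)]
    linarith
  obtain ⟨M, hM⟩ : ∃ M : ℝ, M = (m : ℝ) ^ δ := ⟨_, rfl⟩
  have hM1 : 1 ≤ M := by rw [hM]; exact Real.one_le_rpow hm1 hδ0.le
  have hM0 : 0 < M := by linarith
  have hmain := rtl_main k hk ε hε ((δ / C₁) ^ C₁) ((δ / C₂) ^ C₂) (by positivity) (by positivity)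
    K Ω L Λ M hM1 ?_ ?_
  · intro γ hγ
    refine le_trans ?_ (hmain γ hγ)
    rw [hδ]
    refine div_le_div₀ (Real.exp_pos _).le (hCb ε hε hε1) (by positivity) ?_
    rw [hM, ← Real.rpow_natCast, ← Real.rpow_mul (by positivity)]
    refine Real.rpow_le_rpow_of_exponent_le hm1 ?_
    rw [hδ, div_mul_eq_mul_div, div_le_iff₀ (by positivity)]
    nlinarith [mul_nonneg hε.le (by linarith : (0 : ℝ) ≤ k)]
  · intro γ hγ
    have h3 := hP1 δ hδ0 hδ1 γ hγ (absLogHeight₁ (γ 0 : Ω)) (fun i => by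
      rw [Subsingleton.elim i 0])
    rw [← hM] at h3
    rw [div_le_iff₀ hM0, mul_comm _ M]
    refine h3.trans (mul_le_mul_of_nonneg_left (mul_le_mul_of_nonneg_right ?_ (ht_nonneg _)) hM0.le)
    have h4 : 1 ≤ degP L γ := rtt_pos fun i => (γ i : Ω)
    refine Real.rpow_le_rpow_of_exponent_le (by exact_mod_cast h4) ?_
    rw [Nat.cast_one, div_one]
    linarith
  · intro γ hγ h hh
    have h3 := hPk δ hδ0 hδ1 γ hγ h hh
    rw [← hM] at h3
    rw [div_le_iff₀ hM0, mul_comm _ M, ← hδ]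
    exact h3

end Pool.Agent.H36.LV
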