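import Pool.Agent.H36.LV.TsPL
import Pool.Agent.H36.LV.RttL
import Pool.Agent.H11.TS.Asm

/-!
# LOG VERSION, AsmL: the final assembly

Model: `asm_u` in `Pool/Agent/H33/PT/Asu.lean`. PROOF. `root_trickL` gives for every `k ≥ 1` a `C'_k` with `PtPE (L₀ m) Λ k m C'_k` for all `m ≥ 1`; `C'` the maximum over `k ≤ n` (`ptPE_mono`). `C''` from `ts_PZL n`. Let `m, L, V, Z, ω, θ` be given. `1 ≤ ω`: `ts_PZL` with `ε = 1`, `c₁ := (1/C')^C' / m` (the hypothesis by `degP_mono`, as in `asm`). `θ ≥ 0` as in `asm`.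
`y := log (3 m ω) ≥ log 3 ≥ 1`, `ε := 1 / y ≤ 1`. `m^ε ≤ (3 m ω)^ε = exp 1`, `ω^ε ≤ exp 1`. `ts_PZL` with `ε`, `c₁ := (ε / C')^C' / m^ε` (`≤ 1`): `(ε / C'')^C'' (ε / C')^C' / m^ε ≤ ω^((1+ε)(1+ε)) θ ≤ ω (ω^ε)^3 θ`.
So `1 ≤ exp 4 C'^C' C''^C'' y^(C' + C'') ω θ ≤ C y^C ω θ` for `C ≥ C' + C''`, `C ≥ exp 4 C'^C' C''^C''` (`y ≥ 1`).
-/

set_option autoImplicit false
set_option linter.unusedSectionVars false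

open NumberField

namespace Pool.Agent.H36.LV

open Pool.Agent.H33.TR Pool.Agent.H72.PB Pool.Agent.H11.TH Pool.Agent.H11.TS

theorem asmL {K Ω : Type} [Field K] [NumberField K] [Field Ω] [CharZero Ω] [IsAlgClosed Ω]
    [Algebra K Ω] [IsGalois K Ω] (Λ : Subgroup Ωˣ) (L₀ : ℕ → IntermediateField K Ω)
    (hPT : ∀ k : ℕ, 1 ≤ k → ∃ C : ℕ, 1 ≤ C ∧ ∀ m : ℕ, 1 ≤ m → PtHE (L₀ m) Λ k m C) (n : ℕ) :
    ∃ C : ℕ, 1 ≤ C ∧ ∀ (m : ℕ) (_ : 1 ≤ m) (L : IntermediateField K Ω) (_ : L ≤ L₀ m)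
      (Γ : Subgroup (Tor Ω n)) (_ : ∀ x : Tor Ω n, (∀ l, x l ∈ Λ) → x ∈ Γ)
      (V : Set (Tor Ω n)) (_ : (idl V).IsPrime) (_ : Transv K Γ V)
      (Z : Set (Tor Ω n)) (d' : ℕ) (δ ω : ℝ) (_ : ClosedOver L Z) (_ : Z ≠ Set.univ)
      (_ : Equidim Z d') (_ : HasDeg Z d' δ) (_ : V ⊆ Z) (_ : δ ^ (1 / ((n : ℝ) - d')) ≤ ω)
      (θ : ℝ) (_ : idl {x | x ∈ V ∧ ht x ≤ θ} ≤ idl V),
      1 ≤ ω ∧ 1 ≤ C * Real.log (3 * m * ω) ^ C * (ω * θ) := by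
  sorry

end Pool.Agent.H36.LV
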