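import Pool.Agent.H33.TH2.Chb

/-!
# LOG VERSION, ChsL: choice of the primes

Copy of `Pool/Agent/H33/PT/Chs.lean` (`choose_primes`); only the inequality `hbig : 32 * (e * (L + 1) + N + 1025) ≤ r` (`L = Nat.log 2 Z`, `r = Nat.sqrt Z`) is now to be proved from `(C (e + N + 1))^C ≤ Z` (for example with `u = e + N + 1`: `32 (e (L + 1) + N + 1025) ≤ 32 * 1026 u (L + 1)`, `u ≤ Z^(1/8)` (`u^8 ≤ Z` as `C ≥ 8`), `L + 1 ≤ c₁ Z^(1/8)`, `r + 1 ≥ Z^(1/2)`, and `Z^(1/4) ≥` any constant as `C` is large).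
-/

set_option autoImplicit false

namespace Pool.Agent.H36.LV

private theorem four_le_two_pow (t : ℕ) (ht : 16 ≤ t) : t ^ 4 ≤ 2 ^ t := by
  induction t, ht using Nat.le_induction with
  | base => norm_num
  | succ n hn ih =>
    rw [pow_succ 2]
    have h1 : 16 * n ≤ n * n := Nat.mul_le_mul_right n hn
    have h2 : 16 * (n * n) ≤ n * (n * n) := Nat.mul_le_mul_right _ hn
    have h3 : 16 * (n * (n * n)) ≤ n * (n * (n * n)) := Nat.mul_le_mul_right _ hn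
    have h4 : (n + 1) ^ 4 = n * (n * (n * n)) + 4 * (n * (n * n)) + 6 * (n * n) + 4 * n + 1 := by
      ring
    have h5 : n ^ 4 = n * (n * (n * n)) := by ring
    rw [h4]
    rw [h5] at ih
    omega

private theorem big_aux (u T : ℕ) (hu : 1 ≤ u) (h : (64 * u) ^ 32 ≤ 2 ^ T) :
    2 ^ 18 * (u * T) ≤ 2 ^ T := by
  have hT : 192 ≤ T := by
    have h1 : 2 ^ 192 ≤ (64 * u) ^ 32 := by
      calc 2 ^ 192 = 64 ^ 32 := by norm_num
        _ ≤ (64 * u) ^ 32 := Nat.pow_le_pow_left (by omega) _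
    exact (Nat.pow_le_pow_iff_right (by norm_num)).1 (h1.trans h)
  have h2 : (64 * u) ^ 4 ≤ 2 ^ T :=
    (Nat.pow_le_pow_right (by omega) (by norm_num)).trans h
  have h3 : T ^ 4 ≤ 2 ^ T := four_le_two_pow T (by omega)
  have h4 : 2 ^ 48 ≤ 2 ^ T := Nat.pow_le_pow_right (by norm_num) (by omega)
  have h5 : (2 ^ 18 * (u * T)) ^ 4 ≤ (2 ^ T) ^ 4 := by
    calc (2 ^ 18 * (u * T)) ^ 4 = 2 ^ 48 * ((64 * u) ^ 4 * T ^ 4) := by ring
      _ ≤ 2 ^ T * (2 ^ T * 2 ^ T) := Nat.mul_le_mul h4 (Nat.mul_le_mul h2 h3)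
      _ ≤ 2 ^ T * (2 ^ T * (2 ^ T * 2 ^ T)) :=
        Nat.mul_le_mul_left _ (Nat.mul_le_mul_left _
          (Nat.le_mul_of_pos_left _ (by positivity)))
      _ = (2 ^ T) ^ 4 := by ring
  exact (Nat.pow_le_pow_iff_left (by norm_num)).1 h5

theorem choose_primesL : ∃ C : ℕ, 1 ≤ C ∧ ∀ e N Z : ℕ, (C * (e + N + 1)) ^ C ≤ Z →
    ∀ B : Finset ℕ, 2 ^ B.card ≤ Z ^ e →
    ∃ LL : Finset ℕ, LL.card = N ∧ ∀ l ∈ LL, l.Prime ∧ l ∉ B ∧ Z ≤ l ^ 3 ∧ l ≤ Z := by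
  classical
  refine ⟨64, by norm_num, fun e N Z hZ B hB => ?_⟩
  obtain ⟨u, hu⟩ : ∃ u : ℕ, u = e + N + 1 := ⟨_, rfl⟩
  rw [← hu] at hZ
  have hu1 : 1 ≤ u := by omega
  have hZ0 : Z ≠ 0 := by
    have : 0 < (64 * u) ^ 64 := by positivity
    omega
  obtain ⟨L, hL⟩ : ∃ L : ℕ, L = Nat.log 2 Z := ⟨_, rfl⟩
  have hL1 : 2 ^ L ≤ Z := by rw [hL]; exact Nat.pow_log_le_self 2 hZ0
  have hL2 : Z < 2 ^ (L + 1) := by rw [hL]; exact Nat.lt_pow_succ_log_self (by norm_num) Z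
  obtain ⟨t, ht⟩ : ∃ t : ℕ, t = L / 2 := ⟨_, rfl⟩
  have hLt : L ≤ 2 * t + 1 := by omega
  have htL : 2 * t ≤ L := by omega
  have hut : (64 * u) ^ 32 ≤ 2 ^ (t + 1) := by
    have h1 : ((64 * u) ^ 32) ^ 2 ≤ (2 ^ (t + 1)) ^ 2 := by
      calc ((64 * u) ^ 32) ^ 2 = (64 * u) ^ 64 := by rw [← pow_mul]
        _ ≤ Z := hZ
        _ ≤ 2 ^ (L + 1) := hL2.le
        _ ≤ 2 ^ ((t + 1) * 2) := Nat.pow_le_pow_right (by norm_num) (by omega)
        _ = (2 ^ (t + 1)) ^ 2 := by rw [pow_mul]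
    exact (Nat.pow_le_pow_iff_left (by norm_num)).1 h1
  -- the square root
  obtain ⟨r, hr⟩ : ∃ r : ℕ, r = Nat.sqrt Z := ⟨_, rfl⟩
  have hr1 : r * r ≤ Z := by rw [hr]; exact Nat.sqrt_le Z
  have hr2 : Z < (r + 1) * (r + 1) := by rw [hr]; exact Nat.lt_succ_sqrt Z
  have hr3 : 2 ^ t ≤ r := by
    rw [hr, Nat.le_sqrt, ← pow_add]
    calc 2 ^ (t + t) ≤ 2 ^ L := Nat.pow_le_pow_right (by norm_num) (by omega)
      _ ≤ Z := hL1
  have hB1 : B.card ≤ e * (L + 1) := by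
    have h1 : 2 ^ B.card ≤ 2 ^ ((L + 1) * e) := by
      rw [pow_mul]
      exact hB.trans (Nat.pow_le_pow_left hL2.le e)
    have h2 := (Nat.pow_le_pow_iff_right (by norm_num)).1 h1
    rwa [mul_comm] at h2
  have hbig : 32 * (e * (L + 1) + N + 1025) ≤ r := by
    have h1 := big_aux u (t + 1) hu1 hut
    rw [pow_succ 2 t] at h1
    have h2 : e * (L + 1) ≤ e * (2 * (t + 1)) := Nat.mul_le_mul_left e (by omega)
    have h3 : (e + N + 1) * (t + 1) = e * (t + 1) + (N + 1) * (t + 1) := by ring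
    have h4 : N + 1 ≤ (N + 1) * (t + 1) := Nat.le_mul_of_pos_right _ (by omega)
    have h5 : e * (2 * (t + 1)) = 2 * (e * (t + 1)) := by ring
    have h6 : 1 ≤ u * (t + 1) := Nat.mul_pos hu1 (by omega)
    rw [← hu] at h3
    rw [h5] at h2
    omega
  obtain ⟨s, hs⟩ : ∃ s : ℕ, s = r / 32 := ⟨_, rfl⟩
  have hs1 : 32 * s ≤ r := by omega
  have hs2 : r < 32 * (s + 1) := by omega
  have hs3 : e * (L + 1) + N + 1025 ≤ s := by omega
  obtain ⟨A, hA, hA2⟩ := Pool.Agent.H33.TH2.many s s (by omega)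
  have hcard : N ≤ (A \ B).card := by
    have := Finset.le_card_sdiff B A
    omega
  obtain ⟨LL, hLL, hLL2⟩ := Finset.exists_subset_card_eq hcard
  refine ⟨LL, hLL2, fun l hl => ?_⟩
  have hl' := Finset.mem_sdiff.1 (hLL hl)
  obtain ⟨h1, h2, h3⟩ := hA2 l hl'.1
  refine ⟨h1, hl'.2, ?_, ?_⟩
  · have h4 : r + 1 ≤ 32 * l := by omega
    have h5 : (r + 1) * (r + 1) ≤ (32 * l) * (32 * l) := Nat.mul_le_mul h4 h4
    have h6 : 1024 ≤ l := by omega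
    calc Z ≤ (32 * l) * (32 * l) := (hr2.trans_le h5).le
      _ = 1024 * (l * l) := by ring
      _ ≤ l * (l * l) := Nat.mul_le_mul_right _ h6
      _ = l ^ 3 := by ring
  · calc l ≤ 64 * (s + s) ^ 2 := h3
      _ = 256 * (s * s) := by ring
      _ ≤ (32 * s) * (32 * s) := by nlinarith
      _ ≤ r * r := Nat.mul_le_mul hs1 hs1
      _ ≤ Z := hr1

end Pool.Agent.H36.LV
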