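import Mathlib

/-!
# LOG VERSION, ParL: the parameters of THEOREM TS with `P₀` only a power of `log D`

Model: `Pool/Agent/H11/TS/Par.lean` (proofs can be copied). The primes are now in `(P₀, P₀^3]` (Chebyshev), so `P₁ = P₀^3`; `τ = taL n a = n (38 n^2 + a + 1) + 2`, `QG = P₁^n (P₁ τ)^(4n)`, `MG = QG^(2n) D`.

`par_allL`. PROOF: for `C` large (only depending on `n`) and `P₀ ≥ (C (a + 1))^C`: `(1)` because `τ ≤ (38 n^3 + n + 2) (a + 1)` and the left sides are polynomials in `a + 1` whose coefficients depend only on `n`: each is at most `(C (a + 1))^C - 1` for `C` large (`256 ≤ P₀` too).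
`MG = P₀^(30 n^2) τ^(8 n^2) D ≤ P₀^(38 n^2) D` as `τ ≤ P₀`: (4). `2 τ MG + 1 ≤ (2 τ + 1) MG ≤ P₀ P₀^(38 n^2) P₀^a`, its `n`-th power is `≤ P₀^(n (38 n^2 + a + 1)) = P₀^(τ - 2) ≤ P₀^(τ - 1)`: (2). `n! MG^n ≤ P₀ P₀^(n (38 n^2 + a)) < P₀^τ` (`n! ≤ P₀`): (3).
`par_logL`: copy of `par_log` (`p ≤ P₁`, the hypothesis `h2`).
-/

set_option autoImplicit false

namespace Pool.Agent.H36.LV

/-- the parameter `τ` -/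
def taL (n a : ℕ) : ℕ := n * (38 * n ^ 2 + a + 1) + 2

/-- the ratio of a range -/
def QG (n P₁ τ : ℕ) : ℕ := P₁ ^ n * (P₁ * τ) ^ (4 * n)

/-- the end of the last range -/
def MG (n P₁ τ D : ℕ) : ℕ := QG n P₁ τ ^ (2 * n) * D

theorem par_allL (n : ℕ) : ∃ C : ℕ, 1 ≤ C ∧ ∀ a P₀ D : ℕ, (C * (a + 1)) ^ C ≤ P₀ → 1 ≤ D →
    D ≤ P₀ ^ a →
    (256 ≤ P₀ ∧ 2 * taL n a + 1 ≤ P₀ ∧ n.factorial ≤ P₀ ∧
      (2 * (2 * taL n a) ^ (n + 1)) ^ 4 * (72 * n) ^ n < P₀) ∧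
    (2 * taL n a * MG n (P₀ ^ 3) (taL n a) D + 1) ^ n ≤ P₀ ^ (taL n a - 1) ∧
    n.factorial * MG n (P₀ ^ 3) (taL n a) D ^ n < P₀ ^ taL n a ∧
    MG n (P₀ ^ 3) (taL n a) D ≤ P₀ ^ (38 * n ^ 2) * D := by
  sorry

theorem par_logL (n τ P₀ P₁ M p : ℕ) (θ : ℝ) (hθ : 0 ≤ θ) (hτ : 2 ≤ τ) (hP : 3 ≤ P₀) (hp : P₀ < p)
    (hp' : p ≤ P₁) (h1 : (2 * τ * M + 1) ^ n ≤ P₀ ^ (τ - 1))
    (h2 : ((P₁ * (2 * τ * M) : ℕ) : ℝ) * θ ≤ 1) :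
    2 * (Real.log (((2 * τ * M + 1) ^ n : ℕ) : ℝ) + ((p * (2 * τ * M) : ℕ) : ℝ) * θ) <
      (2 * τ : ℕ) * Real.log p := by
  sorry

end Pool.Agent.H36.LV
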