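import Pool.Agent.H11.TS.Pdt
import Pool.Agent.H11.TS.Pgn
import Pool.Agent.H36.LV.ParL

/-!
# LOG VERSION, Cm1L: the range and the lattice

Copy of `Pool/Agent/H11/TS/Cm1.lean` (`cm1`; the private lemmas `cm1_fam`, `cm1_rank`, `cm1_ext` unchanged) with `pu n a P₀ := P₁`, `ta n a := τ`, `Qr n a P₀ := QG n P₁ τ`, `Mx n a P₀ D := MG n P₁ τ D`; the `2 τ` primes `q i` are now given: the set `A` (use `Finset.equivFin`/`A.orderEmbOfFin` to index `A` by `Fin (2 * τ)`, an injective function with values in `A`).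
-/

set_option autoImplicit false

namespace Pool.Agent.H36.LV

open Pool.Agent.H11.TS

/-- the families of subspaces -/
private theorem cm1_fam {L F : Type} [Field L] [Field F] [Algebra L F] {n : ℕ} (g : Fin n → F)
    (P₀ P₁ τ M : ℕ) (hS : ∀ p, p.Prime → P₀ < p → p ≤ P₁ → PData L g p τ M) :
    ∃ SS : (p : ℕ) → ℕ → Submodule (ZMod p) (Fin n → ZMod p),
      ∀ p, p.Prime → P₀ < p → p ≤ P₁ → Antitone (SS p) ∧ (∀ N, Gr L g N (lt (SS p N))) ∧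
        ∀ N₀ N : ℕ, p ^ n * N₀ ≤ N → (p * τ) ^ 4 * N ≤ M →
          hd L g (bx n ((p * τ) ^ 4 * N)) ≤
            p * (2 * (2 * τ) ^ (n + 1) * Nat.card (SS p N₀)) ^ 4 * hd L g (bx n N) := by
  have h : ∀ p : ℕ, ∃ S : ℕ → Submodule (ZMod p) (Fin n → ZMod p),
      p.Prime → P₀ < p → p ≤ P₁ → Antitone S ∧ (∀ N, Gr L g N (lt (S N))) ∧
        ∀ N₀ N : ℕ, p ^ n * N₀ ≤ N → (p * τ) ^ 4 * N ≤ M →
          hd L g (bx n ((p * τ) ^ 4 * N)) ≤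
            p * (2 * (2 * τ) ^ (n + 1) * Nat.card (S N₀)) ^ 4 * hd L g (bx n N) := by
    intro p
    by_cases hc : p.Prime ∧ P₀ < p ∧ p ≤ P₁
    · obtain ⟨S, h1⟩ := hS p hc.1 hc.2.1 hc.2.2
      exact ⟨S, fun _ _ _ => h1⟩
    · exact ⟨fun _ => ⊥, fun h1 h2 h3 => absurd ⟨h1, h2, h3⟩ hc⟩
  choose SS hSS using h
  exact ⟨SS, hSS⟩

private theorem cm1_rank {p n : ℕ} (hp : p.Prime) (S : ℕ → Submodule (ZMod p) (Fin n → ZMod p))
    (hS : Antitone S) : (Antitone fun N => Module.finrank (ZMod p) (S N)) ∧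
    (∀ N, Module.finrank (ZMod p) (S N) ≤ n) ∧
    ∀ N N', N ≤ N' → Module.finrank (ZMod p) (S N) = Module.finrank (ZMod p) (S N') → S N' = S N := by
  have : Fact p.Prime := ⟨hp⟩
  refine ⟨fun N N' h => Submodule.finrank_mono (hS h), fun N => ?_, fun N N' h he => ?_⟩
  · refine (Submodule.finrank_le (S N)).trans (le_of_eq ?_)
    rw [Module.finrank_fin_fun]
  · exact Submodule.eq_of_le_of_finrank_eq (hS h) he.symm

private theorem cm1_ext {L F : Type} [Field L] [Field F] [Algebra L F] {n : ℕ} (g : Fin n → F)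
    (N N' : ℕ) (h : N ≤ N') (b : (Fin n → ℤ) → L)
    (hb : ∑ e ∈ bx n N, algebraMap L F (b e) * mz g e = 0) (hb0 : ∃ e ∈ bx n N, b e ≠ 0) :
    ∃ b' : (Fin n → ℤ) → L, ∑ e ∈ bx n N', algebraMap L F (b' e) * mz g e = 0 ∧
      ∃ e ∈ bx n N', b' e ≠ 0 := by
  classical
  have hsub : bx n N ⊆ bx n N' := by
    intro e he
    rw [mem_bx] at he ⊢
    intro i
    have h1 := he i
    have h2 : (N : ℤ) ≤ N' := by exact_mod_cast h
    exact ⟨h1.1, h1.2.trans h2⟩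
  refine ⟨fun e => if e ∈ bx n N then b e else 0, ?_, ?_⟩
  · rw [← Finset.sum_subset hsub]
    · rw [← hb]
      refine Finset.sum_congr rfl fun e he => ?_
      beta_reduce
      rw [if_pos he]
    · intro e _ he
      beta_reduce
      rw [if_neg he, map_zero, zero_mul]
  · obtain ⟨e, he, hbe⟩ := hb0
    refine ⟨e, hsub he, ?_⟩
    beta_reduce
    rw [if_pos he]
    exact hbe

theorem cm1L {L F : Type} [Field L] [Field F] [Algebra L F] (n : ℕ) (hn : 1 ≤ n) (g : Fin n → F)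
    (hg : ∀ i, g i ≠ 0) (P₀ P₁ τ D : ℕ) (hP₀ : 3 ≤ P₀) (hP₁ : 1 ≤ P₁) (hτ : 2 ≤ τ) (hD : 1 ≤ D)
    (A : Finset ℕ) (hA : A.card = 2 * τ) (hA2 : ∀ p ∈ A, p.Prime ∧ P₀ < p ∧ p ≤ P₁)
    (b : (Fin n → ℤ) → L)
    (hb : ∑ e ∈ bx n D, algebraMap L F (b e) * mz g e = 0) (hb0 : ∃ e ∈ bx n D, b e ≠ 0)
    (hS : ∀ p, p.Prime → P₀ < p → p ≤ P₁ → PData L g p τ (MG n P₁ τ D)) :
    ∃ (N₀ : ℕ) (Λ : AddSubgroup (Fin n → ℤ)) (G : Finset ℕ)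
      (S : (p : ℕ) → Submodule (ZMod p) (Fin n → ZMod p)),
      1 ≤ N₀ ∧ QG n P₁ τ * N₀ ≤ MG n P₁ τ D ∧ τ ≤ G.card ∧
      (∀ p ∈ G, p.Prime ∧ P₀ < p ∧ p ≤ P₁) ∧ (∀ p ∈ G, Λ ≤ lt (S p)) ∧
      (∀ p ∈ G, ∀ N : ℕ, p ^ n * N₀ ≤ N → (p * τ) ^ 4 * N ≤ MG n P₁ τ D →
        hd L g (bx n ((p * τ) ^ 4 * N)) ≤
          p * (2 * (2 * τ) ^ (n + 1) * Nat.card (S p)) ^ 4 * hd L g (bx n N)) ∧
      Gr L g (QG n P₁ τ * N₀) Λ ∧ ∃ e ∈ lb Λ N₀, e ≠ 0 := by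
  classical
  obtain ⟨q, hqi, hqA⟩ : ∃ q : Fin (2 * τ) → ℕ, Function.Injective q ∧ ∀ i, q i ∈ A :=
    ⟨A.orderEmbOfFin hA, (A.orderEmbOfFin hA).injective, fun i => Finset.orderEmbOfFin_mem A hA i⟩
  obtain ⟨SS, hSS⟩ := cm1_fam g P₀ P₁ τ (MG n P₁ τ D) hS
  have hqb : ∀ i, (q i).Prime ∧ P₀ < q i ∧ q i ≤ P₁ := fun i => hA2 _ (hqA i)
  obtain ⟨Q, hQ⟩ : ∃ Q, Q = QG n P₁ τ := ⟨_, rfl⟩
  have hQ1 : 1 ≤ Q := by
    rw [hQ, QG]
    have h1 : 0 < P₁ := hP₁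
    have h2 : 0 < τ := by omega
    exact Nat.mul_pos (Nat.pow_pos h1) (Nat.pow_pos (Nat.mul_pos h1 h2))
  have hmon : Monotone fun j : ℕ => Q ^ j * D := fun i j h =>
    Nat.mul_le_mul_right D (Nat.pow_le_pow_right hQ1 h)
  have hr : ∀ i : Fin (2 * τ), _ := fun i =>
    cm1_rank (hqb i).1 (SS (q i)) (hSS (q i) (hqb i).1 (hqb i).2.1 (hqb i).2.2).1
  obtain ⟨j, hj, hcard⟩ := pigeon_ranges (2 * τ) n hn
    (fun i j => Module.finrank (ZMod (q i)) (SS (q i) (Q ^ j * D)))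
    (fun i => (hr i).1.comp_monotone hmon) (fun i => (hr i).2.1 _)
  obtain ⟨I, hI⟩ : ∃ I : Finset (Fin (2 * τ)), I = Finset.univ.filter fun i : Fin (2 * τ) =>
      Module.finrank (ZMod (q i)) (SS (q i) (Q ^ j * D)) =
        Module.finrank (ZMod (q i)) (SS (q i) (Q ^ (j + 1) * D)) := ⟨_, rfl⟩
  rw [← hI] at hcard
  obtain ⟨G, hG⟩ : ∃ G : Finset ℕ, G = I.image fun i : Fin (2 * τ) => q i := ⟨_, rfl⟩
  have hGc : τ ≤ G.card := by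
    have h1 : (I.image fun i : Fin (2 * τ) => q i).card = I.card :=
      Finset.card_image_of_injective I hqi
    rw [hG, h1]
    omega
  have hN : Q * (Q ^ j * D) = Q ^ (j + 1) * D := by ring
  have hGp : ∀ p ∈ G, (p.Prime ∧ P₀ < p ∧ p ≤ P₁) ∧ SS p (Q * (Q ^ j * D)) = SS p (Q ^ j * D) := by
    intro p hp
    rw [hG, Finset.mem_image] at hp
    obtain ⟨i, hi, rfl⟩ := hp
    rw [hI, Finset.mem_filter] at hi
    refine ⟨hqb i, ?_⟩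
    rw [hN]
    exact (hr i).2.2 _ _ (hmon (Nat.le_succ j)) hi.2
  have hN1 : 1 ≤ Q ^ j * D := Nat.mul_pos (Nat.pow_pos hQ1) hD
  have hDN : D ≤ Q ^ j * D := Nat.le_mul_of_pos_left D (Nat.pow_pos hQ1)
  have hgr : Gr L g (Q * (Q ^ j * D)) (⨅ p ∈ G, lt (SS p (Q ^ j * D))) := by
    refine gr_finset g _ G (fun p => lt (SS p (Q ^ j * D))) fun p hp => ?_
    obtain ⟨h1, h2⟩ := hGp p hp
    have h3 := (hSS p h1.1 h1.2.1 h1.2.2).2.1 (Q * (Q ^ j * D))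
    rw [h2] at h3
    exact h3
  refine ⟨Q ^ j * D, ⨅ p ∈ G, lt (SS p (Q ^ j * D)), G, fun p => SS p (Q ^ j * D), hN1, ?_, hGc,
    fun p hp => (hGp p hp).1, fun p hp => iInf₂_le p hp, fun p hp N h1 h2 => ?_, ?_, ?_⟩
  · rw [← hQ, hN, MG, ← hQ]
    exact hmon (show j + 1 ≤ 2 * n by omega)
  · obtain ⟨h3, -⟩ := hGp p hp
    exact (hSS p h3.1 h3.2.1 h3.2.2).2.2 _ N h1 h2
  · rw [← hQ]
    exact hgr
  · obtain ⟨b', hb', hb0'⟩ := cm1_ext g D (Q ^ j * D) hDN b hb hb0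
    exact gr_meet g hg (Q ^ j * D) _
      (gr_mono g (Nat.le_mul_of_pos_left _ hQ1) _ hgr) b' hb' hb0'

end Pool.Agent.H36.LV
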