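import Pool.Agent.H36.LV.Cm1L
import Pool.Agent.H36.LV.Cm2L
import Pool.Agent.H11.TS.Cm3
import Pool.Agent.H11.TS.Cm4
import Pool.Agent.H11.TS.Mna
import Pool.Agent.H33.TH2.Chb

/-!
# LOG VERSION, CmbL: the combinatorial core

Copy of `Pool/Agent/H11/TS/Cmb.lean` (`comb_core`) with `τ = taL n a`, `P₁ = P₀^3`, `cm1L`, `cm2L` in the place of `cm1`, `cm2`; `cm3`, `cm4`, `minima` unchanged. `C := C₁ + 3 (4n)^(n^2)` with `C₁` from `par_allL n`; from `(C (a+1))^C ≤ P₀` one gets `(C₁ (a+1))^C₁ ≤ P₀`.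
The primes: `many P₀ (2 * τ)` (`Pool/Agent/H33/TH2/Chb.lean`): `2 τ` primes in `(P₀, 64 (P₀ + 2 τ)^2]`, and `64 (P₀ + 2 τ)^2 ≤ 64 (2 P₀)^2 = 256 P₀^2 ≤ P₀^3` (`2 τ + 1 ≤ P₀`, `256 ≤ P₀`).
The hypothesis `C < p` of `cm3` is `(2 (2τ)^(n+1))^4 (72 n)^n < P₀ < p`, in `par_allL`.
-/

set_option autoImplicit false

namespace Pool.Agent.H36.LV

open Pool.Agent.H11.TS

theorem comb_coreL (n : ℕ) (hn : 1 ≤ n) : ∃ C : ℕ, 1 ≤ C ∧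
    (∀ a P₀ D : ℕ, (C * (a + 1)) ^ C ≤ P₀ → 1 ≤ D → D ≤ P₀ ^ a →
      (256 ≤ P₀ ∧ 2 * taL n a + 1 ≤ P₀) ∧
      (2 * taL n a * MG n (P₀ ^ 3) (taL n a) D + 1) ^ n ≤ P₀ ^ (taL n a - 1) ∧
      MG n (P₀ ^ 3) (taL n a) D ≤ P₀ ^ (38 * n ^ 2) * D) ∧
    ∀ (L F : Type) [Field L] [CharZero L] [Field F] [Algebra L F] (g : Fin n → F)
      (_ : ∀ i, g i ≠ 0) (a P₀ D : ℕ) (_ : (C * (a + 1)) ^ C ≤ P₀) (_ : 1 ≤ D) (_ : D ≤ P₀ ^ a)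
      (b : (Fin n → ℤ) → L) (_ : ∑ e ∈ bx n D, algebraMap L F (b e) * mz g e = 0)
      (_ : ∃ e ∈ bx n D, b e ≠ 0)
      (_ : ∀ p, p.Prime → P₀ < p → p ≤ P₀ ^ 3 →
        PData L g p (taL n a) (MG n (P₀ ^ 3) (taL n a) D)),
      ∃ (k N : ℕ) (e : Fin k → Fin n → ℤ) (μ : Fin k → ℕ) (H : IntermediateField L F),
        1 ≤ k ∧ N ≤ MG n (P₀ ^ 3) (taL n a) D ∧ LinearIndependent ℚ (fun i => rv (e i)) ∧
        (∀ i j, |e i j| ≤ μ i) ∧ (∀ i, 1 ≤ μ i ∧ μ i ≤ N) ∧ (∀ i, mz g (e i) ∈ H) ∧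
        FiniteDimensional L H ∧ Module.finrank L H * ∏ i, μ i ≤ C * N ^ k := by
  obtain ⟨C₁, hC₁, hpar⟩ := par_allL n
  obtain ⟨C₆, hC₆⟩ : ∃ C₆ : ℕ, C₆ = (4 * n) ^ (n ^ 2) := ⟨_, rfl⟩
  have hmonC : ∀ a P₀ : ℕ, ((C₁ + 3 * C₆) * (a + 1)) ^ (C₁ + 3 * C₆) ≤ P₀ → (C₁ * (a + 1)) ^ C₁ ≤ P₀ := by
    intro a P₀ h
    refine le_trans ?_ h
    have h1 : C₁ * (a + 1) ≤ (C₁ + 3 * C₆) * (a + 1) := Nat.mul_le_mul_right _ (by omega)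
    have h2 : 0 < (C₁ + 3 * C₆) * (a + 1) := Nat.mul_pos (by omega) (by omega)
    exact (Nat.pow_le_pow_left h1 _).trans (Nat.pow_le_pow_right h2 (by omega))
  refine ⟨C₁ + 3 * C₆, by omega, ?_, ?_⟩
  · intro a P₀ D hP hD hDa
    obtain ⟨h1, h2, -, h4⟩ := hpar a P₀ D (hmonC a P₀ hP) hD hDa
    exact ⟨⟨h1.1, h1.2.1⟩, h2, h4⟩
  · intro L F _ _ _ _ g hg a P₀ D hP hD hDa b hb hb0 hS
    have hInf : Infinite L := inferInstance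
    obtain ⟨⟨hP256, hτP, -, hCP⟩, -, hnum, -⟩ := hpar a P₀ D (hmonC a P₀ hP) hD hDa
    obtain ⟨τ, hτ⟩ : ∃ τ : ℕ, τ = taL n a := ⟨_, rfl⟩
    obtain ⟨P₁, hP₁⟩ : ∃ P₁ : ℕ, P₁ = P₀ ^ 3 := ⟨_, rfl⟩
    rw [← hτ] at hτP hCP
    rw [← hτ, ← hP₁] at hnum hS ⊢
    have hta : 2 ≤ τ := by
      rw [hτ]
      unfold taL
      exact Nat.le_add_left _ _
    have hP₁1 : 1 ≤ P₁ := by
      rw [hP₁]
      exact Nat.pow_pos (by omega)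
    obtain ⟨A, hA, hA2⟩ := Pool.Agent.H33.TH2.many P₀ (2 * τ) (by omega)
    have hA3 : ∀ p ∈ A, p.Prime ∧ P₀ < p ∧ p ≤ P₁ := by
      intro p hp
      obtain ⟨h1, h2, h3⟩ := hA2 p hp
      refine ⟨h1, h2, h3.trans ?_⟩
      rw [hP₁]
      have h4 : P₀ + 2 * τ ≤ 2 * P₀ := by omega
      have h5 := Nat.pow_le_pow_left h4 2
      have h6 : 256 * P₀ ^ 2 ≤ P₀ * P₀ ^ 2 := Nat.mul_le_mul_right _ hP256
      have h7 : P₀ * P₀ ^ 2 = P₀ ^ 3 := by ring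
      have h8 : (2 * P₀) ^ 2 = 4 * P₀ ^ 2 := by ring
      omega
    obtain ⟨N₀, Λ, G, S, hN₀, hQM, hGc, hG, hΛ, hgr, hGr, hne⟩ :=
      cm1L n hn g hg P₀ P₁ τ D (by omega) hP₁1 hta hD A hA hA3 b hb hb0 hS
    have hnum' : n.factorial * (QG n P₁ τ * N₀) ^ n < P₀ ^ τ :=
      lt_of_le_of_lt (Nat.mul_le_mul_left _ (Nat.pow_le_pow_left hQM n)) hnum
    obtain ⟨p, hpG, N₂, k, h1, h2, h3, h4, h5, h6, h7, h8⟩ :=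
      cm2L n hn P₀ P₁ τ N₀ (by omega) hP₁1 (by omega) hN₀ Λ G S hGc hG hΛ hne hnum'
    have hpM : (p * τ) ^ 4 * N₂ ≤ MG n P₁ τ D := h3.trans hQM
    have hB := hgr p hpG N₂ h1 hpM
    have hB' : hd L g (bx n ((p * τ) ^ 4 * N₂)) ≤
        p * (2 * (2 * τ) ^ (n + 1) * p ^ (n - k)) ^ 4 * hd L g (bx n N₂) :=
      hB.trans (Nat.mul_le_mul_right _ (Nat.mul_le_mul_left _
        (Nat.pow_le_pow_left (Nat.mul_le_mul_left _ h8) 4)))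
    have hGr' : Gr L g ((p * τ) ^ 4 * N₂) Λ := gr_mono g h3 Λ hGr
    have hCp : (2 * (2 * τ) ^ (n + 1)) ^ 4 * (72 * n) ^ n < p := hCP.trans (hG p hpG).2.1
    obtain ⟨N, hN1, hN2, hN3⟩ := cm3 g hg Λ τ p k N₂ hta h5 h2 h7 hGr' hB' hCp
    obtain ⟨H, hH1, hH2, hH3⟩ := cm4 g hg Λ N hN3
    have hN : 1 ≤ N := h2.trans hN1
    obtain ⟨e, μ, he, hμ, hli, hm⟩ := minima Λ N hN
    have hk1 : k ≤ rk Λ N := by
      rw [← h6]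
      exact rk_mono Λ hN1
    refine ⟨rk Λ N, N, e, μ, H, h4.trans hk1, ?_, hli, fun i j => ((mem_lb Λ _ _).1 (he i)).1 j, hμ,
      fun i => hH1 _ ?_, hH2, ?_⟩
    · omega
    · rw [mem_lb]
      refine ⟨fun j => (((mem_lb Λ _ _).1 (he i)).1 j).trans ?_, ((mem_lb Λ _ _).1 (he i)).2⟩
      exact_mod_cast (hμ i).2
    · have e1 : 2 * Module.finrank L H * ∏ i, μ i ≤ 3 * (C₆ * N ^ rk Λ N) := by
        rw [hC₆]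
        calc 2 * Module.finrank L H * ∏ i, μ i ≤ 3 * (lb Λ N).card * ∏ i, μ i :=
              Nat.mul_le_mul_right _ hH3.le
          _ = 3 * ((lb Λ N).card * ∏ i, μ i) := by ring
          _ ≤ 3 * ((4 * n) ^ (n ^ 2) * N ^ rk Λ N) := Nat.mul_le_mul_left _ hm
      have e2 : Module.finrank L H * ∏ i, μ i ≤ 2 * Module.finrank L H * ∏ i, μ i :=
        Nat.mul_le_mul_right _ (by omega)
      have e3 : 3 * (C₆ * N ^ rk Λ N) ≤ (C₁ + 3 * C₆) * N ^ rk Λ N := by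
        rw [← mul_assoc]
        exact Nat.mul_le_mul_right _ (by omega)
      exact e2.trans (e1.trans e3)

end Pool.Agent.H36.LV
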