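import Pool.Agent.H36.LV.Df

/-!
# LOG VERSION, CnvL: from the parameter `Z` to the equal height form

Model: `Pool/Agent/H33/PT/Cnv.lean` (`cnv`, `cnv_pos`). PROOF. `D := degP L γ ≥ 1`, `x := 3 m D ≥ 3`, `e := ⌈log x⌉ ≥ 1`, `Z := (C₀ (e + 1))^C₀ + 3`. `m, D ≤ x ≤ exp e ≤ 3^e ≤ Z^e` (`exp 1 < 3`). The hypothesis: `1 < Z^C₀ (D h^k)`, `h ≥ 0`.
`Z ≤ ((C₀ + 3) (e + 1))^(C₀ + 1)` (base `≥ 6 ≥ 4`), `e + 1 ≤ log x + 2 ≤ 3 log x` (`log x ≥ log 3 ≥ 1`), so `Z^C₀ ≤ (3 (C₀ + 3) log x)^a`, `a = C₀ (C₀ + 1)`.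
For `δ' = k δ > 0`, `y = log x ≥ 0`, `a ≥ 1`: `y ≤ (a / δ') exp (δ' y / a)` (`t ≤ exp t`), so `y^a ≤ (a / δ')^a x^(δ')` (`a = 0` is trivial).
`X := m^δ D^(1/k + δ) h`: `X^k = (m D)^(k δ) D h^k ≥ (m D)^(k δ) Z^(-C₀) ≥ 3^(-k δ) (3 (C₀ + 3))^(-a) (a / (k δ))^(-a) ≥ c δ^a` with `c = 3^(-k) (3 (C₀ + 3) (a + 1))^(-a) ≤ 1` (`δ ≤ 1`, `k ≥ 1`). So `X ≥ c δ^a` (if `X < c δ^a ≤ 1` then `X^k ≤ X`). `pw_ex` (`Df.lean`) gives `C`.
-/

set_option autoImplicit false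
set_option linter.unusedSectionVars false

open NumberField

namespace Pool.Agent.H36.LV

open Pool.Agent.H11.TS

private theorem cnvL_pos {K Ω : Type} [Field K] [Field Ω] [Algebra K Ω] [Algebra.IsAlgebraic K Ω]
    (L : IntermediateField K Ω) {n : ℕ} (γ : Fin n → Ωˣ) : 1 ≤ degP L γ := by
  haveI : FiniteDimensional L (IntermediateField.adjoin L (Set.range fun i => (γ i : Ω))) := by
    refine IntermediateField.finiteDimensional_adjoin fun x _ => ?_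
    exact ((Algebra.IsAlgebraic.isAlgebraic (R := K) x).tower_top L).isIntegral
  exact Module.finrank_pos

/-- the choice of `e` and `Z` -/
private theorem cnvL_choose (C₀ m D : ℕ) (hm : 1 ≤ m) (hD : 1 ≤ D) :
    ∃ e Z : ℕ, (C₀ * (e + 1)) ^ C₀ ≤ Z ∧ m ≤ Z ^ e ∧ D ≤ Z ^ e ∧
      0 ≤ Real.log (3 * m * D) ∧
      (Z : ℝ) ^ C₀ ≤ (3 * (C₀ + 3) * Real.log (3 * m * D)) ^ (C₀ * (C₀ + 1)) := by
  have hm1 : (1 : ℝ) ≤ m := by exact_mod_cast hm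
  have hD1 : (1 : ℝ) ≤ D := by exact_mod_cast hD
  have hmD : (1 : ℝ) ≤ m * D := by nlinarith
  have hx3 : (3 : ℝ) ≤ 3 * m * D := by nlinarith
  have he3 : Real.exp 1 ≤ 3 := (Real.exp_one_lt_d9.trans (by norm_num)).le
  have hy1 : 1 ≤ Real.log (3 * m * D) := by
    rw [Real.le_log_iff_exp_le (by linarith)]
    linarith
  obtain ⟨y, hy⟩ : ∃ y : ℝ, y = Real.log (3 * m * D) := ⟨_, rfl⟩
  rw [← hy] at hy1 ⊢
  obtain ⟨e, he⟩ : ∃ e : ℕ, e = ⌈y⌉₊ := ⟨_, rfl⟩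
  have h1 : y ≤ e := by rw [he]; exact Nat.le_ceil y
  have h2 : (e : ℝ) < y + 1 := by rw [he]; exact Nat.ceil_lt_add_one (by linarith)
  have hx : (3 * m * D : ℝ) ≤ 3 ^ e := by
    calc (3 * m * D : ℝ) = Real.exp y := by rw [hy, Real.exp_log (by linarith)]
      _ ≤ Real.exp (e : ℝ) := Real.exp_le_exp.2 h1
      _ = Real.exp 1 ^ e := by rw [← Real.exp_nat_mul, mul_one]
      _ ≤ 3 ^ e := pow_le_pow_left₀ (Real.exp_pos 1).le he3 e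
  have hmx : m ≤ 3 ^ e := by
    have h3 : (m : ℝ) ≤ ((3 ^ e : ℕ) : ℝ) := by
      push_cast
      nlinarith
    exact_mod_cast h3
  have hDx : D ≤ 3 ^ e := by
    have h3 : (D : ℝ) ≤ ((3 ^ e : ℕ) : ℝ) := by
      push_cast
      nlinarith
    exact_mod_cast h3
  refine ⟨e, (C₀ * (e + 1)) ^ C₀ + 3, Nat.le_add_right _ _, ?_, ?_, by linarith, ?_⟩
  · exact hmx.trans (Nat.pow_le_pow_left (Nat.le_add_left _ _) _)
  · exact hDx.trans (Nat.pow_le_pow_left (Nat.le_add_left _ _) _)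
  · obtain ⟨T, hT⟩ : ∃ T : ℝ, T = (C₀ + 3) * (e + 1) := ⟨_, rfl⟩
    have hC0 : (0 : ℝ) ≤ C₀ := Nat.cast_nonneg _
    have he0 : (1 : ℝ) ≤ e := hy1.trans h1
    have hT6 : 6 ≤ T := by rw [hT]; nlinarith
    have hTy : T ≤ 3 * (C₀ + 3) * y := by
      rw [hT]
      have h3 : (e : ℝ) + 1 ≤ 3 * y := by linarith
      nlinarith
    have hTp : 1 ≤ T ^ C₀ := one_le_pow₀ (by linarith)
    have hZ : (((C₀ * (e + 1)) ^ C₀ + 3 : ℕ) : ℝ) ≤ T ^ (C₀ + 1) := by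
      have h3 : ((C₀ : ℝ) * (e + 1)) ^ C₀ ≤ T ^ C₀ := by
        refine pow_le_pow_left₀ (by positivity) ?_ _
        rw [hT]
        nlinarith
      push_cast
      rw [pow_succ]
      nlinarith
    calc ((((C₀ * (e + 1)) ^ C₀ + 3 : ℕ) : ℝ)) ^ C₀ ≤ (T ^ (C₀ + 1)) ^ C₀ :=
          pow_le_pow_left₀ (Nat.cast_nonneg _) hZ _
      _ = T ^ (C₀ * (C₀ + 1)) := by rw [← pow_mul, mul_comm]
      _ ≤ _ := pow_le_pow_left₀ (by linarith) hTy _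

/-- a power of the logarithm against a small power -/
private theorem cnvL_log (a : ℕ) (x d : ℝ) (hx : 1 ≤ x) (hd : 0 < d) :
    Real.log x ^ a ≤ (((a : ℝ) + 1) / d) ^ a * x ^ d := by
  have hx0 : 0 < x := by linarith
  have hy0 : 0 ≤ Real.log x := Real.log_nonneg hx
  have ha0 : (0 : ℝ) ≤ a := Nat.cast_nonneg _
  have h1 : Real.log x ≤ ((a : ℝ) + 1) / d * Real.exp (d * Real.log x / (a + 1)) := by
    have h2 : d * Real.log x / (a + 1) ≤ Real.exp (d * Real.log x / (a + 1)) := by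
      have := Real.add_one_le_exp (d * Real.log x / (a + 1))
      linarith
    have h3 : Real.log x = ((a : ℝ) + 1) / d * (d * Real.log x / (a + 1)) := by
      field_simp
    calc Real.log x = ((a : ℝ) + 1) / d * (d * Real.log x / (a + 1)) := h3
      _ ≤ _ := mul_le_mul_of_nonneg_left h2 (by positivity)
  calc Real.log x ^ a ≤ (((a : ℝ) + 1) / d * Real.exp (d * Real.log x / (a + 1))) ^ a :=
        pow_le_pow_left₀ hy0 h1 a
    _ = (((a : ℝ) + 1) / d) ^ a * Real.exp (a * (d * Real.log x / (a + 1))) := by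
        rw [mul_pow, ← Real.exp_nat_mul]
    _ ≤ (((a : ℝ) + 1) / d) ^ a * x ^ d := by
        refine mul_le_mul_of_nonneg_left ?_ (by positivity)
        rw [Real.rpow_def_of_pos hx0]
        refine Real.exp_le_exp.2 ?_
        have h4 : (a : ℝ) * (d * Real.log x / (a + 1)) = (a / (a + 1)) * (d * Real.log x) := by ring
        have h5 : (a : ℝ) / (a + 1) ≤ 1 := by
          rw [div_le_one (by linarith)]
          linarith
        rw [h4, mul_comm (Real.log x) d]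
        exact mul_le_of_le_one_left (by positivity) h5

theorem cnvL (k : ℕ) (hk : 1 ≤ k) (C₀ : ℕ) : ∃ C : ℕ, 1 ≤ C ∧
    ∀ (K Ω : Type) [Field K] [NumberField K] [Field Ω] [CharZero Ω] [IsAlgClosed Ω] [Algebra K Ω]
      [IsGalois K Ω] (L : IntermediateField K Ω) (Λ : Subgroup Ωˣ) (m : ℕ) (_ : 1 ≤ m)
      (_ : ∀ e Z : ℕ, (C₀ * (e + 1)) ^ C₀ ≤ Z → m ≤ Z ^ e → ∀ γ : Fin k → Ωˣ, IndM Λ γ →
        degP L γ ≤ Z ^ e → ∀ h : ℝ, (∀ i, absLogHeight₁ (γ i : Ω) ≤ h) →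
        1 < (Z : ℝ) ^ C₀ * ((degP L γ : ℝ) * h ^ k)), PtHE L Λ k m C := by
  classical
  obtain ⟨a, ha⟩ : ∃ a : ℕ, a = C₀ * (C₀ + 1) := ⟨_, rfl⟩
  obtain ⟨B, hB⟩ : ∃ B : ℝ, B = 3 * (C₀ + 3) := ⟨_, rfl⟩
  have hC0 : (0 : ℝ) ≤ C₀ := Nat.cast_nonneg _
  have ha0 : (0 : ℝ) ≤ a := Nat.cast_nonneg _
  have hB1 : 1 ≤ B := by rw [hB]; linarith
  obtain ⟨A, hA⟩ : ∃ A : ℝ, A = 3 ^ k * (B * (a + 1)) ^ a := ⟨_, rfl⟩
  have hA1 : 1 ≤ A := by
    rw [hA]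
    have h1 : (1 : ℝ) ≤ 3 ^ k := one_le_pow₀ (by norm_num)
    have h2 : (1 : ℝ) ≤ (B * (a + 1)) ^ a := one_le_pow₀ (by nlinarith)
    nlinarith
  obtain ⟨C, hC1, hC⟩ := pw_ex A⁻¹ (by positivity) a
  refine ⟨C, hC1, ?_⟩
  intro K Ω _ _ _ _ _ _ _ L Λ m hm hyp δ hδ hδ1 γ hγ h hh
  have halg : Algebra.IsAlgebraic K Ω := inferInstance
  refine (hC δ hδ.le hδ1).trans ?_
  have hD1 := cnvL_pos L γ
  have hh0 : 0 ≤ h := (Pool.Agent.H72.PB.ht_nonneg _).trans (hh ⟨0, hk⟩)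
  obtain ⟨e, Z, hZ, hmZ, hDZ, hy0, hZp⟩ := cnvL_choose C₀ m (degP L γ) hm hD1
  have h1 := hyp e Z hZ hmZ γ hγ hDZ h hh
  generalize degP L γ = D at *
  rw [← ha, ← hB] at hZp
  have hm1' : (1 : ℝ) ≤ m := by exact_mod_cast hm
  have hD1' : (1 : ℝ) ≤ D := by exact_mod_cast hD1
  have hm0 : (0 : ℝ) < m := by linarith
  have hD0 : (0 : ℝ) < D := by linarith
  have hk0 : (0 : ℝ) < k := by exact_mod_cast hk
  have hk1 : (1 : ℝ) ≤ k := by exact_mod_cast hk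
  have hx1 : (1 : ℝ) ≤ 3 * m * D := by nlinarith
  have hlog := cnvL_log a (3 * m * D) (k * δ) hx1 (by positivity)
  obtain ⟨X, hX⟩ : ∃ X : ℝ, X = (m : ℝ) ^ δ * ((D : ℝ) ^ (1 / (k : ℝ) + δ) * h) := ⟨_, rfl⟩
  have hX0 : 0 ≤ X := by rw [hX]; positivity
  have hXk : X ^ k = ((m : ℝ) * D) ^ (k * δ) * ((D : ℝ) * h ^ k) := by
    rw [hX, mul_pow, mul_pow, ← Real.rpow_natCast ((m : ℝ) ^ δ), ← Real.rpow_mul hm0.le,
      ← Real.rpow_natCast ((D : ℝ) ^ (1 / (k : ℝ) + δ)), ← Real.rpow_mul hD0.le]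
    have h4 : (1 / (k : ℝ) + δ) * k = k * δ + 1 := by
      rw [add_mul, one_div_mul_cancel hk0.ne']
      ring
    rw [h4, Real.rpow_add hD0, Real.rpow_one, Real.mul_rpow hm0.le hD0.le, mul_comm δ (k : ℝ)]
    ring
  have h3k : (3 : ℝ) ^ ((k : ℝ) * δ) ≤ 3 ^ k := by
    rw [← Real.rpow_natCast 3 k]
    exact Real.rpow_le_rpow_of_exponent_le (by norm_num) (by nlinarith)
  have h5 : 1 < A * (δ ^ a)⁻¹ * X ^ k := by
    have hDh : 0 ≤ (D : ℝ) * h ^ k := by positivity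
    have e1 : (Z : ℝ) ^ C₀ ≤ A * (δ ^ a)⁻¹ * ((m : ℝ) * D) ^ (k * δ) := by
      calc (Z : ℝ) ^ C₀ ≤ (B * Real.log (3 * m * D)) ^ a := hZp
        _ = B ^ a * Real.log (3 * m * D) ^ a := mul_pow _ _ _
        _ ≤ B ^ a * ((((a : ℝ) + 1) / (k * δ)) ^ a * (3 * m * D) ^ (k * δ)) :=
            mul_le_mul_of_nonneg_left hlog (by positivity)
        _ ≤ B ^ a * ((((a : ℝ) + 1) / δ) ^ a * (3 ^ k * ((m : ℝ) * D) ^ (k * δ))) := by
            refine mul_le_mul_of_nonneg_left ?_ (by positivity)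
            refine mul_le_mul ?_ ?_ (by positivity) (by positivity)
            · refine pow_le_pow_left₀ (by positivity) ?_ _
              refine div_le_div_of_nonneg_left (by linarith) hδ ?_
              nlinarith
            · rw [mul_assoc 3 (m : ℝ) D, Real.mul_rpow (by norm_num) (by positivity)]
              exact mul_le_mul_of_nonneg_right h3k (by positivity)
        _ = A * (δ ^ a)⁻¹ * ((m : ℝ) * D) ^ (k * δ) := by
            rw [hA, div_pow, mul_pow]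
            ring
    calc 1 < (Z : ℝ) ^ C₀ * ((D : ℝ) * h ^ k) := h1
      _ ≤ (A * (δ ^ a)⁻¹ * ((m : ℝ) * D) ^ (k * δ)) * ((D : ℝ) * h ^ k) :=
        mul_le_mul_of_nonneg_right e1 hDh
      _ = _ := by rw [hXk]; ring
  rw [← hX]
  by_contra hcon
  rw [not_le] at hcon
  have hδa : δ ^ a ≤ 1 := pow_le_one₀ hδ.le hδ1
  have hδa0 : 0 < δ ^ a := pow_pos hδ a
  have hA0 : 0 < A := by linarith
  have hc1 : A⁻¹ * δ ^ a ≤ 1 := by
    have := inv_le_one_of_one_le₀ hA1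
    nlinarith [inv_pos.2 hA0]
  have hX1 : X ≤ 1 := hcon.le.trans hc1
  have h6 : X ^ k ≤ X := by
    calc X ^ k ≤ X ^ 1 := pow_le_pow_of_le_one hX0 hX1 hk
      _ = X := pow_one X
  have h7 : A * (δ ^ a)⁻¹ * X ^ k < 1 := by
    have hp : 0 < A * (δ ^ a)⁻¹ := by positivity
    calc A * (δ ^ a)⁻¹ * X ^ k ≤ A * (δ ^ a)⁻¹ * X := mul_le_mul_of_nonneg_left h6 hp.le
      _ < A * (δ ^ a)⁻¹ * (A⁻¹ * δ ^ a) := mul_lt_mul_of_pos_left hcon hp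
      _ = 1 := by field_simp
  linarith

end Pool.Agent.H36.LV
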