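import Pool.Agent.H36.LV.CmbL
import Pool.Agent.H11.TS.Gen
import Pool.Agent.H11.TS.Cst

/-!
# LOG VERSION of THEOREM TS

Copy of `Pool/Agent/H11/TS/Cor.lean` (`thm_ts`; the private lemmas `sum_cf`, `cf_ne` unchanged; case `n = 0` the same), `comb_coreL`, `par_logL` in the place of `comb_core`, `par_log`. The same constant `C` as in `comb_coreL`.
If not `1 < P₀^(38 n^2 + 4) D θ`: `P₁ (2 τ M) θ ≤ P₀^3 P₀ P₀^(38 n^2) D θ ≤ 1` (`2 τ ≤ P₀`).
-/

set_option autoImplicit false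

open NumberField MvPolynomial

namespace Pool.Agent.H36.LV

open Pool.Agent.H11.TH Pool.Agent.H11.TS

/-- the coefficient of `F` at an integer exponent -/
private noncomputable def cf {R : Type} [Field R] {n : ℕ} (F : MvPolynomial (Fin n) R)
    (e : Fin n → ℤ) : R :=
  F.coeff (Finsupp.equivFunOnFinite.symm fun i => (e i).toNat)

private theorem sum_cf {R S : Type} [Field R] [Field S] [Algebra R S] {n D : ℕ}
    (F : MvPolynomial (Fin n) R) (hF : ∀ i, F.degreeOf i ≤ D) (y : Fin n → S) :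
    ∑ e ∈ bx n D, algebraMap R S (cf F e) * mz y e = aeval y F := by
  classical
  rw [Pool.Agent.H33.TR.aeval_box F hF y]
  symm
  refine Finset.sum_bij (fun (m : Pool.Agent.H33.TR.Bx n D) _ => fun l => ((m l : ℕ) : ℤ)) ?_ ?_ ?_ ?_
  · intro m _
    rw [mem_bx]
    intro i
    have := (m i).2
    constructor
    · exact Int.natCast_nonneg _
    · exact_mod_cast Nat.lt_succ_iff.1 this
  · intro m _ m' _ h
    funext l
    apply Fin.ext
    have h1 := congrFun h l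
    exact_mod_cast h1
  · intro e he
    rw [mem_bx] at he
    refine ⟨fun l => ⟨(e l).toNat, ?_⟩, Finset.mem_univ _, ?_⟩
    · have h1 := he l
      omega
    · funext l
      have h1 := he l
      show (((e l).toNat : ℕ) : ℤ) = e l
      omega
  · intro m _
    congr 1
    unfold mz Pool.Agent.H33.TR.mn
    exact Finset.prod_congr rfl fun l _ => (zpow_natCast _ _).symm

private theorem cf_ne {R : Type} [Field R] {n D : ℕ} (F : MvPolynomial (Fin n) R)
    (hF : ∀ i, F.degreeOf i ≤ D) (h0 : F ≠ 0) : ∃ e ∈ bx n D, cf F e ≠ 0 := by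
  obtain ⟨m, hm⟩ := MvPolynomial.ne_zero_iff.1 h0
  refine ⟨fun i => ((m i : ℕ) : ℤ), ?_, ?_⟩
  · rw [mem_bx]
    intro i
    refine ⟨Int.natCast_nonneg _, ?_⟩
    exact_mod_cast (monomial_le_degreeOf i (mem_support_iff.2 hm)).trans (hF i)
  · unfold cf
    have h1 : (Finsupp.equivFunOnFinite.symm fun i => ((((m i : ℕ) : ℤ)).toNat : ℕ)) = m := by
      ext i
      simp
    rw [h1]
    exact hm

theorem thm_tsL (n : ℕ) : ∃ C : ℕ, 1 ≤ C ∧
    ∀ (K Ω : Type) [Field K] [NumberField K] [Field Ω] [CharZero Ω] [IsAlgClosed Ω] [Algebra K Ω]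
      [IsGalois K Ω] (L : IntermediateField K Ω) (X : Set (Tor Ω n)) (_ : (idl X).IsPrime)
      (a P₀ D : ℕ) (_ : (C * (a + 1)) ^ C ≤ P₀) (_ : 1 ≤ D) (_ : D ≤ P₀ ^ a)
      (F : MvPolynomial (Fin n) L)
      (_ : F ≠ 0) (_ : ∀ i, F.degreeOf i ≤ D) (_ : map (algebraMap L Ω) F ∈ idl X) (θ : ℝ)
      (_ : ∀ x ∈ X, ht x ≤ θ),
      1 < (P₀ ^ (38 * n ^ 2 + 4) * D : ℕ) * θ ∨
      ∃ (k N : ℕ) (e : Fin k → Fin n → ℤ) (μ : Fin k → ℕ) (γ : Fin k → Ωˣ),
        1 ≤ k ∧ N ≤ P₀ ^ (38 * n ^ 2) * D ∧ LinearIndependent ℚ (fun i => rv (e i)) ∧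
        (∀ i j, |e i j| ≤ μ i) ∧ (∀ i, 1 ≤ μ i ∧ μ i ≤ N) ∧ (∀ i, ∀ x ∈ X, ch (e i) x = γ i) ∧
        FiniteDimensional L (IntermediateField.adjoin L (Set.range fun i => (γ i : Ω))) ∧
        Module.finrank L (IntermediateField.adjoin L (Set.range fun i => (γ i : Ω))) * ∏ i, μ i ≤
          C * N ^ k := by
  classical
  rcases Nat.eq_zero_or_pos n with hn | hn
  · subst hn
    refine ⟨1, le_rfl, ?_⟩
    intro K Ω _ _ _ _ _ _ _ L X hX a P₀ D _ _ _ F hF _ hv θ _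
    exfalso
    apply hX.ne_top
    rw [Ideal.eq_top_iff_one]
    have h1 : F = C (F.coeff 0) := eq_C_of_isEmpty F
    have h2 : F.coeff 0 ≠ 0 := by
      intro h
      apply hF
      rw [h1, h, C_0]
    rw [h1, map_C] at hv
    have h3 : algebraMap L Ω (F.coeff 0) ≠ 0 := by
      intro h
      exact h2 ((map_eq_zero _).1 h)
    have h4 := (idl X).mul_mem_left (C (algebraMap L Ω (F.coeff 0))⁻¹) hv
    rw [← C_mul, inv_mul_cancel₀ h3, C_1] at h4
    exact h4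
  · obtain ⟨C₂, hC₂, hpar, hcore⟩ := comb_coreL n hn
    refine ⟨C₂, hC₂, ?_⟩
    intro K Ω _ _ _ _ _ _ _ L X hX a P₀ D hP₀ hD hDa F hF hdeg hv θ hθ
    have hta : 2 ≤ taL n a := by
      unfold taL
      omega
    have hX0 : X.Nonempty := by
      by_contra h
      rw [Set.not_nonempty_iff_eq_empty] at h
      apply hX.ne_top
      rw [Ideal.eq_top_iff_one, Pool.Agent.H33.TR.mem_idl, h]
      intro x hx
      exact absurd hx (Set.notMem_empty x)
    have hθ0 : 0 ≤ θ := by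
      obtain ⟨x, hx⟩ := hX0
      refine le_trans ?_ (hθ x hx)
      unfold Pool.Agent.H11.TH.ht
      exact Finset.sum_nonneg fun l _ => Pool.Agent.H72.PB.ht_nonneg _
    obtain ⟨⟨h256, h2τ⟩, h1, h2⟩ := hpar a P₀ D hP₀ hD hDa
    by_cases hcase : 1 < ((P₀ ^ (38 * n ^ 2 + 4) * D : ℕ) : ℝ) * θ
    · exact Or.inl hcase
    right
    have h3 : ((P₀ ^ 3 * (2 * taL n a * MG n (P₀ ^ 3) (taL n a) D) : ℕ) : ℝ) * θ ≤ 1 := by
      refine le_trans (mul_le_mul_of_nonneg_right ?_ hθ0) (not_lt.1 hcase)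
      have h4 : P₀ ^ 3 * (2 * taL n a * MG n (P₀ ^ 3) (taL n a) D) ≤
          P₀ ^ (38 * n ^ 2 + 4) * D := by
        calc P₀ ^ 3 * (2 * taL n a * MG n (P₀ ^ 3) (taL n a) D)
            ≤ P₀ ^ 3 * (P₀ * (P₀ ^ (38 * n ^ 2) * D)) :=
              Nat.mul_le_mul_left _ (Nat.mul_le_mul (by omega) h2)
          _ = P₀ ^ (38 * n ^ 2 + 4) * D := by
              rw [pow_add P₀ (38 * n ^ 2) 4]
              ring
      exact_mod_cast h4
    obtain ⟨F', _, _, g, hg⟩ := exists_mdl X hX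
    have hPD : ∀ p, p.Prime → P₀ < p → p ≤ P₀ ^ 3 →
        PData L g p (taL n a) (MG n (P₀ ^ 3) (taL n a) D) := by
      intro p hp hp1 hp2
      exact prime_data L X g hg θ hθ0 hθ p hp (by omega) (taL n a) (MG n (P₀ ^ 3) (taL n a) D) (by omega)
        (par_logL n (taL n a) P₀ (P₀ ^ 3) (MG n (P₀ ^ 3) (taL n a) D) p θ hθ0 hta (by omega) hp1 hp2 h1 h3)
    have hrel : ∑ e ∈ bx n D, algebraMap L F' (cf F e) * mz g e = 0 := by
      have h5 := (hg.2 (bx n D) (fun e => algebraMap L Ω (cf F e))).2 (fun x hx => by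
        have h6 : ∑ e ∈ bx n D, algebraMap L Ω (cf F e) * ((ch e x : Ωˣ) : Ω) =
            aeval (crd x) F := by
          rw [← sum_cf F hdeg (crd x)]
          exact Finset.sum_congr rfl fun e _ => by rw [mz_ch]
        rw [h6, ← aeval_map_algebraMap Ω (crd x) F]
        exact Pool.Agent.H33.TR.mem_idl.1 hv x hx)
      rw [← h5]
      exact Finset.sum_congr rfl fun e _ => by rw [← IsScalarTower.algebraMap_apply]
    obtain ⟨k, N, e, μ, H, hk, hN, hli, heμ, hμ, heH, hfd, hfin⟩ :=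
      hcore L F' g hg.1 a P₀ D hP₀ hD hDa (cf F) hrel (cf_ne F hdeg hF) hPD
    obtain ⟨γ, hγ, hfd', hle⟩ := const_char L X g hg H e heH
    refine ⟨k, N, e, μ, γ, hk, hN.trans h2, hli, heμ, hμ, hγ, hfd', ?_⟩
    exact (Nat.mul_le_mul_right _ hle).trans hfin

end Pool.Agent.H36.LV
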