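import Pool.Agent.H11.TS.FinB

/-!
# LOG VERSION of the points theorem and of THEOREM TS (MP_187c26_nt): definitions

A bound `c (log (3 x))^(-C) ≤ x y` is the same as bounds `c' ε^C ≤ x^(1+ε) y` for all `ε` in `(0, 1]` (choose `ε = 1 / log (3 x)`). So in the whole chapter
the statements with `ε` are kept and the constants are polynomial in `ε`: `(ε / C)^C`, and the statements with `e`, `Z ≥ K₀(e)` have `K₀ = (C (e + 1))^C`.

* `PtHE L Λ k m C`: the equal height form of the points theorem over `L` in dimension `k`, with a loss `m^δ` (`m` the level; `m = 1` in the basic version).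
* `PtPE L Λ k m C`: the product form.
* `pw_anti`: `(ε / C)^C` is decreasing in `C`. `pw_ex`: every constant `c ε^a` is at least some `(ε / C)^C`.
-/

set_option autoImplicit false
set_option linter.unusedSectionVars false

open NumberField

namespace Pool.Agent.H36.LV

open Pool.Agent.H11.TS

/-- equal height form of the points theorem, constants polynomial in `δ`, loss `m^δ` -/
def PtHE {K Ω : Type} [Field K] [Field Ω] [CharZero Ω] [Algebra K Ω] (L : IntermediateField K Ω)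
    (Λ : Subgroup Ωˣ) (k m C : ℕ) : Prop :=
  ∀ δ : ℝ, 0 < δ → δ ≤ 1 → ∀ γ : Fin k → Ωˣ, IndM Λ γ → ∀ h : ℝ,
    (∀ i, absLogHeight₁ (γ i : Ω) ≤ h) →
    (δ / C) ^ C ≤ (m : ℝ) ^ δ * ((degP L γ : ℝ) ^ (1 / (k : ℝ) + δ) * h)

/-- product form of the points theorem, constants polynomial in `ε`, loss `m^ε` -/
def PtPE {K Ω : Type} [Field K] [Field Ω] [CharZero Ω] [Algebra K Ω] (L : IntermediateField K Ω)
    (Λ : Subgroup Ωˣ) (k m C : ℕ) : Prop :=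
  ∀ ε : ℝ, 0 < ε → ε ≤ 1 → PtB L Λ k (1 + ε) ((ε / C) ^ C / (m : ℝ) ^ ε)

theorem pw_anti {C C' : ℕ} (hC : 1 ≤ C) (h : C ≤ C') {ε : ℝ} (hε : 0 ≤ ε) (hε1 : ε ≤ 1) :
    (ε / C') ^ C' ≤ (ε / C) ^ C := by
  have h1 : (1 : ℝ) ≤ C := by exact_mod_cast hC
  have h2 : (C : ℝ) ≤ C' := by exact_mod_cast h
  have h3 : ε / C' ≤ ε / C := div_le_div_of_nonneg_left hε (by linarith) h2
  have h4 : ε / C ≤ 1 := by
    rw [div_le_one (by linarith)]
    linarith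
  have h5 : 0 ≤ ε / C' := by positivity
  calc (ε / C') ^ C' ≤ (ε / C) ^ C' := pow_le_pow_left₀ h5 h3 _
    _ ≤ (ε / C) ^ C := pow_le_pow_of_le_one (by positivity) h4 h

theorem pw_ex (c : ℝ) (hc : 0 < c) (a : ℕ) : ∃ C : ℕ, 1 ≤ C ∧
    ∀ ε : ℝ, 0 ≤ ε → ε ≤ 1 → (ε / C) ^ C ≤ c * ε ^ a := by
  obtain ⟨N, hN⟩ := exists_nat_ge (1 / c)
  refine ⟨N + a + 1, by omega, fun ε hε hε1 => ?_⟩
  have h1 : (1 : ℝ) ≤ ((N + a + 1 : ℕ) : ℝ) := by exact_mod_cast (by omega : 1 ≤ N + a + 1)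
  have h2 : 1 / c ≤ ((N + a + 1 : ℕ) : ℝ) := by
    push_cast
    have : (0 : ℝ) ≤ a := Nat.cast_nonneg _
    linarith
  have h3 : (((N + a + 1 : ℕ) : ℝ))⁻¹ ≤ c := by
    rw [inv_le_comm₀ (by linarith) hc]
    rwa [one_div] at h2
  have h4 : (((N + a + 1 : ℕ) : ℝ))⁻¹ ^ (N + a + 1) ≤ c := by
    calc (((N + a + 1 : ℕ) : ℝ))⁻¹ ^ (N + a + 1) ≤ (((N + a + 1 : ℕ) : ℝ))⁻¹ ^ 1 :=
          pow_le_pow_of_le_one (by positivity) (inv_le_one_of_one_le₀ h1) (by omega)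
      _ ≤ c := by rwa [pow_one]
  have h5 : ε ^ (N + a + 1) ≤ ε ^ a := pow_le_pow_of_le_one hε hε1 (by omega)
  rw [div_eq_mul_inv, mul_pow]
  calc ε ^ (N + a + 1) * (((N + a + 1 : ℕ) : ℝ))⁻¹ ^ (N + a + 1) ≤ ε ^ a * c :=
        mul_le_mul h5 h4 (by positivity) (by positivity)
    _ = c * ε ^ a := mul_comm _ _

theorem ptHE_mono {K Ω : Type} [Field K] [Field Ω] [CharZero Ω] [Algebra K Ω]
    {L : IntermediateField K Ω} {Λ : Subgroup Ωˣ} {k m C C' : ℕ} (hC : 1 ≤ C) (h : C ≤ C')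
    (h1 : PtHE L Λ k m C) : PtHE L Λ k m C' :=
  fun δ hδ hδ1 γ hγ t ht => (pw_anti hC h hδ.le hδ1).trans (h1 δ hδ hδ1 γ hγ t ht)

theorem ptPE_mono {K Ω : Type} [Field K] [Field Ω] [CharZero Ω] [Algebra K Ω]
    {L : IntermediateField K Ω} {Λ : Subgroup Ωˣ} {k m C C' : ℕ} (hC : 1 ≤ C) (h : C ≤ C')
    (h1 : PtPE L Λ k m C) : PtPE L Λ k m C' := by
  intro ε hε hε1 γ hγ
  refine le_trans ?_ (h1 ε hε hε1 γ hγ)
  refine div_le_div_of_nonneg_right (pw_anti hC h hε.le hε1) ?_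
  exact Real.rpow_nonneg (Nat.cast_nonneg _) _

end Pool.Agent.H36.LV
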