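import Pool.Agent.H33.PT.Dbh
import Pool.Agent.H33.PT.Edx
import Pool.Agent.H36.LV.Df

/-!
# LOG VERSION, EndL: the last step of PART IV with constants polynomial in `ε`

`end_eL`: copy of `end_e` in `Pool/Agent/H33/PT/Ede.lean` (all `μ_i = 1`; `ed_core` of `Edx.lean`, `deg_big'` of `Dbh.lean`, `ee_real` unchanged) with `c₀ := (ε / C₁)^C₁ / 1^ε`, `C₁` from `hQ (r + k)` (`PtPE B ⊥ (r + k) 1 C₁` is `PtB B ⊥ (r + k) (1 + ε) c₀`).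
The constant `c₀ / ([K:ℚ]^(1+ε) C^r 2^k (2C)^(r ε))` is at least `c₀ / ([K:ℚ]^2 C^r 2^k (2C)^r)` (`ε ≤ 1`, `[K:ℚ] ≥ 1`, `2 C ≥ 1`), a constant times `ε^C₁`: `pw_ex` (`Df.lean`).
-/

set_option autoImplicit false
set_option linter.unusedSectionVars false

open NumberField IntermediateField

namespace Pool.Agent.H36.LV

open Pool.Agent.H72.RM Pool.Agent.H11.TS Pool.Agent.H33.PT

/-- the statement of the last step, constants polynomial in `ε` -/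
def EndUL {K : Type} (Ω : Type) [Field K] [NumberField K] [Field Ω] [CharZero Ω] [Algebra K Ω]
    {r : ℕ} (b : Fin r → K) (NN : Set ℕ) (k : ℕ) : Prop :=
  ∃ C : ℕ, 1 ≤ C ∧ ∀ ε : ℝ, 0 < ε → ε ≤ 1 → ∀ n' ∈ NN, ∀ R : ℕ, 1 ≤ R → ∀ w y : Fin k → Ωˣ,
    (∀ i, ((w i / y i : Ωˣ) : Ω) ∈ DivG Ω b) →
    (∀ a : Fin k → ℤ, a ≠ 0 → ((∏ i, w i ^ a i : Ωˣ) : Ω) ∉ DivG Ω b) →
    ∀ θ : ℝ, 0 < θ → θ ≤ 1 → (∀ i, absLogHeight₁ (w i : Ω) ≤ θ) →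
    (ε / C) ^ C ≤
      (R : ℝ) ^ (r * ε) * (degP (RF Ω b n' R) y : ℝ) ^ (1 + ε) * θ ^ ((k : ℝ) - r * ε)

private theorem ee_real {s k : ℕ} {ε C θ c₀ F D m R Q : ℝ} (hε : 0 < ε) (hC : 1 ≤ C)
    (hθ0 : 0 < θ) (hF : 0 < F) (hD : 0 ≤ D) (hm : 0 < m) (hR : 0 < R)
    (hm2 : m ≤ 2 * C * R / θ) (hQ : 0 ≤ Q)
    (h : c₀ ≤ (F * m ^ s * D) ^ (1 + ε) * ((C / m) ^ s * (2 ^ k * Q * θ ^ k))) :
    c₀ / (F ^ (1 + ε) * C ^ s * 2 ^ k * (2 * C) ^ (s * ε)) ≤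
      R ^ (s * ε) * D ^ (1 + ε) * Q * θ ^ ((k : ℝ) - s * ε) := by
  have hC0 : 0 < C := by linarith
  have hF1 : 0 < F ^ (1 + ε) := Real.rpow_pos_of_pos hF _
  have hC1 : 0 < (2 * C) ^ (s * ε) := Real.rpow_pos_of_pos (by linarith) _
  have hD1 : 0 ≤ D ^ (1 + ε) := Real.rpow_nonneg hD _
  have hsε : 0 ≤ s * ε := by positivity
  rw [div_le_iff₀ (by positivity)]
  refine h.trans ?_
  have h1 : (F * m ^ s * D) ^ (1 + ε) = F ^ (1 + ε) * (m ^ s * m ^ (s * ε)) * D ^ (1 + ε) := by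
    rw [Real.mul_rpow (by positivity) hD, Real.mul_rpow hF.le (by positivity)]
    congr 2
    rw [← Real.rpow_natCast, ← Real.rpow_mul hm.le, ← Real.rpow_add hm]
    congr 1
    ring
  have h2 : m ^ s * (C / m) ^ s = C ^ s := by
    rw [← mul_pow, mul_div_cancel₀ _ hm.ne']
  have h3 : m ^ (s * ε) ≤ (2 * C) ^ (s * ε) * R ^ (s * ε) * θ ^ (-(s * ε)) := by
    calc m ^ (s * ε) ≤ (2 * C * R / θ) ^ (s * ε) := Real.rpow_le_rpow hm.le hm2 hsε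
      _ = (2 * C) ^ (s * ε) * R ^ (s * ε) * θ ^ (-(s * ε)) := by
        rw [Real.div_rpow (by positivity) hθ0.le, Real.mul_rpow (by positivity) hR.le,
          Real.rpow_neg hθ0.le]
        rfl
  have h4 : θ ^ ((k : ℝ) - s * ε) = θ ^ k * θ ^ (-(s * ε)) := by
    rw [sub_eq_add_neg, Real.rpow_add hθ0, Real.rpow_natCast]
  rw [h1, h4]
  calc F ^ (1 + ε) * (m ^ s * m ^ (s * ε)) * D ^ (1 + ε) * ((C / m) ^ s * (2 ^ k * Q * θ ^ k))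
      = (F ^ (1 + ε) * D ^ (1 + ε) * (m ^ s * (C / m) ^ s) * (2 ^ k * Q * θ ^ k)) *
        m ^ (s * ε) := by ring
    _ = (F ^ (1 + ε) * D ^ (1 + ε) * C ^ s * (2 ^ k * Q * θ ^ k)) * m ^ (s * ε) := by rw [h2]
    _ ≤ (F ^ (1 + ε) * D ^ (1 + ε) * C ^ s * (2 ^ k * Q * θ ^ k)) *
        ((2 * C) ^ (s * ε) * R ^ (s * ε) * θ ^ (-(s * ε))) :=
        mul_le_mul_of_nonneg_left h3 (by positivity)
    _ = _ := by ring

theorem end_eL {K Ω : Type} [Field K] [NumberField K] [Field Ω] [CharZero Ω] [IsAlgClosed Ω]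
    [Algebra K Ω] [IsGalois K Ω] (B : IntermediateField ℚ Ω)
    (hB : ∀ (x : Ω) (k : ℕ), 1 ≤ k → x ^ k = 1 → x ∈ B)
    (hQ : ∀ j : ℕ, 1 ≤ j → ∃ C : ℕ, 1 ≤ C ∧ PtPE B (⊥ : Subgroup Ωˣ) j 1 C)
    {r : ℕ} (b : Fin r → K) (hb : ∀ i, b i ≠ 0)
    (hind : ∀ N : ℕ, 1 ≤ N → ∀ (m : Fin r → ℤ) (y : K), y ^ N = ∏ i, (b i) ^ (m i) →
      ∀ i, (N : ℤ) ∣ m i) (NN : Set ℕ) (hNN : ∀ n ∈ NN, 1 ≤ n) (k : ℕ) (hk : 1 ≤ k) :
    EndUL Ω b NN k := by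
  obtain ⟨C, hC⟩ : ∃ C : ℝ, C = 1 + ∑ j, absLogHeight₁ (algebraMap K Ω (b j)) := ⟨_, rfl⟩
  have hC1 : 1 ≤ C := by
    rw [hC]
    have := Finset.sum_nonneg fun j (_ : j ∈ (Finset.univ : Finset (Fin r))) =>
      Pool.Agent.H72.PB.ht_nonneg (algebraMap K Ω (b j))
    linarith
  obtain ⟨C₁, hC₁, hPE⟩ := hQ (r + k) (by omega)
  have hC₁0 : (0 : ℝ) < C₁ := by exact_mod_cast hC₁
  obtain ⟨F, hFd⟩ : ∃ F : ℝ, F = (Module.finrank ℚ K : ℝ) := ⟨_, rfl⟩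
  have hF1 : 1 ≤ F := by
    rw [hFd]
    exact_mod_cast Module.finrank_pos (R := ℚ) (M := K)
  have hF : 0 < F := by linarith
  obtain ⟨c, hcd⟩ : ∃ c : ℝ, c = (1 / (C₁ : ℝ)) ^ C₁ / (F ^ 2 * C ^ r * 2 ^ k * (2 * C) ^ r) := ⟨_, rfl⟩
  have hc : 0 < c := by
    rw [hcd]
    positivity
  obtain ⟨C₂, hC₂, hpw⟩ := pw_ex c hc C₁
  refine ⟨C₂, hC₂, fun ε hε hε1 n' hn R hR w y hwy hw θ hθ0 hθ1 hwθ => ?_⟩
  have hn' : 1 ≤ n' := hNN n' hn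
  have hPB : PtB B (⊥ : Subgroup Ωˣ) (r + k) (1 + ε) ((ε / C₁) ^ C₁) := by
    have h1 := hPE ε hε hε1
    rw [Nat.cast_one, Real.one_rpow, div_one] at h1
    exact h1
  have hR0 : (0 : ℝ) < R := by exact_mod_cast hR
  have hR1 : (1 : ℝ) ≤ R := by exact_mod_cast hR
  obtain ⟨z, hz⟩ : ∃ z : ℝ, z = C / (R * θ) := ⟨_, rfl⟩
  have hz0 : 0 < z := by
    rw [hz]
    positivity
  have hzR : z * (R * θ) = C := by
    rw [hz]
    field_simp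
  obtain ⟨m, hm⟩ : ∃ m : ℕ, m = R * ⌈z⌉₊ := ⟨_, rfl⟩
  have hcz : 0 < ⌈z⌉₊ := Nat.ceil_pos.2 hz0
  have hm1 : 1 ≤ m := by
    rw [hm]
    exact Nat.mul_pos hR hcz
  have hmR : (m : ℝ) = R * (⌈z⌉₊ : ℝ) := by
    rw [hm]
    push_cast
    rfl
  have hmθ : C ≤ m * θ := by
    rw [hmR, ← hzR]
    have h1 := Nat.le_ceil z
    have h2 : 0 ≤ (R : ℝ) * θ := by positivity
    nlinarith [mul_le_mul_of_nonneg_right h1 h2]
  have hm2 : (m : ℝ) ≤ 2 * C * R / θ := by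
    have h1 := (Nat.ceil_lt_add_one hz0.le).le
    have h2 : (m : ℝ) ≤ R * (z + 1) := by
      rw [hmR]
      exact mul_le_mul_of_nonneg_left h1 hR0.le
    refine h2.trans ?_
    rw [le_div_iff₀ hθ0]
    have h3 : (R : ℝ) * (z + 1) * θ = C + R * θ := by
      calc (R : ℝ) * (z + 1) * θ = z * (R * θ) + R * θ := by ring
        _ = C + R * θ := by rw [hzR]
    rw [h3]
    have h4 : (R : ℝ) * θ ≤ R * C := mul_le_mul_of_nonneg_left (hθ1.trans hC1) hR0.le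
    have h5 : C * 1 ≤ C * R := mul_le_mul_of_nonneg_left hR1 (by linarith)
    linarith
  obtain ⟨x, hx, γ, hγ, hineq⟩ := ed_core B b hb hind k ε ((ε / C₁) ^ C₁) hPB C hC m hm1
    (RF Ω b n' R) w y hwy hw (fun _ => 1) (fun _ => le_refl 1) θ hθ0 hmθ
    (fun i => by rw [Nat.cast_one, one_mul]; exact hwθ i)
  have hdeg := deg_big' B hB b hb n' R m hn' hR hm1 (by rw [hm]; exact Dvd.intro _ rfl) x hx y γ hγ
  have key := ee_real (s := r) (k := k) (ε := ε) (C := C) (θ := θ) (c₀ := (ε / C₁) ^ C₁) (F := F)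
    (D := (degP (RF Ω b n' R) y : ℝ)) (m := (m : ℝ)) (R := (R : ℝ)) (Q := 1) hε hC1 hθ0 hF
    (Nat.cast_nonneg _) (by exact_mod_cast hm1) hR0 hm2 zero_le_one (hineq.trans ?_)
  · rw [mul_one] at key
    refine le_trans ?_ key
    refine (hpw ε hε.le hε1).trans ?_
    have h1 : c * ε ^ C₁ = (ε / C₁) ^ C₁ / (F ^ 2 * C ^ r * 2 ^ k * (2 * C) ^ r) := by
      rw [hcd, div_mul_eq_mul_div, ← mul_pow, one_div_mul_eq_div]
    rw [h1]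
    refine div_le_div_of_nonneg_left (by positivity) (by positivity) ?_
    have h2 : F ^ (1 + ε) ≤ F ^ 2 := by
      rw [← Real.rpow_natCast F 2]
      refine Real.rpow_le_rpow_of_exponent_le hF1 ?_
      push_cast
      linarith
    have h3 : (2 * C) ^ ((r : ℝ) * ε) ≤ (2 * C) ^ r := by
      rw [← Real.rpow_natCast (2 * C) r]
      refine Real.rpow_le_rpow_of_exponent_le (by linarith) ?_
      have h4 : (0 : ℝ) ≤ r := Nat.cast_nonneg _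
      calc (r : ℝ) * ε ≤ r * 1 := mul_le_mul_of_nonneg_left hε1 h4
        _ = r := mul_one _
    have h4 : 0 ≤ F ^ (1 + ε) := Real.rpow_nonneg hF.le _
    have h5 : 0 ≤ (2 * C) ^ ((r : ℝ) * ε) := Real.rpow_nonneg (by linarith) _
    have h6 : F ^ (1 + ε) * C ^ r * 2 ^ k ≤ F ^ 2 * C ^ r * 2 ^ k := by
      have h7 : (0 : ℝ) ≤ C ^ r := by positivity
      exact mul_le_mul_of_nonneg_right (mul_le_mul_of_nonneg_right h2 h7) (by positivity)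
    exact mul_le_mul h6 h3 h5 (by positivity)
  · have h1 : ∏ _i : Fin k, ((1 : ℕ) : ℝ) = 1 := by
      rw [Nat.cast_one, Finset.prod_const_one]
    rw [h1]
    refine mul_le_mul_of_nonneg_right ?_ ?_
    · refine Real.rpow_le_rpow (Nat.cast_nonneg _) ?_ (by linarith)
      rw [hFd]
      exact_mod_cast hdeg
    · have h1 : 0 ≤ C / m := div_nonneg (by linarith) (Nat.cast_nonneg _)
      positivity

end Pool.Agent.H36.LV
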