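import Pool.Agent.H36.LV.CorL
import Pool.Agent.H33.PT.Gp

/-!
# LOG VERSION, GpL: no relations of small degree

Copy of `Pool/Agent/H33/PT/Gpu.lean` (`gp_u`) with `thm_tsL` in the place of `thm_ts` (`a := e`, `P₀ := Z`), `deg_chars` from `Gp.lean` (public). New exponents: `c₁ = 38 n^3 + 1`, `c₀ = 38 n^3 + 20 n`, `M₁ h ≤ Z^(-(38 n^2 + 10))` because `n (38 n^2 + 10) ≤ c₀ + c₁`.
`C` := `C_ts + n! C_ts + n + 1` (or larger), so `(C (e+1))^C ≤ Z` gives `(C_ts (e+1))^(C_ts) ≤ Z`, `n! C_ts < Z`, `C_ts < Z`, `n ≤ Z`.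
Case 1: `1 < Z^(38n^2+4) M₁ n h ≤ n Z^(-6)`: false. Case 2: `N ≤ Z^(38 n^2) M₁`, `w := N n h ≤ n Z^(-10) ≤ 1`. (2a) `k < n`: `1/Z^3 ≤ J^(1+1/(e+1)) ∏ h(γ'_i) ≤ Z C_ts w^k ≤ Z C_ts w`, so `1 ≤ Z^4 C_ts n Z^(-10) < 1`. (2b) `k = n`: `degP ≤ n! C_ts N^n ≤ n! C_ts Z^(38 n^3) M₁^n`, and `M₁^n Z^(38 n^3 + 1) ≤ degP`, `M₁ ≥ 1`: `Z ≤ n! C_ts`: false.
-/

set_option autoImplicit false
set_option linter.unusedSectionVars false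

open NumberField

namespace Pool.Agent.H36.LV

open Pool.Agent.H11.TS Pool.Agent.H11.TH Pool.Agent.H33.PT

theorem gp_uL (n : ℕ) (hn : 1 ≤ n) : ∃ C : ℕ, 1 ≤ C ∧ ∀ (K Ω : Type)
    [Field K] [NumberField K] [Field Ω] [CharZero Ω] [IsAlgClosed Ω] [Algebra K Ω] [IsGalois K Ω]
    (L : IntermediateField K Ω) (Λ : Subgroup Ωˣ) (e Z : ℕ), (C * (e + 1)) ^ C ≤ Z →
    (∀ j : ℕ, 1 ≤ j → j < n → PtB L Λ j (1 + 1 / ((e : ℝ) + 1)) (1 / (Z : ℝ) ^ 3)) →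
    ∀ γ : Fin n → Ωˣ, IndM Λ γ → degP L γ ≤ Z ^ e → ∀ h : ℝ,
      (∀ i, absLogHeight₁ (γ i : Ω) ≤ h) →
      (Z : ℝ) ^ (38 * n ^ 3 + 20 * n) * ((degP L γ : ℝ) * h ^ n) ≤ 1 → ∀ M₁ : ℕ,
      M₁ ^ n * Z ^ (38 * n ^ 3 + 1) ≤ degP L γ →
      LinearIndependent L fun a : Fin n → Fin (M₁ + 1) =>
        mo (fun i => (γ i : Ω)) (fun i => (a i : ℕ)) := by
  sorry

end Pool.Agent.H36.LV
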