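import Mathlib

/-!
# LOG VERSION, NumTL: numerics of PART IV

`num_logL`. PROOF (model `num_log` in `Pool/Agent/H28/PT4/Num.lean`): `Z ≥ 3`: `log (3 D) ≤ log 3 + e log Z ≤ (e + 1) (log Z + 1).. ≤ 2 (e + 1) log Z`; `(2 A (e + 1))^(2A) ≤ Z` and `(log Z)^(2A) ≤ Z` (for `Z` at least a constant, `Real.isLittleO_pow_log_id_atTop`) for `C` large: the product of the square roots: `(A 2 (e+1) log Z)^(2A) = (2 A (e+1))^(2A) (log Z)^(2A) ≤ Z^2`.
`num_endUL`. PROOF (model `num_endU` in `Pool/Agent/H28/PT4/CoU.lean`, proof there or in its header): `ε = 1/(4 (e+1) (s+1))`: the left side is `≤ Z^(-1)` for every `Z ≥ 1`; and `(ε / C₁)^C₁ = (4 (e+1) (s+1) C₁)^(-C₁) > 1/Z` when `(C (e+1))^C ≤ Z`, `C > 4 (s+1) C₁`.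
For the bound: `(R N₁)^(s ε) ≤ (Z^(e+1))^(s ε) ≤ Z^(1/4)`, `h^(k - s ε) = (h^k)^(1 - sε/k) ≤ (Z^(-(4s+10)) D^(-1))^(1 - sε/k)`, `sε/k ≤ 1/4`, `D^(ε + sε/k) ≤ D^(ε(1+s)) ≤ Z^(e ε (1+s)) ≤ Z^(1/4)`.
-/

set_option autoImplicit false

namespace Pool.Agent.H36.LV

theorem num_logL (A : ℕ) : ∃ C : ℕ, 1 ≤ C ∧ ∀ e Z D : ℕ, (C * (e + 1)) ^ C ≤ Z → 1 ≤ D →
    D ≤ Z ^ e → (A * Real.log (3 * D)) ^ A ≤ Z := by
  have h1 := (Real.isLittleO_pow_log_id_atTop (n := 2 * A)).bound one_pos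
  have h2 := (tendsto_natCast_atTop_atTop (R := ℝ)).eventually h1
  obtain ⟨K, hK⟩ := Filter.eventually_atTop.1 h2
  refine ⟨2 * A + K + 3, by omega, fun e Z D hZ hD hDZ => ?_⟩
  have hb1 : 1 ≤ (2 * A + K + 3) * (e + 1) := Nat.mul_pos (by omega) (by omega)
  have hCZ : 2 * A + K + 3 ≤ Z := by
    calc 2 * A + K + 3 ≤ (2 * A + K + 3) * (e + 1) := Nat.le_mul_of_pos_right _ (by omega)
      _ = ((2 * A + K + 3) * (e + 1)) ^ 1 := (pow_one _).symm
      _ ≤ ((2 * A + K + 3) * (e + 1)) ^ (2 * A + K + 3) := Nat.pow_le_pow_right hb1 (by omega)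
      _ ≤ Z := hZ
  have hZ3 : 3 ≤ Z := by omega
  have h3 := hK Z (by omega)
  have hZ3' : (3 : ℝ) ≤ Z := by exact_mod_cast hZ3
  have hZ0 : (0 : ℝ) < Z := by linarith
  have hL1 : 1 ≤ Real.log Z := by
    rw [Real.le_log_iff_exp_le hZ0]
    have := Real.exp_one_lt_d9
    linarith
  have hL0 : 0 ≤ Real.log Z := by linarith
  rw [Real.norm_of_nonneg (pow_nonneg hL0 _), id, Real.norm_of_nonneg hZ0.le, one_mul] at h3
  have hD1 : (1 : ℝ) ≤ D := by exact_mod_cast hD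
  have h4 : Real.log (3 * D) ≤ (e + 1) * Real.log Z := by
    rw [Real.log_mul (by norm_num) (by linarith)]
    have h5 : Real.log 3 ≤ Real.log Z := Real.log_le_log (by norm_num) hZ3'
    have h6 : Real.log D ≤ e * Real.log Z := by
      rw [← Real.log_pow]
      exact Real.log_le_log (by linarith) (by exact_mod_cast hDZ)
    linarith
  have h40 : 0 ≤ Real.log (3 * D) := Real.log_nonneg (by linarith)
  have h7 : (((A : ℝ) * (e + 1)) ^ A) ^ 2 ≤ Z := by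
    have h8 : (A * (e + 1)) ^ (2 * A) ≤ Z := by
      calc (A * (e + 1)) ^ (2 * A) ≤ ((2 * A + K + 3) * (e + 1)) ^ (2 * A) :=
            Nat.pow_le_pow_left (Nat.mul_le_mul_right _ (by omega)) _
        _ ≤ ((2 * A + K + 3) * (e + 1)) ^ (2 * A + K + 3) := Nat.pow_le_pow_right hb1 (by omega)
        _ ≤ Z := hZ
    rw [← pow_mul, mul_comm A 2]
    exact_mod_cast h8
  have h9 : (Real.log Z ^ A) ^ 2 ≤ Z := by
    rw [← pow_mul, mul_comm A 2]
    exact h3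
  calc (A * Real.log (3 * D)) ^ A ≤ (A * ((e + 1) * Real.log Z)) ^ A :=
        pow_le_pow_left₀ (by positivity) (mul_le_mul_of_nonneg_left h4 (by positivity)) A
    _ = ((A : ℝ) * (e + 1)) ^ A * Real.log Z ^ A := by rw [← mul_assoc, mul_pow]
    _ ≤ Z := by nlinarith [sq_nonneg (((A : ℝ) * (e + 1)) ^ A - Real.log Z ^ A)]

theorem num_endUL (k s C₁ : ℕ) (hk : 1 ≤ k) (hC₁ : 1 ≤ C₁) : ∃ C : ℕ, 1 ≤ C ∧
    ∀ e Z : ℕ, (C * (e + 1)) ^ C ≤ Z → ∀ ε : ℝ, ε = 1 / (4 * (e + 1) * (s + 1)) →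
    ∀ D D' R N₁ : ℕ, 1 ≤ D → D ≤ Z ^ e → D' ≤ D → R ≤ Z → N₁ ≤ Z ^ e → ∀ h : ℝ, 0 < h →
    (Z : ℝ) ^ (4 * s + 10) * ((D : ℝ) * h ^ k) ≤ 1 →
    ((R * N₁ : ℕ) : ℝ) ^ (s * ε) * (D' : ℝ) ^ (1 + ε) * h ^ ((k : ℝ) - s * ε) <
      (ε / C₁) ^ C₁ := by
  refine ⟨4 * (s + 1) * C₁ + 1, by omega, fun e Z hZC ε hε D D' R N₁ hD hDZ hD' hR hN₁ h hh h1 => ?_⟩
  have hb1 : 1 ≤ (4 * (s + 1) * C₁ + 1) * (e + 1) := Nat.mul_pos (by omega) (by omega)
  have he0 : (0 : ℝ) ≤ e := Nat.cast_nonneg e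
  have hs0 : (0 : ℝ) ≤ s := Nat.cast_nonneg s
  have hk1 : (1 : ℝ) ≤ k := by exact_mod_cast hk
  have hk0 : (0 : ℝ) < k := by linarith
  have hε0 : 0 < ε := by
    rw [hε]
    positivity
  have hεm : ε * (4 * (e + 1) * (s + 1)) = 1 := by
    rw [hε, one_div, inv_mul_cancel₀ (by positivity)]
  have hεs : ε * ((e + 1) * (s + 1)) = 1 / 4 := by linarith
  have hε1 : ε * (s + 1) ≤ 1 / 4 := by
    rw [← hεs]
    exact mul_le_mul_of_nonneg_left (le_mul_of_one_le_left (by positivity) (by linarith)) hε0.le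
  have hεp : 0 ≤ ε * (s + 1) := by positivity
  have hsε0 : 0 ≤ s * ε := by positivity
  have hsε : s * ε ≤ 1 / 4 := by linarith
  have hεe : e * (ε * (s + 1)) ≤ 1 / 4 := by
    have : ε * ((e + 1) * (s + 1)) = e * (ε * (s + 1)) + ε * (s + 1) := by ring
    linarith
  have hse : (e + 1) * (s * ε) ≤ 1 / 4 := by
    have h1 : ε * ((e + 1) * (s + 1)) = (e + 1) * (s * ε) + (e + 1) * ε := by ring
    have h2 : 0 ≤ (e + 1) * ε := by positivity
    linarith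
  obtain ⟨θ, hθ⟩ : ∃ θ : ℝ, θ = s * ε / k := ⟨_, rfl⟩
  have hθ0 : 0 ≤ θ := by
    rw [hθ]
    positivity
  have hθk : (k : ℝ) - s * ε = k * (1 - θ) := by
    rw [hθ]
    field_simp
  have hθ1 : θ ≤ s * ε := by
    rw [hθ, div_le_iff₀ hk0]
    exact le_mul_of_one_le_right hsε0 hk1
  have hZn : 1 ≤ Z := le_trans (Nat.one_le_pow _ _ hb1) hZC
  have hZ1 : (1 : ℝ) ≤ Z := by exact_mod_cast hZn
  have hZ0 : (0 : ℝ) < Z := by linarith
  have hD1 : (1 : ℝ) ≤ D := by exact_mod_cast hD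
  have hD0 : (0 : ℝ) < D := by linarith
  have hL0 : 0 ≤ Real.log Z := Real.log_nonneg hZ1
  have hδ0 : 0 ≤ Real.log D := Real.log_nonneg hD1
  have hδ : Real.log D ≤ e * Real.log Z := by
    rw [← Real.log_pow]
    exact Real.log_le_log hD0 (by exact_mod_cast hDZ)
  have hlam : (4 * s + 10) * Real.log Z + (Real.log D + k * Real.log h) ≤ 0 := by
    have h2 : Real.log ((Z : ℝ) ^ (4 * s + 10) * ((D : ℝ) * h ^ k)) ≤ 0 :=
      Real.log_nonpos (by positivity) h1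
    rw [Real.log_mul (by positivity) (by positivity), Real.log_mul (by positivity) (by positivity),
      Real.log_pow, Real.log_pow] at h2
    push_cast at h2
    exact h2
  have hRN : ((R * N₁ : ℕ) : ℝ) ≤ (Z : ℝ) ^ (e + 1) := by
    have h2 : R * N₁ ≤ Z ^ (e + 1) := by
      rw [pow_succ, mul_comm (Z ^ e)]
      exact Nat.mul_le_mul hR hN₁
    exact_mod_cast h2
  have hy0 : (0 : ℝ) < (Z : ℝ) ^ (e + 1) := by positivity
  have hyl : Real.log ((Z : ℝ) ^ (e + 1)) = (e + 1) * Real.log Z := by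
    rw [Real.log_pow]
    push_cast
    ring
  have hmain : Real.log ((Z : ℝ) ^ (e + 1)) * (s * ε) + Real.log D * (1 + ε) +
      Real.log h * ((k : ℝ) - s * ε) ≤ -Real.log Z := by
    rw [hyl, hθk]
    have h2 : (1 - θ) * ((4 * s + 10) * Real.log Z + (Real.log D + k * Real.log h)) ≤ 0 :=
      mul_nonpos_of_nonneg_of_nonpos (by linarith) hlam
    have h3 : Real.log D * (ε + θ) ≤ Real.log Z * (1 / 4) := by
      calc Real.log D * (ε + θ) ≤ Real.log D * (ε * (s + 1)) :=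
            mul_le_mul_of_nonneg_left (by linarith) hδ0
        _ ≤ (e * Real.log Z) * (ε * (s + 1)) := mul_le_mul_of_nonneg_right hδ (by positivity)
        _ = Real.log Z * (e * (ε * (s + 1))) := by ring
        _ ≤ Real.log Z * (1 / 4) := mul_le_mul_of_nonneg_left hεe hL0
    have h3' : (e + 1) * Real.log Z * (s * ε) ≤ Real.log Z * (1 / 4) := by
      have h5 := mul_le_mul_of_nonneg_left hse hL0
      linarith
    have h4 : 1 / 4 + 1 / 4 - (4 * (s : ℝ) + 10) * (1 - θ) ≤ -1 := by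
      have h6 : (4 * (s : ℝ) + 10) * (3 / 4) ≤ (4 * s + 10) * (1 - θ) :=
        mul_le_mul_of_nonneg_left (by linarith) (by positivity)
      linarith
    have h7 := mul_le_mul_of_nonneg_left h4 hL0
    linarith
  have hD'0 : (0 : ℝ) ≤ D' := Nat.cast_nonneg _
  calc ((R * N₁ : ℕ) : ℝ) ^ (s * ε) * (D' : ℝ) ^ (1 + ε) * h ^ ((k : ℝ) - s * ε)
      ≤ ((Z : ℝ) ^ (e + 1)) ^ (s * ε) * (D : ℝ) ^ (1 + ε) * h ^ ((k : ℝ) - s * ε) := by
        refine mul_le_mul_of_nonneg_right ?_ (Real.rpow_nonneg hh.le _)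
        refine mul_le_mul (Real.rpow_le_rpow (Nat.cast_nonneg _) hRN hsε0)
          (Real.rpow_le_rpow hD'0 (by exact_mod_cast hD') (by linarith))
          (Real.rpow_nonneg hD'0 _) (Real.rpow_nonneg hy0.le _)
    _ = Real.exp (Real.log ((Z : ℝ) ^ (e + 1)) * (s * ε) + Real.log D * (1 + ε) +
          Real.log h * ((k : ℝ) - s * ε)) := by
        rw [Real.rpow_def_of_pos hy0, Real.rpow_def_of_pos hh, Real.rpow_def_of_pos hD0,
          Real.exp_add, Real.exp_add]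
    _ ≤ Real.exp (-Real.log Z) := Real.exp_le_exp.2 hmain
    _ = 1 / Z := by
        rw [Real.exp_neg, Real.exp_log hZ0, one_div]
    _ < (ε / C₁) ^ C₁ := by
        have hZb : (4 * (e + 1) * (s + 1) * C₁) ^ C₁ < Z := by
          calc (4 * (e + 1) * (s + 1) * C₁) ^ C₁ < ((4 * (s + 1) * C₁ + 1) * (e + 1)) ^ C₁ := by
                refine Nat.pow_lt_pow_left ?_ (by omega)
                have h2 : (4 * (s + 1) * C₁ + 1) * (e + 1) = 4 * (e + 1) * (s + 1) * C₁ + (e + 1) := by ring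
                omega
            _ ≤ ((4 * (s + 1) * C₁ + 1) * (e + 1)) ^ (4 * (s + 1) * C₁ + 1) := by
                refine Nat.pow_le_pow_right hb1 ?_
                have h2 : C₁ ≤ 4 * (s + 1) * C₁ := Nat.le_mul_of_pos_left _ (by omega)
                omega
            _ ≤ Z := hZC
        have hZb' : (4 * ((e : ℝ) + 1) * (s + 1) * C₁) ^ C₁ < Z := by exact_mod_cast hZb
        have hC0 : (0 : ℝ) < C₁ := by exact_mod_cast hC₁
        have h2 : (ε / C₁) ^ C₁ = 1 / (4 * ((e : ℝ) + 1) * (s + 1) * C₁) ^ C₁ := by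
          rw [hε, div_div, one_div_pow]
        rw [h2]
        exact one_div_lt_one_div_of_lt (by positivity) hZb'

end Pool.Agent.H36.LV
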