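import Pool.Agent.H28.PT4.Prep
import Pool.Agent.H28.PT4.CoU
import Pool.Agent.H28.PT4.Num
import Pool.Agent.H28.PT4.Deg
import Pool.Agent.H36.LV.GpL
import Pool.Agent.H36.LV.EndL
import Pool.Agent.H36.LV.NumTL

/-!
# LOG VERSION, CorUL: the inequality for one tuple

Copy of the proof of `core` (`Pool/Agent/H28/PT4/Core.lean`, proved) resp. of `coreU` (`CorU.lean`) with: `c₁ := 38 k^3 + 1` in the place of `10 k^3 + 1`, `C' := k (2 c₁ + 3) + 4 r + 10 + 38 k^3 + 20 k`, `gp_uL k` at `e' = e + 1`, `num_logL A`, `num_endUL k r C₁`, `EndUL` (constant `C₁`) at `ε = 1 / (4 (e' + 1) (r + 1))`, `fodU`, `TowU`, level `N * N₁` in the place of `N` (`R * N₁` at the end), `N₁ ≤ Z^e ≤ Z^(e')`.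
`C` larger than all the constants, such that `(C (e + 1))^C ≤ Z` implies `(C_x (e + 2))^(C_x) ≤ Z` for all of them, `C₁' k^k + 1 ≤ Z` (`C₁' = 2^(k^2) (P+1)^k`), `((e + 2) C₀)^C₀ ≤ Z`.
The hypothesis of `gp_uL` for `j < k`: `PtPE 𝓛 Λ j N₁ C₀` at `ε = 1/(e' + 1) = 1/(e + 2)`: `((1/(e+2))/C₀)^C₀ / N₁^(1/(e+2)) ≥ 1/Z^2 ≥ 1/Z^3` (`N₁^(1/(e+2)) ≤ Z^(e/(e+2)) ≤ Z`); `PtB` is monotone in its constant.
The roots of unity of `S`-order are in `𝓛`: `hcov.le 1`: `RF Ω b 1 (N * N₁)` contains the `N`-th roots of unity (`x^(N N₁) = 1`).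
-/

set_option autoImplicit false
set_option linter.unusedSectionVars false

open NumberField IntermediateField

namespace Pool.Agent.H36.LV

open Pool.Agent.H33.TR Pool.Agent.H72.PB Pool.Agent.H72.RM Pool.Agent.H72.RG Pool.Agent.H11.TS
  Pool.Agent.H28.PT4

private theorem absorb (c C e : ℕ) (hC : 1 ≤ C) (h : 2 * c ≤ C) :
    (c * (e + 1 + 1)) ^ c ≤ (C * (e + 1)) ^ C := by
  have h1 : c * (e + 1 + 1) ≤ C * (e + 1) := by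
    calc c * (e + 1 + 1) ≤ c * (2 * (e + 1)) := Nat.mul_le_mul_left c (by omega)
      _ = 2 * c * (e + 1) := by ring
      _ ≤ C * (e + 1) := Nat.mul_le_mul_right _ h
  calc (c * (e + 1 + 1)) ^ c ≤ (C * (e + 1)) ^ c := Nat.pow_le_pow_left h1 c
    _ ≤ (C * (e + 1)) ^ C :=
      Nat.pow_le_pow_right (Nat.mul_pos hC (Nat.succ_pos e)) (by omega)

private theorem low_real (e Z N₁ C₀ : ℕ) (hZ : 1 ≤ Z) (hN₁ : 1 ≤ N₁) (hC₀ : 1 ≤ C₀)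
    (hN : N₁ ≤ Z ^ e) (hA : (C₀ * (e + 1 + 1)) ^ C₀ ≤ Z) :
    1 / (Z : ℝ) ^ 3 ≤ (1 / (((e + 1 : ℕ) : ℝ) + 1) / C₀) ^ C₀ /
      (N₁ : ℝ) ^ (1 / (((e + 1 : ℕ) : ℝ) + 1)) := by
  have hZ1 : (1 : ℝ) ≤ Z := by exact_mod_cast hZ
  have hZ0 : (0 : ℝ) < Z := by linarith
  have hN1 : (1 : ℝ) ≤ N₁ := by exact_mod_cast hN₁
  have hN0 : (0 : ℝ) < N₁ := by linarith
  have hd0 : (0 : ℝ) < ((e + 1 : ℕ) : ℝ) + 1 := by positivity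
  have hC0 : (0 : ℝ) < C₀ := by exact_mod_cast hC₀
  have h1 : (N₁ : ℝ) ^ (1 / (((e + 1 : ℕ) : ℝ) + 1)) ≤ Z := by
    have h2 : (N₁ : ℝ) ≤ (Z : ℝ) ^ (e : ℝ) := by
      rw [Real.rpow_natCast]
      exact_mod_cast hN
    calc (N₁ : ℝ) ^ (1 / (((e + 1 : ℕ) : ℝ) + 1))
        ≤ ((Z : ℝ) ^ (e : ℝ)) ^ (1 / (((e + 1 : ℕ) : ℝ) + 1)) :=
          Real.rpow_le_rpow hN0.le h2 (by positivity)
      _ = (Z : ℝ) ^ ((e : ℝ) * (1 / (((e + 1 : ℕ) : ℝ) + 1))) := by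
          rw [← Real.rpow_mul hZ0.le]
      _ ≤ (Z : ℝ) ^ (1 : ℝ) := by
          refine Real.rpow_le_rpow_of_exponent_le hZ1 ?_
          rw [mul_one_div, div_le_one hd0]
          push_cast
          linarith
      _ = Z := Real.rpow_one _
  have h2 : ((1 / (((e + 1 : ℕ) : ℝ) + 1) / C₀) ^ C₀ : ℝ)
      = (((C₀ * (e + 1 + 1)) ^ C₀ : ℕ) : ℝ)⁻¹ := by
    push_cast
    rw [div_div, one_div, inv_pow, mul_comm]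
  have h3 : (((C₀ * (e + 1 + 1)) ^ C₀ : ℕ) : ℝ) ≤ Z := by exact_mod_cast hA
  have h4 : (0 : ℝ) < (((C₀ * (e + 1 + 1)) ^ C₀ : ℕ) : ℝ) := by
    have : 0 < (C₀ * (e + 1 + 1)) ^ C₀ := pow_pos (Nat.mul_pos hC₀ (Nat.succ_pos _)) _
    exact_mod_cast this
  have h5 : (0 : ℝ) < (N₁ : ℝ) ^ (1 / (((e + 1 : ℕ) : ℝ) + 1)) := Real.rpow_pos_of_pos hN0 _
  rw [h2, inv_eq_one_div, div_div]
  refine one_div_le_one_div_of_le (mul_pos h4 h5) ?_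
  calc (((C₀ * (e + 1 + 1)) ^ C₀ : ℕ) : ℝ) * (N₁ : ℝ) ^ (1 / (((e + 1 : ℕ) : ℝ) + 1))
      ≤ Z * Z := mul_le_mul h3 h1 h5.le hZ0.le
    _ = (Z : ℝ) ^ 2 := by ring
    _ ≤ (Z : ℝ) ^ 3 := pow_le_pow_right₀ hZ1 (by norm_num)

theorem coreUL {K Ω : Type} [Field K] [NumberField K] [Field Ω] [CharZero Ω] [IsAlgClosed Ω]
    [Algebra K Ω] [IsGalois K Ω] {r : ℕ} (k : ℕ) (hk : 1 ≤ k) (S : Finset ℕ)
    (hS : ∀ p ∈ S, p.Prime) (b : Fin r → K) (NN : Set ℕ) (hTow : TowU Ω S b k)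
    (hEnd : EndUL Ω b NN k) (Λ : Subgroup Ωˣ)
    (hΛ : ∀ x : Ωˣ, (x : Ω) ∈ DivG Ω b ↔ ∃ m : ℕ, 1 ≤ m ∧ x ^ m ∈ Λ) (C₀ : ℕ) (hC₀ : 1 ≤ C₀) :
    ∃ C : ℕ, 1 ≤ C ∧ ∀ e Z : ℕ, (C * (e + 1)) ^ C ≤ Z → ∀ N₁ : ℕ, 1 ≤ N₁ →
      (∀ q ∈ S, ¬ q ∣ N₁) → N₁ ≤ Z ^ e → ∀ 𝓛 : IntermediateField K Ω, CovU S b NN N₁ 𝓛 →
      (∀ j : ℕ, 1 ≤ j → j < k → PtPE 𝓛 Λ j N₁ C₀) →
      ∀ γ : Fin k → Ωˣ, IndM Λ γ → degP 𝓛 γ ≤ Z ^ e → ∀ h : ℝ,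
      (∀ i, absLogHeight₁ (γ i : Ω) ≤ h) → 1 < (Z : ℝ) ^ C * ((degP 𝓛 γ : ℝ) * h ^ k) := by
  classical
  obtain ⟨A, hA1, hT⟩ := hTow
  obtain ⟨C₂, hC₂1, hE⟩ := hEnd
  obtain ⟨C', hC'⟩ : ∃ C' : ℕ,
      C' = k * (2 * (38 * k ^ 3 + 1) + 3) + (4 * r + 10) + (38 * k ^ 3 + 20 * k) := ⟨_, rfl⟩
  have hC'a : 38 * k ^ 3 + 20 * k ≤ C' := by
    rw [hC']
    exact Nat.le_add_left _ _
  have hC'b : k * (2 * (38 * k ^ 3 + 1) + 3) ≤ C' := by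
    rw [hC', add_assoc]
    exact Nat.le_add_right _ _
  have hC'c : 4 * r + 10 ≤ C' := by
    rw [hC']
    exact (Nat.le_add_left _ _).trans (Nat.le_add_right _ _)
  obtain ⟨C₁, hC₁⟩ : ∃ C₁ : ℕ, C₁ = 2 ^ (k ^ 2) * ((∏ p ∈ S, p) + 1) ^ k := ⟨_, rfl⟩
  obtain ⟨K₁, -, hK₁⟩ := gp_uL k hk
  obtain ⟨K₂, -, hK₂⟩ := num_logL A
  obtain ⟨K₃, -, hK₃⟩ := num_endUL k r C₂ hk hC₂1
  obtain ⟨C, hC⟩ : ∃ C : ℕ,
      C = (C' + 1) + (2 + C₁ * k ^ k) + 2 * K₁ + 2 * K₂ + 2 * K₃ + 2 * C₀ := ⟨_, rfl⟩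
  refine ⟨C, by omega, ?_⟩
  intro e Z hCZ N₁ hN₁ hN₁S hN₁Z 𝓛 hcov hlow γ hγ hdeg h hh
  have hC1 : 1 ≤ C := by omega
  have hZ : C ≤ Z := by
    refine le_trans ?_ hCZ
    calc C ≤ C * (e + 1) := Nat.le_mul_of_pos_right _ (Nat.succ_pos e)
      _ = (C * (e + 1)) ^ 1 := (pow_one _).symm
      _ ≤ (C * (e + 1)) ^ C :=
        Nat.pow_le_pow_right (Nat.mul_pos hC1 (Nat.succ_pos e)) hC1
  have hA₁ : (K₁ * (e + 1 + 1)) ^ K₁ ≤ Z := (absorb K₁ C e hC1 (by omega)).trans hCZ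
  have hA₂ : (K₂ * (e + 1 + 1)) ^ K₂ ≤ Z := (absorb K₂ C e hC1 (by omega)).trans hCZ
  have hA₃ : (K₃ * (e + 1 + 1)) ^ K₃ ≤ Z := (absorb K₃ C e hC1 (by omega)).trans hCZ
  have hA₀ : (C₀ * (e + 1 + 1)) ^ C₀ ≤ Z := (absorb C₀ C e hC1 (by omega)).trans hCZ
  obtain ⟨ε, hε⟩ : ∃ ε : ℝ, ε = 1 / (4 * (((e + 1 : ℕ) : ℝ) + 1) * ((r : ℝ) + 1)) := ⟨_, rfl⟩
  have hε0 : 0 < ε := by
    rw [hε]
    positivity
  have hε1 : ε ≤ 1 := by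
    rw [hε, div_le_one (by positivity)]
    have h1 : (0 : ℝ) ≤ ((e + 1 : ℕ) : ℝ) := Nat.cast_nonneg _
    have h2 : (0 : ℝ) ≤ (r : ℝ) := Nat.cast_nonneg _
    nlinarith [mul_nonneg h1 h2]
  have hZ1' : 1 ≤ Z := by omega
  have hlow' : ∀ j : ℕ, 1 ≤ j → j < k →
      PtB 𝓛 Λ j (1 + 1 / (((e + 1 : ℕ) : ℝ) + 1)) (1 / (Z : ℝ) ^ 3) := by
    intro j hj hjk β hβ
    have hd0 : (0 : ℝ) < ((e + 1 : ℕ) : ℝ) + 1 := by positivity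
    have hd1 : 1 / (((e + 1 : ℕ) : ℝ) + 1) ≤ 1 := by
      rw [div_le_one hd0]
      have h1 : (0 : ℝ) ≤ ((e + 1 : ℕ) : ℝ) := Nat.cast_nonneg _
      linarith
    refine le_trans ?_ (hlow j hj hjk (1 / (((e + 1 : ℕ) : ℝ) + 1)) (by positivity) hd1 β hβ)
    exact low_real e Z N₁ C₀ hZ1' hN₁ hC₀ hN₁Z hA₀
  by_contra hcon
  rw [not_lt] at hcon
  have hcon : (Z : ℝ) ^ (C' + 1) * ((degP 𝓛 γ : ℝ) * h ^ k) ≤ 1 := by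
    refine le_trans (mul_le_mul_of_nonneg_right ?_ ?_) hcon
    · have h1 : (1 : ℝ) ≤ Z := by exact_mod_cast hZ1'
      exact pow_le_pow_right₀ h1 (by omega)
    · have h1 : 0 ≤ h := (Pool.Agent.H72.PB.ht_nonneg _).trans (hh ⟨0, hk⟩)
      positivity
  have hZ2 : 2 ≤ Z := by omega
  have hZ1 : 1 ≤ Z := by omega
  have hZR : (1 : ℝ) ≤ Z := by exact_mod_cast hZ1
  have hZ0 : (0 : ℝ) < Z := by linarith
  have hkk : 1 ≤ k ^ k := Nat.one_le_pow _ _ hk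
  have hC₁Z : C₁ * k ^ k ≤ Z := by omega
  have hC₁Z' : C₁ ≤ Z := le_trans (Nat.le_mul_of_pos_right _ hkk) hC₁Z
  have hmem : ∀ x : Ωˣ, (x : Ω) ∉ DivG Ω b ↔ ∀ m : ℕ, 1 ≤ m → x ^ m ∉ Λ := by
    intro x
    rw [hΛ x]
    push Not
    exact Iff.rfl
  have hind : ∀ a : Fin k → ℤ, a ≠ 0 → ((∏ i, γ i ^ a i : Ωˣ) : Ω) ∉ DivG Ω b := fun a ha =>
    (hmem _).2 (hγ a ha)
  have hμ : ∀ N : ℕ, 1 ≤ N → (∀ q : ℕ, q.Prime → q ∣ N → q ∈ S) → ∀ ω : Ω, ω ^ N = 1 → ω ∈ 𝓛 := by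
    intro N hN hq ω hω
    have hω' : ω ^ (N * N₁) = 1 := by
      rw [pow_mul, hω, one_pow]
    exact hcov.le 1 hcov.one N ⟨hN, hq⟩ (IntermediateField.subset_adjoin K _ (Or.inr (Or.inl hω')))
  obtain ⟨v, hvind, hvh, hvS, hvd⟩ := prep S hS b 𝓛 hμ γ hind h hh
  have hvΛ : IndM Λ v := fun a ha => (hmem _).1 (hvind a ha)
  obtain ⟨w, hw⟩ : ∃ w : Fin k → Ω, w = fun i => (v i : Ω) := ⟨_, rfl⟩
  have hw0 : ∀ i, w i ≠ 0 := fun i => by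
    rw [hw]
    exact (v i).ne_zero
  rw [← hw] at hvS hvd
  obtain ⟨D, hD⟩ : ∃ D : ℕ, D = dgT 𝓛 w := ⟨_, rfl⟩
  have hDP : degP 𝓛 v = D := by
    rw [degP_eq, hD, hw]
  have hD1 : 1 ≤ D := by
    rw [hD]
    exact dgT_pos 𝓛 w
  obtain ⟨D₀, hD₀⟩ : ∃ D₀ : ℕ, D₀ = degP 𝓛 γ := ⟨_, rfl⟩
  rw [← hD₀] at hdeg hcon
  rw [← hD, ← degP_eq, ← hD₀, ← hC₁] at hvd
  have hDe : D ≤ Z ^ (e + 1) := by
    calc D ≤ C₁ * D₀ := hvd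
      _ ≤ Z * Z ^ e := Nat.mul_le_mul hC₁Z' hdeg
      _ = Z ^ (e + 1) := by ring
  have hDR : (1 : ℝ) ≤ D := by exact_mod_cast hD1
  have hh0 : 0 ≤ h := (Pool.Agent.H72.PB.ht_nonneg _).trans (hh ⟨0, hk⟩)
  -- the height bound
  obtain ⟨t, ht⟩ : ∃ t : ℝ, t = ((Z : ℝ) ^ C' * D)⁻¹ := ⟨_, rfl⟩
  have hZD : (1 : ℝ) ≤ (Z : ℝ) ^ C' * D := by
    have h1 : (1 : ℝ) ≤ (Z : ℝ) ^ C' := one_le_pow₀ hZR
    nlinarith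
  have ht0 : 0 < t := by
    rw [ht]
    exact inv_pos.2 (by linarith)
  have ht1 : t ≤ 1 := by
    rw [ht]
    exact inv_le_one_of_one_le₀ hZD
  obtain ⟨h₁, hh₁⟩ : ∃ h₁ : ℝ, h₁ = max (k * h) t := ⟨_, rfl⟩
  have hh₁0 : 0 < h₁ := by
    rw [hh₁]
    exact lt_max_of_lt_right ht0
  have hkey : (Z : ℝ) ^ C' * ((D : ℝ) * h₁ ^ k) ≤ 1 := by
    rcases le_total (k * h) t with hle | hle
    · rw [hh₁, max_eq_right hle]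
      have h1 : t ^ k ≤ t := by
        calc t ^ k ≤ t ^ 1 := pow_le_pow_of_le_one ht0.le ht1 hk
          _ = t := pow_one t
      calc (Z : ℝ) ^ C' * ((D : ℝ) * t ^ k) ≤ (Z : ℝ) ^ C' * ((D : ℝ) * t) := by gcongr
        _ = ((Z : ℝ) ^ C' * D) * t := by ring
        _ = 1 := by
            rw [ht]
            exact mul_inv_cancel₀ (by linarith)
    · rw [hh₁, max_eq_left hle]
      refine le_trans ?_ hcon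
      have h1 : (D : ℝ) ≤ C₁ * D₀ := by exact_mod_cast hvd
      have h2 : ((C₁ : ℝ) * (k : ℝ) ^ k) ≤ Z := by exact_mod_cast hC₁Z
      calc (Z : ℝ) ^ C' * ((D : ℝ) * (k * h) ^ k)
          ≤ (Z : ℝ) ^ C' * ((C₁ * D₀ : ℝ) * (k * h) ^ k) := by gcongr
        _ = (Z : ℝ) ^ C' * (((C₁ : ℝ) * (k : ℝ) ^ k) * (D₀ * h ^ k)) := by
            rw [mul_pow]
            ring
        _ ≤ (Z : ℝ) ^ C' * ((Z : ℝ) * (D₀ * h ^ k)) := by gcongr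
        _ = (Z : ℝ) ^ (C' + 1) * ((D₀ : ℝ) * h ^ k) := by ring
  have hh₁1 : h₁ ≤ 1 := by
    by_contra hlt
    rw [not_le] at hlt
    have h1 : (1 : ℝ) < h₁ ^ k := one_lt_pow₀ hlt (by omega)
    have h2 : (1 : ℝ) < ((Z : ℝ) ^ C' * D) * h₁ ^ k := by nlinarith
    rw [mul_assoc] at h2
    linarith
  have hmono : ∀ j : ℕ, j ≤ C' → (Z : ℝ) ^ j * ((D : ℝ) * h₁ ^ k) ≤ 1 := by
    intro j hj
    refine le_trans ?_ hkey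
    have h1 : (Z : ℝ) ^ j ≤ (Z : ℝ) ^ C' := pow_le_pow_right₀ hZR hj
    gcongr
  have hvh₁ : ∀ i, absLogHeight₁ (v i : Ω) ≤ h₁ := fun i =>
    (hvh i).trans (by rw [hh₁]; exact le_max_left _ _)
  -- the box
  obtain ⟨M₁, hM1, hM2⟩ := num_box k (38 * k ^ 3 + 1) D Z hk hZ1
  have hM₁D : M₁ ^ k ≤ D := le_trans (Nat.le_mul_of_pos_right _ (Nat.one_le_pow _ _ hZ1)) hM1
  have hgp : GPI 𝓛 w M₁ := by
    have h1 := hK₁ K Ω 𝓛 Λ (e + 1) Z hA₁ hlow' v hvΛ (by rw [hDP]; exact hDe) h₁ hvh₁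
      (by rw [hDP]; exact hmono _ hC'a) M₁ (by rw [hDP]; exact hM1)
    rw [hw]
    exact h1
  -- the field of definition
  obtain ⟨n, hn, N, hN, hsub⟩ := fodU S b NN N₁ hN₁ 𝓛 hcov w
  have hdle : dgT (RF Ω b n (N * N₁)) w ≤ D := by
    rw [hD]
    exact Set.ncard_le_ncard hsub (orbT_finite 𝓛 w)
  have hTPT : ∀ p ∈ S, TPT p (RF Ω b n (N * N₁)) w := by
    intro p hp ω m hω hmm
    exact stp_tpt hvS (hS p hp) hp ω m hω (hsub hmm)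
  -- the descent
  obtain ⟨R, hR1, hRle, hT2⟩ := hT D hD1
  have hlog := hK₂ (e + 1) Z D hA₂ hD1 hDe
  have hRZ : R ≤ Z := by
    have h1 : (R : ℝ) ≤ Z := hRle.trans hlog
    exact_mod_cast h1
  have hnum : (A * Real.log (3 * D)) ^ A *
      (((Z ^ (38 * k ^ 3 + 1) : ℕ) : ℝ) ^ 2 * (M₁ + 1) * h₁) ≤ 1 := by
    have h1 := num_ht k (38 * k ^ 3 + 1) C' D Z M₁ h₁ hk hh₁0.le hZ2 hD1 hM₁D hC'b hkey
    refine le_trans (mul_le_mul_of_nonneg_right hlog ?_) h1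
    positivity
  obtain ⟨g, hgΓ, hg0, -, hgorb⟩ := hT2 n N₁ (hcov.pos n hn) hN₁ (hcov.cop n hn) hN₁S N hN 𝓛
    (fun M hM => hcov.le n hn M hM) w hw0 hTPT hdle M₁ (Z ^ (38 * k ^ 3 + 1)) hgp
    (hdle.trans hM2) h₁ (fun i => by rw [hw]; exact hvh₁ i) hnum
  -- the last step
  obtain ⟨y, hy⟩ : ∃ y : Fin k → Ωˣ, y = fun i => v i / Units.mk0 (g i) (hg0 i) := ⟨_, rfl⟩
  have hyw : (fun i => (y i : Ω)) = w / g := by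
    funext i
    rw [hy, hw]
    simp
  have hDy : degP (RF Ω b n (R * N₁)) y ≤ D := by
    rw [degP_eq, hyw]
    exact (dgT_sub hg0 hgorb).trans hdle
  have hfin := hE ε hε0 hε1 n hn (R * N₁) (Nat.mul_pos hR1 hN₁) v y (fun i => by
      have h1 : ((v i / y i : Ωˣ) : Ω) = g i := by
        rw [hy]
        simp
      rw [h1]
      exact gam_div (hgΓ i)) hvind h₁ hh₁0 hh₁1 hvh₁
  have hfin2 := hK₃ (e + 1) Z hA₃ ε hε D (degP (RF Ω b n (R * N₁)) y) R N₁ hD1 hDe hDy hRZ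
    (hN₁Z.trans (Nat.pow_le_pow_right hZ1 (Nat.le_succ e))) h₁ hh₁0
    (hmono _ hC'c)
  linarith

end Pool.Agent.H36.LV
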