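import Pool.Agent.H36.LV.MaiAdL
import Pool.Agent.H36.LV.CnvL
import Pool.Agent.H36.LV.RttL

/-!
# LOG VERSION, FinAdL: the theorem over `ℚ(μ_∞)` in all dimensions

PROOF (model `Pool/Agent/H33/PT/Fin.lean`). Strong induction on `n`: the product form for all `j < n`, with one constant `C₀` for all (`ptPE_mono`, a maximum over the finitely many `j`), is `hlow` of `pu_abL`; `cnvL` (`m = 1`, `K = ℚ`) gives `PtHE .. n 1 C`; `root_trickL` with the case `n = 1` (`pu_abL 1` has no hypothesis, `cnvL 1`) gives `PtPE .. n 1 C`. `ptHE_mono`, `ptPE_mono`: one `C` for both.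
-/

set_option autoImplicit false
set_option linter.unusedSectionVars false

open NumberField

namespace Pool.Agent.H36.LV

open Pool.Agent.H11.TH Pool.Agent.H11.TS Pool.Agent.H33.PT Pool.Agent.H72.AD

variable {Ω : Type} [Field Ω] [CharZero Ω] [IsAlgClosed Ω] [IsGalois ℚ Ω]

private theorem fad_he (n : ℕ) (hn : 1 ≤ n) (C₀ : ℕ) (hC₀ : 1 ≤ C₀)
    (hlow : ∀ j : ℕ, 1 ≤ j → j < n → PtPE (Ab Ω) (⊥ : Subgroup Ωˣ) j 1 C₀) :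
    ∃ C : ℕ, 1 ≤ C ∧ PtHE (Ab Ω) (⊥ : Subgroup Ωˣ) n 1 C := by
  obtain ⟨C₁, -, hC₁⟩ := pu_abL (Ω := Ω) n hn C₀ hC₀ hlow
  obtain ⟨C, hC, hcnv⟩ := cnvL n hn C₁
  exact ⟨C, hC, hcnv ℚ Ω (Ab Ω) (⊥ : Subgroup Ωˣ) 1 le_rfl
    fun e Z hZ _ γ hγ hd h hh => hC₁ e Z hZ γ hγ hd h hh⟩

theorem points_abL (n : ℕ) (hn : 1 ≤ n) : ∃ C : ℕ, 1 ≤ C ∧
    PtHE (Ab Ω) (⊥ : Subgroup Ωˣ) n 1 C ∧ PtPE (Ab Ω) (⊥ : Subgroup Ωˣ) n 1 C := by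
  classical
  induction n using Nat.strong_induction_on with
  | _ n ih =>
    have ih' : ∀ j : ℕ, ∃ C : ℕ, 1 ≤ j → j < n → 1 ≤ C ∧ PtPE (Ab Ω) (⊥ : Subgroup Ωˣ) j 1 C := by
      intro j
      by_cases h : 1 ≤ j ∧ j < n
      · obtain ⟨C, hC, -, h2⟩ := ih j h.2 h.1
        exact ⟨C, fun _ _ => ⟨hC, h2⟩⟩
      · exact ⟨0, fun h1 h2 => absurd ⟨h1, h2⟩ h⟩
    choose f hf using ih'
    have hlow : ∀ j : ℕ, 1 ≤ j → j < n →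
        PtPE (Ab Ω) (⊥ : Subgroup Ωˣ) j 1 ((Finset.range n).sup f + 1) := by
      intro j h1 h2
      obtain ⟨h3, h4⟩ := hf j h1 h2
      have h5 : f j ≤ (Finset.range n).sup f := Finset.le_sup (Finset.mem_range.2 h2)
      exact ptPE_mono h3 (by omega) h4
    obtain ⟨C₂, hC₂, h2⟩ := fad_he (Ω := Ω) n hn _ (Nat.le_add_left 1 _) hlow
    obtain ⟨C₁, hC₁, h1⟩ := fad_he (Ω := Ω) 1 le_rfl 1 le_rfl (fun j hj hj' => by omega)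
    obtain ⟨C₃, hC₃, h3⟩ := root_trickL n hn C₁ C₂ hC₁ hC₂
    have h4 := h3 ℚ Ω (Ab Ω) (⊥ : Subgroup Ωˣ) 1 le_rfl h1 h2
    exact ⟨C₂ + C₃, by omega, ptHE_mono hC₂ (by omega) h2, ptPE_mono hC₃ (by omega) h4⟩

end Pool.Agent.H36.LV
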