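import Pool.Agent.H36.LV.CorUL
import Pool.Agent.H36.LV.CnvL
import Pool.Agent.H36.LV.RttL

/-!
# LOG VERSION, FinUL: the points theorem over fields of radicals, uniform in the level `N₁`

PROOF (model `Pool/Agent/H28/PT4/Fin.lean`). Strong induction on `k`, the constant uniform in `N₁`, `𝓛`: for `j < k` the induction hypothesis gives `C_j` for `PtHE .. j N₁ C_j`, `root_trickL j` with the constant of dimension `1` gives `PtPE .. j N₁ C'_j`; `C₀` := the maximum over `j < k` (`ptPE_mono`) (or `1` if `k = 1`). `coreUL` with `C₀`, then `cnvL k`.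
(The hypothesis of `cnvL` for the pair `m := N₁`, `𝓛` is the conclusion of `coreUL`.)
-/

set_option autoImplicit false
set_option linter.unusedSectionVars false

open NumberField IntermediateField

namespace Pool.Agent.H36.LV

open Pool.Agent.H33.TR Pool.Agent.H72.PB Pool.Agent.H72.RM Pool.Agent.H72.RG Pool.Agent.H11.TS
  Pool.Agent.H28.PT4

theorem fin_UL {K Ω : Type} [Field K] [NumberField K] [Field Ω] [CharZero Ω] [IsAlgClosed Ω]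
    [Algebra K Ω] [IsGalois K Ω] {r : ℕ} (S : Finset ℕ)
    (hS : ∀ p ∈ S, p.Prime) (b : Fin r → K) (NN : Set ℕ)
    (hTow : ∀ k : ℕ, 1 ≤ k → TowU Ω S b k) (hEnd : ∀ k : ℕ, 1 ≤ k → EndUL Ω b NN k)
    (Λ : Subgroup Ωˣ) (hΛ : ∀ x : Ωˣ, (x : Ω) ∈ DivG Ω b ↔ ∃ m : ℕ, 1 ≤ m ∧ x ^ m ∈ Λ) :
    ∀ k : ℕ, 1 ≤ k → ∃ C : ℕ, 1 ≤ C ∧ ∀ N₁ : ℕ, 1 ≤ N₁ → (∀ q ∈ S, ¬ q ∣ N₁) →
      ∀ 𝓛 : IntermediateField K Ω, CovU S b NN N₁ 𝓛 → PtHE 𝓛 Λ k N₁ C := by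
  intro k
  induction k using Nat.strong_induction_on with
  | _ k ih =>
    intro hk
    have hj : ∀ j : ℕ, ∃ C : ℕ, 1 ≤ C ∧ (1 ≤ j → j < k → ∀ N₁ : ℕ, 1 ≤ N₁ →
        (∀ q ∈ S, ¬ q ∣ N₁) → ∀ 𝓛 : IntermediateField K Ω, CovU S b NN N₁ 𝓛 →
        PtPE 𝓛 Λ j N₁ C) := by
      intro j
      by_cases hjk : 1 ≤ j ∧ j < k
      · obtain ⟨C₁, hC₁, h1⟩ := ih 1 (by omega) le_rfl
        obtain ⟨C₂, hC₂, h2⟩ := ih j hjk.2 hjk.1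
        obtain ⟨C, hC, h3⟩ := root_trickL j hjk.1 C₁ C₂ hC₁ hC₂
        exact ⟨C, hC, fun _ _ N₁ hN₁ hq 𝓛 hcov =>
          h3 K Ω 𝓛 Λ N₁ hN₁ (h1 N₁ hN₁ hq 𝓛 hcov) (h2 N₁ hN₁ hq 𝓛 hcov)⟩
      · exact ⟨1, le_rfl, fun h1 h2 => absurd ⟨h1, h2⟩ hjk⟩
    choose f hf1 hf using hj
    obtain ⟨C, hC, hcore⟩ := coreUL k hk S hS b NN (hTow k hk) (hEnd k hk) Λ hΛ
      ((Finset.range k).sup f + 1) (Nat.le_add_left _ _)
    obtain ⟨C', hC', hcnv⟩ := cnvL k hk C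
    refine ⟨C', hC', fun N₁ hN₁ hq 𝓛 hcov => hcnv K Ω 𝓛 Λ N₁ hN₁ ?_⟩
    intro e Z hZ hNZ γ hγ hd h hh
    refine hcore e Z hZ N₁ hN₁ hq hNZ 𝓛 hcov ?_ γ hγ hd h hh
    intro j hj hjk
    have h1 : f j ≤ (Finset.range k).sup f := Finset.le_sup (Finset.mem_range.mpr hjk)
    exact ptPE_mono (hf1 j) (by omega) (hf j hj hjk N₁ hN₁ hq 𝓛 hcov)

end Pool.Agent.H36.LV
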