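import Mathlib

/-!
# LOG VERSION, NumAdL: the choice of the parameters of the points theorem over `ℚ(μ_∞)`

Copy of `Pool/Agent/H72/AD/NumAd.lean` (`num_ad`, proved; the private lemmas unchanged): the same `A = 2 c₁ + 2 n + e + 4`, `Td = 6 n A + 7`, `J₀ = 2 Td^(n+1)`, `T = 6 J₀ A`, `R = 3 T^n + n T^(n+1) + 8 T + 3`, and the constant `K₀ = K₁ + .. + 3` of that file: all are polynomials in `e` (for fixed `n, c₁`), so `R ≤ (C (e + 1))^C` and `K₀ ≤ (C (e + 1))^C` for `C` large.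
(For the bound: `A ≤ B (e + 1)` with `B = 2 c₁ + 2 n + 5`, then `Td ≤ (6 n B + 7) (e + 1)`, .. : every quantity is at most `(E (e + 1))^E` for some `E` depending only on `n, c₁`; a small private lemma: sums and products and powers with fixed exponent of such quantities are of this form.)
-/

set_option autoImplicit false

namespace Pool.Agent.H36.LV

/-- polynomially bounded -/
private def PB (f : ℕ → ℕ) : Prop := ∃ E : ℕ, 1 ≤ E ∧ ∀ e, f e ≤ (E * (e + 1)) ^ E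

private theorem pb_mono {E E' e : ℕ} (hE : 1 ≤ E) (h : E ≤ E') :
    (E * (e + 1)) ^ E ≤ (E' * (e + 1)) ^ E' := by
  have h1 : 1 ≤ E' * (e + 1) := Nat.mul_pos (by omega) (by omega)
  exact (Nat.pow_le_pow_left (Nat.mul_le_mul_right _ h) E).trans (Nat.pow_le_pow_right h1 h)

private theorem pb_const (c : ℕ) : PB fun _ => c := by
  refine ⟨c + 1, by omega, fun e => ?_⟩
  have h1 : 1 ≤ (c + 1) * (e + 1) := Nat.mul_pos (by omega) (by omega)
  calc c ≤ c + 1 := Nat.le_succ c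
    _ ≤ (c + 1) * (e + 1) := Nat.le_mul_of_pos_right _ (by omega)
    _ = ((c + 1) * (e + 1)) ^ 1 := (pow_one _).symm
    _ ≤ ((c + 1) * (e + 1)) ^ (c + 1) := Nat.pow_le_pow_right h1 (by omega)

private theorem pb_id : PB fun e => e :=
  ⟨1, le_rfl, fun e => by
    rw [one_mul, pow_one]
    exact Nat.le_succ e⟩

private theorem pb_mul {f g : ℕ → ℕ} (hf : PB f) (hg : PB g) : PB fun e => f e * g e := by
  obtain ⟨E, hE, h⟩ := hf
  obtain ⟨E', hE', h'⟩ := hg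
  refine ⟨(E + E') + (E + E'), by omega, fun e => ?_⟩
  have h1 : f e ≤ ((E + E') * (e + 1)) ^ (E + E') := (h e).trans (pb_mono hE (by omega))
  have h2 : g e ≤ ((E + E') * (e + 1)) ^ (E + E') := (h' e).trans (pb_mono hE' (by omega))
  calc f e * g e ≤ ((E + E') * (e + 1)) ^ (E + E') * ((E + E') * (e + 1)) ^ (E + E') :=
        Nat.mul_le_mul h1 h2
    _ = ((E + E') * (e + 1)) ^ ((E + E') + (E + E')) := (pow_add _ _ _).symm
    _ ≤ _ := Nat.pow_le_pow_left (Nat.mul_le_mul_right _ (by omega)) _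

private theorem pb_add {f g : ℕ → ℕ} (hf : PB f) (hg : PB g) : PB fun e => f e + g e := by
  obtain ⟨E, hE, h⟩ := hf
  obtain ⟨E', hE', h'⟩ := hg
  refine ⟨(E + E') + (E + E'), by omega, fun e => ?_⟩
  have h1 : f e ≤ ((E + E') * (e + 1)) ^ (E + E') := (h e).trans (pb_mono hE (by omega))
  have h2 : g e ≤ ((E + E') * (e + 1)) ^ (E + E') := (h' e).trans (pb_mono hE' (by omega))
  have h3 : 2 ≤ (E + E') * (e + 1) :=
    le_trans (by omega) (Nat.le_mul_of_pos_right (E + E') (Nat.succ_pos e))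
  have h4 : 2 ≤ ((E + E') * (e + 1)) ^ (E + E') := h3.trans (Nat.le_self_pow (by omega) _)
  calc f e + g e ≤ 2 * ((E + E') * (e + 1)) ^ (E + E') := by omega
    _ ≤ ((E + E') * (e + 1)) ^ (E + E') * ((E + E') * (e + 1)) ^ (E + E') :=
        Nat.mul_le_mul_right _ h4
    _ = ((E + E') * (e + 1)) ^ ((E + E') + (E + E')) := (pow_add _ _ _).symm
    _ ≤ _ := Nat.pow_le_pow_left (Nat.mul_le_mul_right _ (by omega)) _

private theorem pb_pow {f : ℕ → ℕ} (hf : PB f) (k : ℕ) : PB fun e => f e ^ k := by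
  induction k with
  | zero =>
    simp only [pow_zero]
    exact pb_const 1
  | succ k ih =>
    simp only [pow_succ]
    exact pb_mul ih hf

private theorem log_fac (M B : ℕ) (L A : ℝ) (hM : 1 ≤ M) (hMB : M ≤ B)
    (hL : Real.log (B : ℝ) ≤ A * L) : Real.log ((M.factorial : ℕ) : ℝ) ≤ M * (A * L) := by
  have h0 : (0 : ℝ) < (M : ℝ) := by exact_mod_cast hM
  have h1 : (0 : ℝ) < ((M.factorial : ℕ) : ℝ) := by exact_mod_cast M.factorial_pos
  calc Real.log ((M.factorial : ℕ) : ℝ) ≤ Real.log ((M : ℝ) ^ M) :=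
        Real.log_le_log h1 (by exact_mod_cast Nat.factorial_le_pow M)
    _ = (M : ℝ) * Real.log M := Real.log_pow _ _
    _ ≤ _ := by
        refine mul_le_mul_of_nonneg_left ?_ h0.le
        exact (Real.log_le_log h0 (by exact_mod_cast hMB)).trans hL

private theorem log_pw (M Z A : ℕ) (hM : 1 ≤ M) (h : M ≤ Z ^ A) :
    Real.log (M : ℝ) ≤ (A : ℝ) * Real.log Z := by
  have h0 : (0 : ℝ) < (M : ℝ) := by exact_mod_cast hM
  calc Real.log (M : ℝ) ≤ Real.log ((Z : ℝ) ^ A) := Real.log_le_log h0 (by exact_mod_cast h)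
    _ = _ := Real.log_pow _ _

/-- the final inequality of the real numbers -/
private theorem fin_ineq (J A T P Q R D L x y z u v : ℝ) (hJ : 1 ≤ J) (hA : 1 ≤ A) (hT : 1 ≤ T)
    (_ : 0 ≤ P) (hD : 1 ≤ D) (hL : 1 ≤ L) (_ : 0 ≤ Q)
    (hTJ : T = 6 * (J * A)) (hR : R = 3 * P + Q + 8 * T + 3)
    (hx : x ≤ (R + P) * D * (A * L)) (hy : y ≤ Q * D * (A * L)) (hz : z ≤ D)
    (hu : u ≤ D * (A * L)) (hv : v ≤ D) :
    J * (x + y + z) + 4 * J * T * (u + v) < T * (R - P) * D * (L / 3) := by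
  have hDL : 1 ≤ D * L := one_le_mul_of_one_le_of_one_le hD hL
  have hDL' : D ≤ D * L := le_mul_of_one_le_right (by linarith) hL
  have h1 : J * (x + y + z) ≤ J * ((R + P) * D * (A * L) + Q * D * (A * L) + D * L) :=
    mul_le_mul_of_nonneg_left (by linarith) (by linarith)
  have hJT : 0 ≤ 4 * J * T := by positivity
  have h2 : 4 * J * T * (u + v) ≤ 4 * J * T * (D * (A * L) + D * L) :=
    mul_le_mul_of_nonneg_left (by linarith) hJT
  have h3 : T * (R - P) * D * (L / 3) = J * (2 * A * (R - P)) * (D * L) := by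
    have h4 : T * (R - P) * D * (L / 3) = T / 3 * (R - P) * (D * L) := by ring
    rw [h4, hTJ]
    ring
  have h5 : A * (R + P) + A * Q + 1 + 4 * T * A + 4 * T < 2 * A * (R - P) := by
    rw [hR]
    have h6 : T ≤ T * A := le_mul_of_one_le_right (by linarith) hA
    nlinarith
  have h7 : (A * (R + P) + A * Q + 1 + 4 * T * A + 4 * T) * (J * (D * L)) <
      2 * A * (R - P) * (J * (D * L)) :=
    mul_lt_mul_of_pos_right h5 (by positivity)
  rw [h3]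
  have h8 : J * ((R + P) * D * (A * L) + Q * D * (A * L) + D * L) +
      4 * J * T * (D * (A * L) + D * L) =
      (A * (R + P) + A * Q + 1 + 4 * T * A + 4 * T) * (J * (D * L)) := by ring
  have h9 : J * (2 * A * (R - P)) * (D * L) = 2 * A * (R - P) * (J * (D * L)) := by ring
  linarith

theorem num_adL (n c₁ : ℕ) (hn : 1 ≤ n) : ∃ C : ℕ, 1 ≤ C ∧ ∀ e : ℕ, ∃ Td T R : ℕ, 1 ≤ Td ∧ 1 ≤ T ∧
    R ≤ (C * (e + 1)) ^ C ∧
    ∀ Z : ℕ, (C * (e + 1)) ^ C ≤ Z → ∀ (D M₁ : ℕ) (h : ℝ), 1 ≤ D → D ≤ Z ^ e → M₁ ^ n ≤ D → 0 ≤ h →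
      (Z : ℝ) ^ (n * (2 * c₁ + 2 * n + 5)) * ((D : ℝ) * h ^ n) ≤ 1 → ∀ N J : ℕ,
      N = 2 * (Z ^ n * Z ^ (c₁ + 1)) ^ 2 * max 1 M₁ → J = 2 * Td ^ (n + 1) →
      (∀ l : ℕ, Z ≤ l ^ 3 → l ≤ Z → 2 < l ∧ J < l ∧
        2 * (Real.log (((Td * N + 1) ^ n : ℕ) : ℝ) + ((l * (Td * N) : ℕ) : ℝ) * (n * h)) <
          Td * Real.log l) ∧
      J * (Real.log (((R + T ^ n) * D).factorial : ℕ) +
          n * T * (T ^ n * D) * Real.log ((R * (N + 1) + 1 : ℕ) : ℝ) +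
          ((R : ℝ) + T ^ n) * D * ((Z * (R * (N + 1)) + T : ℕ) : ℝ) * (n * h)) +
        4 * J * T * (Real.log (D.factorial : ℕ) + ((R : ℝ) + 1) * (Z * N : ℕ) * (D * (n * h))) <
      (T : ℝ) * ((R : ℝ) - T ^ n) * D * (Real.log Z / 3) := by
  -- the parameters are polynomials in `e`
  have pA : PB fun e => 2 * c₁ + 2 * n + e + 4 := pb_add (pb_add (pb_const _) pb_id) (pb_const _)
  obtain ⟨fA, hfA⟩ : ∃ f : ℕ → ℕ, f = fun e => 2 * c₁ + 2 * n + e + 4 := ⟨_, rfl⟩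
  rw [← hfA] at pA
  obtain ⟨fTd, hfTd⟩ : ∃ f : ℕ → ℕ, f = fun e => 6 * (n * fA e) + 7 := ⟨_, rfl⟩
  have pTd' : PB fTd := by
    rw [hfTd]
    exact pb_add (pb_mul (pb_const _) (pb_mul (pb_const _) pA)) (pb_const _)
  obtain ⟨fJ, hfJ⟩ : ∃ f : ℕ → ℕ, f = fun e => 2 * fTd e ^ (n + 1) := ⟨_, rfl⟩
  have pJ : PB fJ := by
    rw [hfJ]
    exact pb_mul (pb_const _) (pb_pow pTd' _)
  obtain ⟨fT, hfT⟩ : ∃ f : ℕ → ℕ, f = fun e => 6 * (fJ e * fA e) := ⟨_, rfl⟩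
  have pT : PB fT := by
    rw [hfT]
    exact pb_mul (pb_const _) (pb_mul pJ pA)
  obtain ⟨fR, hfR⟩ : ∃ f : ℕ → ℕ, f = fun e => 3 * fT e ^ n + n * fT e * fT e ^ n + 8 * fT e + 3 :=
    ⟨_, rfl⟩
  have pR : PB fR := by
    rw [hfR]
    exact pb_add (pb_add (pb_add (pb_mul (pb_const _) (pb_pow pT _))
      (pb_mul (pb_mul (pb_const _) pT) (pb_pow pT _))) (pb_mul (pb_const _) pT)) (pb_const _)
  have pK : PB fun e => (fJ e + 3) ^ 3 + (fR e + fT e ^ n) + 2 * fTd e * n +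
      (fR e + fT e ^ n) * (3 * fR e + fT e) * n + 2 * (fR e + 1) * n + (2 * fTd e + 1) +
      (3 * fR e + 1) + 3 :=
    pb_add (pb_add (pb_add (pb_add (pb_add (pb_add (pb_add
      (pb_pow (pb_add pJ (pb_const _)) _)
      (pb_add pR (pb_pow pT _)))
      (pb_mul (pb_mul (pb_const _) pTd') (pb_const _)))
      (pb_mul (pb_mul (pb_add pR (pb_pow pT _)) (pb_add (pb_mul (pb_const _) pR) pT)) (pb_const _)))
      (pb_mul (pb_mul (pb_const _) (pb_add pR (pb_const _))) (pb_const _)))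
      (pb_add (pb_mul (pb_const _) pTd') (pb_const _)))
      (pb_add (pb_mul (pb_const _) pR) (pb_const _))) (pb_const _)
  obtain ⟨C, hC1, hC⟩ := pK
  refine ⟨C, hC1, fun e => ?_⟩
  obtain ⟨A, hA⟩ : ∃ A : ℕ, A = 2 * c₁ + 2 * n + e + 4 := ⟨_, rfl⟩
  obtain ⟨Td, hTd⟩ : ∃ Td : ℕ, Td = 6 * (n * A) + 7 := ⟨_, rfl⟩
  obtain ⟨J₀, hJ₀⟩ : ∃ J₀ : ℕ, J₀ = 2 * Td ^ (n + 1) := ⟨_, rfl⟩
  obtain ⟨T, hT⟩ : ∃ T : ℕ, T = 6 * (J₀ * A) := ⟨_, rfl⟩
  obtain ⟨R, hR⟩ : ∃ R : ℕ, R = 3 * T ^ n + n * T * T ^ n + 8 * T + 3 := ⟨_, rfl⟩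
  obtain ⟨K₁, hK₁⟩ : ∃ K₁ : ℕ, K₁ = (J₀ + 3) ^ 3 := ⟨_, rfl⟩
  obtain ⟨K₂, hK₂⟩ : ∃ K₂ : ℕ, K₂ = R + T ^ n := ⟨_, rfl⟩
  obtain ⟨K₃, hK₃⟩ : ∃ K₃ : ℕ, K₃ = 2 * Td * n := ⟨_, rfl⟩
  obtain ⟨K₄, hK₄⟩ : ∃ K₄ : ℕ, K₄ = (R + T ^ n) * (3 * R + T) * n := ⟨_, rfl⟩
  obtain ⟨K₅, hK₅⟩ : ∃ K₅ : ℕ, K₅ = 2 * (R + 1) * n := ⟨_, rfl⟩
  have hA1 : 1 ≤ A := by omega
  have hTd1 : 1 ≤ Td := by omega
  have hJ1 : 1 ≤ J₀ := by
    have := Nat.one_le_pow (n + 1) _ hTd1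
    omega
  have hT1 : 1 ≤ T := by
    have : 1 ≤ J₀ * A := Nat.mul_pos hJ1 hA1
    omega
  have hKC : K₁ + K₂ + K₃ + K₄ + K₅ + (2 * Td + 1) + (3 * R + 1) + 3 ≤ (C * (e + 1)) ^ C := by
    have eA : fA e = A := by rw [hfA, hA]
    have eTd : fTd e = Td := by rw [hfTd, hTd, ← eA]
    have eJ : fJ e = J₀ := by rw [hfJ, hJ₀, ← eTd]
    have eT : fT e = T := by rw [hfT, hT, ← eJ, ← eA]
    have eR : fR e = R := by rw [hfR, hR, ← eT]
    have h1 := hC e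
    beta_reduce at h1
    rw [eJ, eR, eT, eTd] at h1
    rw [hK₁, hK₂, hK₃, hK₄, hK₅]
    exact h1
  refine ⟨Td, T, R, hTd1, hT1, le_trans (by omega) hKC,
    fun Z hZC D M₁ h hD1 hDe hMD hh0 hh N J hN hJ => ?_⟩
  have hZ := hKC.trans hZC
  rw [← hJ₀] at hJ
  subst hJ
  have hZ3 : 3 ≤ Z := by omega
  have hZ1 : 1 ≤ Z := by omega
  obtain ⟨m, hm⟩ : ∃ m, m = max 1 M₁ := ⟨_, rfl⟩
  have hm1 : 1 ≤ m := by
    rw [hm]
    exact le_max_left _ _
  have hmn : m ^ n ≤ D := by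
    rcases le_total 1 M₁ with h1 | h1
    · rw [hm, max_eq_right h1]
      exact hMD
    · rw [hm, max_eq_left h1, one_pow]
      exact hD1
  have hme : m ≤ Z ^ e := (Nat.le_self_pow (by omega) m).trans (hmn.trans hDe)
  obtain ⟨W, hW⟩ : ∃ W : ℕ, W = Z ^ (2 * n + 2 * c₁ + 2) := ⟨_, rfl⟩
  have hW1 : 1 ≤ W := by
    rw [hW]
    exact Nat.one_le_pow _ _ hZ1
  have hWm1 : 1 ≤ W * m := Nat.mul_pos hW1 hm1
  have hN0 : N = 2 * (W * m) := by
    rw [hN, hW, ← hm]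
    ring
  -- `c W m ≤ Z ^ A` for `c ≤ Z`
  have hWZ : ∀ c : ℕ, c ≤ Z → c * (W * m) ≤ Z ^ A := by
    intro c hc
    calc c * (W * m) ≤ Z * (W * Z ^ e) := Nat.mul_le_mul hc (Nat.mul_le_mul_left _ hme)
      _ = Z ^ (1 + (2 * n + 2 * c₁ + 2 + e)) := by
          rw [hW, ← pow_add]
          ring
      _ ≤ Z ^ A := Nat.pow_le_pow_right hZ1 (by omega)
  have b1 : Td * N + 1 ≤ Z ^ A := by
    refine le_trans ?_ (hWZ (2 * Td + 1) (by omega))
    have h1 : (2 * Td + 1) * (W * m) = Td * (2 * (W * m)) + W * m := by ring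
    rw [hN0, h1]
    exact Nat.add_le_add_left hWm1 _
  have b2 : R * (N + 1) + 1 ≤ Z ^ A := by
    refine le_trans ?_ (hWZ (3 * R + 1) (by omega))
    have h1 : (3 * R + 1) * (W * m) = R * (2 * (W * m) + W * m) + W * m := by ring
    rw [hN0, h1]
    exact Nat.add_le_add (Nat.mul_le_mul_left _ (Nat.add_le_add_left hWm1 _)) hWm1
  have b3 : (R + T ^ n) * D ≤ Z ^ A := by
    calc (R + T ^ n) * D ≤ Z * Z ^ e := Nat.mul_le_mul (by omega) hDe
      _ = Z ^ (e + 1) := by ring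
      _ ≤ Z ^ A := Nat.pow_le_pow_right hZ1 (by omega)
  have b4 : D ≤ Z ^ A := hDe.trans (Nat.pow_le_pow_right hZ1 (by omega))
  -- real numbers
  have hZr : (1 : ℝ) ≤ (Z : ℝ) := by exact_mod_cast hZ1
  have hZ0 : (0 : ℝ) < (Z : ℝ) := by linarith
  have hL1 : 1 ≤ Real.log Z := by
    rw [Real.le_log_iff_exp_le hZ0]
    have h1 := Real.exp_one_lt_d9
    have h2 : (3 : ℝ) ≤ (Z : ℝ) := by exact_mod_cast hZ3
    linarith
  have hnr : (1 : ℝ) ≤ (n : ℝ) := by exact_mod_cast hn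
  have hDr : (1 : ℝ) ≤ (D : ℝ) := by exact_mod_cast hD1
  have hmh0 : 0 ≤ (m : ℝ) * h := mul_nonneg (Nat.cast_nonneg _) hh0
  have hmh : (Z : ℝ) ^ (2 * c₁ + 2 * n + 5) * ((m : ℝ) * h) ≤ 1 := by
    have h1 : ((Z : ℝ) ^ (2 * c₁ + 2 * n + 5) * ((m : ℝ) * h)) ^ n ≤ 1 := by
      refine le_trans ?_ hh
      rw [mul_pow, ← pow_mul, mul_comm (2 * c₁ + 2 * n + 5) n, mul_pow]
      refine mul_le_mul_of_nonneg_left (mul_le_mul_of_nonneg_right ?_ (pow_nonneg hh0 _))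
        (pow_nonneg hZ0.le _)
      exact_mod_cast hmn
    exact (pow_le_one_iff_of_nonneg (mul_nonneg (pow_nonneg hZ0.le _) hmh0) (by omega)).1 h1
  -- `c Z W m h ≤ 1` for `c ≤ Z`
  have hsm : ∀ c : ℕ, c ≤ Z → (c : ℝ) * ((Z : ℝ) * W * (m * h)) ≤ 1 := by
    intro c hc
    calc (c : ℝ) * ((Z : ℝ) * W * (m * h)) ≤ (Z : ℝ) * ((Z : ℝ) * W * (m * h)) := by
          refine mul_le_mul_of_nonneg_right (by exact_mod_cast hc) ?_
          exact mul_nonneg (mul_nonneg hZ0.le (Nat.cast_nonneg _)) hmh0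
      _ = (Z : ℝ) ^ (2 * n + 2 * c₁ + 4) * (m * h) := by
          rw [hW]
          push_cast
          ring
      _ ≤ (Z : ℝ) ^ (2 * c₁ + 2 * n + 5) * (m * h) :=
          mul_le_mul_of_nonneg_right (pow_le_pow_right₀ hZr (by omega)) hmh0
      _ ≤ 1 := hmh
  have hnh : 0 ≤ (n : ℝ) * h := mul_nonneg (by linarith) hh0
  refine ⟨fun l hl3 hlZ => ?_, ?_⟩
  · have hlJ : J + 3 ≤ l := by
      by_contra hc
      have h1 : l ^ 3 ≤ (J + 2) ^ 3 := Nat.pow_le_pow_left (by omega) 3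
      have h2 : (J + 2) ^ 3 < (J + 3) ^ 3 := Nat.pow_lt_pow_left (by omega) (by norm_num)
      omega
    refine ⟨by omega, by omega, ?_⟩
    have h1 : Real.log Z / 3 ≤ Real.log l := by
      have h6 : (Z : ℝ) ≤ (l : ℝ) ^ 3 := by exact_mod_cast hl3
      have h7 := Real.log_le_log hZ0 h6
      rw [Real.log_pow] at h7
      push_cast at h7
      linarith
    have h2 : Real.log (((Td * N + 1) ^ n : ℕ) : ℝ) ≤ n * (A * Real.log Z) := by
      have h3 : Real.log (((Td * N + 1) ^ n : ℕ) : ℝ) = n * Real.log ((Td * N + 1 : ℕ) : ℝ) := by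
        rw [Nat.cast_pow, Real.log_pow]
      rw [h3]
      exact mul_le_mul_of_nonneg_left (log_pw _ _ _ (by omega) b1) (by linarith)
    have h3 : ((l * (Td * N) : ℕ) : ℝ) * (n * h) ≤ 1 := by
      calc ((l * (Td * N) : ℕ) : ℝ) * (n * h) ≤ ((Z * (Td * N) : ℕ) : ℝ) * (n * h) :=
            mul_le_mul_of_nonneg_right (by exact_mod_cast Nat.mul_le_mul_right _ hlZ) hnh
        _ = (K₃ : ℝ) * ((Z : ℝ) * W * (m * h)) := by
            rw [hK₃, hN0]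
            push_cast
            ring
        _ ≤ 1 := hsm K₃ (by omega)
    have h4 : (Td : ℝ) = 6 * (n * A) + 7 := by
      rw [hTd]
      push_cast
      ring
    have h5 : (Td : ℝ) * (Real.log Z / 3) ≤ Td * Real.log l :=
      mul_le_mul_of_nonneg_left h1 (Nat.cast_nonneg _)
    have h6 : (Td : ℝ) * (Real.log Z / 3) = 2 * (n * (A * Real.log Z)) + 7 / 3 * Real.log Z := by
      rw [h4]
      ring
    linarith
  · have hJr : (1 : ℝ) ≤ (J : ℝ) := by exact_mod_cast hJ1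
    have hAr : (1 : ℝ) ≤ (A : ℝ) := by exact_mod_cast hA1
    have hTr : (1 : ℝ) ≤ (T : ℝ) := by exact_mod_cast hT1
    have hP0 : (0 : ℝ) ≤ (T : ℝ) ^ n := pow_nonneg (by linarith) _
    have c1 : (T : ℝ) = 6 * (J * A) := by
      rw [hT]
      push_cast
      ring
    have c2 : (R : ℝ) = 3 * (T : ℝ) ^ n + (n * T * T ^ n) + 8 * T + 3 := by
      rw [hR]
      push_cast
      ring
    have hRT1 : 1 ≤ R + T ^ n := by omega
    have c3 : Real.log (((R + T ^ n) * D).factorial : ℕ) ≤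
        ((R : ℝ) + T ^ n) * D * (A * Real.log Z) := by
      have h1 := log_fac ((R + T ^ n) * D) (Z ^ A) (Real.log Z) A (Nat.mul_pos hRT1 hD1) b3
        (log_pw _ _ _ (Nat.one_le_pow _ _ hZ1) le_rfl)
      refine h1.trans (le_of_eq ?_)
      push_cast
      ring
    have c4 : n * T * (T ^ n * D) * Real.log ((R * (N + 1) + 1 : ℕ) : ℝ) ≤
        (n * T * T ^ n) * (D : ℝ) * (A * Real.log Z) := by
      have h1 := log_pw (R * (N + 1) + 1) Z A (by omega) b2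
      have h2 : (0 : ℝ) ≤ n * T * (T ^ n * D) := by positivity
      refine (mul_le_mul_of_nonneg_left h1 h2).trans (le_of_eq ?_)
      ring
    have c5 : ((R : ℝ) + T ^ n) * D * ((Z * (R * (N + 1)) + T : ℕ) : ℝ) * (n * h) ≤ D := by
      have h1 : Z * (R * (N + 1)) + T ≤ (3 * R + T) * (Z * (W * m)) := by
        have h2 : 1 ≤ Z * (W * m) := Nat.mul_pos hZ1 hWm1
        have h3 : Z * (R * (N + 1)) ≤ 3 * R * (Z * (W * m)) := by
          calc Z * (R * (N + 1)) ≤ Z * (R * (3 * (W * m))) := by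
                refine Nat.mul_le_mul_left _ (Nat.mul_le_mul_left _ ?_)
                omega
            _ = _ := by ring
        rw [Nat.add_mul]
        exact Nat.add_le_add h3 (Nat.le_mul_of_pos_right _ h2)
      have h2 : ((Z * (R * (N + 1)) + T : ℕ) : ℝ) ≤ (((3 * R + T) * (Z * (W * m)) : ℕ) : ℝ) := by
        exact_mod_cast h1
      have h3 : (0 : ℝ) ≤ ((R : ℝ) + T ^ n) * D := by positivity
      calc ((R : ℝ) + T ^ n) * D * ((Z * (R * (N + 1)) + T : ℕ) : ℝ) * (n * h)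
          ≤ ((R : ℝ) + T ^ n) * D * (((3 * R + T) * (Z * (W * m)) : ℕ) : ℝ) * (n * h) :=
            mul_le_mul_of_nonneg_right (mul_le_mul_of_nonneg_left h2 h3) hnh
        _ = (D : ℝ) * ((K₄ : ℝ) * ((Z : ℝ) * W * (m * h))) := by
            rw [hK₄]
            push_cast
            ring
        _ ≤ (D : ℝ) * 1 := mul_le_mul_of_nonneg_left (hsm K₄ (by omega)) (by linarith)
        _ = D := mul_one _
    have c6 : Real.log (D.factorial : ℕ) ≤ (D : ℝ) * (A * Real.log Z) :=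
      log_fac D (Z ^ A) (Real.log Z) A hD1 b4
        (log_pw _ _ _ (Nat.one_le_pow _ _ hZ1) le_rfl)
    have c7 : ((R : ℝ) + 1) * (Z * N : ℕ) * (D * (n * h)) ≤ D := by
      calc ((R : ℝ) + 1) * (Z * N : ℕ) * (D * (n * h))
          = (D : ℝ) * ((K₅ : ℝ) * ((Z : ℝ) * W * (m * h))) := by
            rw [hK₅, hN0]
            push_cast
            ring
        _ ≤ (D : ℝ) * 1 := mul_le_mul_of_nonneg_left (hsm K₅ (by omega)) (by linarith)
        _ = D := mul_one _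
    exact fin_ineq J A T ((T : ℝ) ^ n) (n * T * T ^ n) R D (Real.log Z) _ _ _ _ _ hJr hAr hTr hP0
      hDr hL1 (by positivity) c1 c2 c3 c4 c5 c6 c7

end Pool.Agent.H36.LV
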