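import Pool.Agent.H36.LV.GpL
import Pool.Agent.H36.LV.NumAdL
import Pool.Agent.H36.LV.ChsL
import Pool.Agent.H36.LV.Df
import Pool.Agent.H72.AD.HdDg
import Pool.Agent.H72.AD.RegA
import Pool.Agent.H72.AD.FldD
import Pool.Agent.H72.AD.DesAll
import Pool.Agent.H72.AD.DesHd
import Pool.Agent.H33.PT.Exq

/-!
# LOG VERSION, MaiAdL: the theorem over `ℚ(μ_∞)` in dimension `n`, from the dimensions below

Copy of `Pool/Agent/H72/AD/MaiAd.lean` (`pu_ab`; wait until that file is proved, row of helper72) with `c₁ := 38 n^3 + 1`, `num_adL`, `gp_uL`, `choose_primesL` in the place of `num_ad`, `gp`, `choose_primes`.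
`C` larger than all the constants, `C ≥ n (2 c₁ + 2 n + 5)`, `≥ 38 n^3 + 20 n`, so large that `(C (e + 1))^C ≤ Z` implies the conditions of `num_adL`, of `gp_uL` (same `e`), `((e + 1) C₀)^C₀ ≤ Z`, and the condition of `choose_primesL` with `N := R ≤ (C' (e+1))^C'`: `(C'' (e + R + 1))^C'' ≤ Z`.
The hypothesis of `gp_uL` for `j < n` from `hlow` with `ε = 1/(e+1)`, `m = 1`: `((1/(e+1)) / C₀)^C₀ / 1 ≥ 1 / Z ≥ 1 / Z^3`.
-/

set_option autoImplicit false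
set_option linter.unusedSectionVars false

open NumberField

namespace Pool.Agent.H36.LV

open Pool.Agent.H11.TH Pool.Agent.H11.TS Pool.Agent.H33.PT Pool.Agent.H72.AD

variable {Ω : Type} [Field Ω] [CharZero Ω] [IsAlgClosed Ω] [IsGalois ℚ Ω]

theorem pu_abL (n : ℕ) (hn : 1 ≤ n) (C₀ : ℕ) (hC₀ : 1 ≤ C₀)
    (hlow : ∀ j : ℕ, 1 ≤ j → j < n → PtPE (Ab Ω) (⊥ : Subgroup Ωˣ) j 1 C₀) :
    ∃ C : ℕ, 1 ≤ C ∧ ∀ e Z : ℕ, (C * (e + 1)) ^ C ≤ Z → ∀ γ : Fin n → Ωˣ,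
      IndM (⊥ : Subgroup Ωˣ) γ → degP (Ab Ω) γ ≤ Z ^ e → ∀ h : ℝ,
      (∀ i, absLogHeight₁ (γ i : Ω) ≤ h) →
      1 < (Z : ℝ) ^ C * ((degP (Ab Ω) γ : ℝ) * h ^ n) := by
  sorry

end Pool.Agent.H36.LV
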