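import Pool.Agent.H33.PT.Reu
import Pool.Agent.H36.LV.Df

/-!
# LOG VERSION, RedL: reduction to saturated `b`

Copy of `red_u` in `Pool/Agent/H33/PT/Reu.lean` (proved; all private lemmas unchanged): the constant is the one of `hNS` for the field generated by `Λ` and its basis `b`; now `δ` is quantified after the constant.
-/

set_option autoImplicit false
set_option linter.unusedSectionVars false

open NumberField IntermediateField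

namespace Pool.Agent.H36.LV

open Pool.Agent.H72.RM Pool.Agent.H92.SR Pool.Agent.H11.TH Pool.Agent.H11.TS Pool.Agent.H33.PT

theorem red_uL {K Ω : Type} [Field K] [NumberField K] [Field Ω] [CharZero Ω] [IsAlgClosed Ω]
    [Algebra K Ω] [IsGalois K Ω] (Λ : Subgroup Ωˣ) (hΛ : Λ.FG) (S : Finset ℕ)
    (k : ℕ) (hk : 1 ≤ k)
    (hNS : ∀ (K₁ : Type) [Field K₁] [NumberField K₁] [Algebra K₁ Ω] [IsGalois K₁ Ω] (r : ℕ)
      (b : Fin r → K₁), (∀ i, b i ≠ 0) →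
      (∀ N : ℕ, 1 ≤ N → ∀ (m : Fin r → ℤ) (y : K₁), y ^ N = ∏ i, (b i) ^ (m i) →
        ∀ i, (N : ℤ) ∣ m i) →
      ∃ C : ℕ, 1 ≤ C ∧ ∀ l : ℕ, 1 ≤ l → ∀ δ : ℝ, 0 < δ → δ ≤ 1 → ∀ γ : Fin k → Ωˣ,
        (∀ a : Fin k → ℤ, a ≠ 0 → ((∏ i, γ i ^ a i : Ωˣ) : Ω) ∉ DivG Ω b) → ∀ h : ℝ,
        (∀ i, absLogHeight₁ (γ i : Ω) ≤ h) →
        (δ / C) ^ C ≤ (l : ℝ) ^ δ * ((degP (NSm Ω b S l) γ : ℝ) ^ (1 / (k : ℝ) + δ) * h)) :
    ∃ C : ℕ, 1 ≤ C ∧ ∀ l : ℕ, 1 ≤ l → PtHE (Nm K Λ S l) Λ k l C := by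
  sorry

end Pool.Agent.H36.LV
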