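import Pool.Agent.H36.LV.CorL
import Pool.Agent.H36.LV.Df

/-!
# LOG VERSION, TsPL: points give all subvarieties, with constants polynomial in `ε`

Copy of `ts_P`, `ts_PZ` in `Pool/Agent/H11/TS/FinB.lean` (the private lemmas `ch_comb`, `comb_ne`, `pow_rpow`, `zpow_sum'` unchanged) with `C₁ := 1 + ε` and `thm_tsL` (constant `C_t`) in the place of `thm_ts`. Let `E := 38 n^2 + 4`.
`choose_P` becomes: for `0 < ε ≤ 1`, `a := ⌈E / ε⌉ + 1 ≤ (E + 2) / ε`, `K := (C_t (a + 1))^(C_t)`, `s := ⌈D^(1/a)⌉`, `P₀ := K s`: `(C_t (a+1))^(C_t) ≤ P₀`, `D ≤ P₀^a`, `P₀^E D ≤ R D^(1+ε)` with `R := (2 K)^E`. Here `K ≤ (C_t (E + 3) / ε)^(C_t)`, so `R` is at most a constant (depending only on `n`) times `ε^(-E C_t)`.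
The constant of `ts_P` is `((C_t R)^(C₁))⁻¹ ≥ (C_t R)^(-2)` (`C₁ ≤ 2`, `C_t R ≥ 1`), that is at least `c ε^(2 E C_t)`; `pw_ex` (`Df.lean`) gives `(ε / C)^C`. In `ts_PZL` the additional factor is `(2^(n^2))^((1+ε)(1+ε)) ≤ 2^(4 n^2)`.
-/

set_option autoImplicit false
set_option linter.unusedSectionVars false

open MvPolynomial NumberField

namespace Pool.Agent.H36.LV

open Pool.Agent.H33.TR Pool.Agent.H72.PB Pool.Agent.H11.TH Pool.Agent.H11.TS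

theorem ts_PL (n : ℕ) : ∃ C : ℕ, 1 ≤ C ∧ ∀ ε : ℝ, 0 < ε → ε ≤ 1 →
    ∀ (K Ω : Type) [Field K] [NumberField K] [Field Ω] [CharZero Ω] [IsAlgClosed Ω] [Algebra K Ω]
      [IsGalois K Ω] (c₁ : ℝ) (_ : 0 ≤ c₁) (Λ : Subgroup Ωˣ) (L : IntermediateField K Ω)
      (_ : ∀ k : ℕ, 1 ≤ k → k ≤ n → PtB L Λ k (1 + ε) c₁)
      (Γ : Subgroup (Tor Ω n)) (_ : ∀ x : Tor Ω n, (∀ l, x l ∈ Λ) → x ∈ Γ)
      (V : Set (Tor Ω n)) (_ : (idl V).IsPrime) (_ : Transv K Γ V)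
      (D : ℕ) (_ : 1 ≤ D) (F : MvPolynomial (Fin n) L) (_ : F ≠ 0) (_ : ∀ i, F.degreeOf i ≤ D)
      (_ : map (algebraMap L Ω) F ∈ idl V)
      (θ : ℝ) (_ : idl {x | x ∈ V ∧ ht x ≤ θ} ≤ idl V),
      (ε / C) ^ C * min 1 c₁ ≤ (D : ℝ) ^ ((1 + ε) * (1 + ε)) * θ := by
  sorry

theorem ts_PZL (n : ℕ) : ∃ C : ℕ, 1 ≤ C ∧ ∀ ε : ℝ, 0 < ε → ε ≤ 1 →
    ∀ (K Ω : Type) [Field K] [NumberField K] [Field Ω] [CharZero Ω] [IsAlgClosed Ω] [Algebra K Ω]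
      [IsGalois K Ω] (c₁ : ℝ) (_ : 0 ≤ c₁) (Λ : Subgroup Ωˣ) (L : IntermediateField K Ω)
      (_ : ∀ k : ℕ, 1 ≤ k → k ≤ n → PtB L Λ k (1 + ε) c₁)
      (Γ : Subgroup (Tor Ω n)) (_ : ∀ x : Tor Ω n, (∀ l, x l ∈ Λ) → x ∈ Γ)
      (V : Set (Tor Ω n)) (_ : (idl V).IsPrime) (_ : Transv K Γ V)
      (Z : Set (Tor Ω n)) (d' : ℕ) (δ ω : ℝ) (_ : ClosedOver L Z) (_ : Z ≠ Set.univ)
      (_ : Equidim Z d') (_ : HasDeg Z d' δ) (_ : V ⊆ Z) (_ : δ ^ (1 / ((n : ℝ) - d')) ≤ ω)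
      (θ : ℝ) (_ : idl {x | x ∈ V ∧ ht x ≤ θ} ≤ idl V),
      1 ≤ ω ∧ (ε / C) ^ C * min 1 c₁ ≤ ω ^ ((1 + ε) * (1 + ε)) * θ := by
  sorry

end Pool.Agent.H36.LV
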